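import Pool.Agent.N829.OM.StmU
import Pool.Agent.W626.HTrace

set_option autoImplicit false

/-! OM/APR: hyperlinear groups embed in the matrix ultraproduct. -/

namespace Pool.Agent.N829.OM.APR_

open Matrix Finset Filter
open Pool.Agent.H21R2 (fro2 fro2_eq_trace fro2_nonneg IsHyperlinear)
open Pool.Agent.W626 (exists_small_trace)
open scoped ComplexOrder Topology

universe v

open Pool.Agent.Helper278 (Mat OpBound NormBounded IsMatrixUltraproduct nrm2 ntr)

/-- block diagonal embedding with several copies of a matrix and an identity block -/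
theorem exists_blk (n : ℕ) (X : Type) [Fintype X] [DecidableEq X] [Nonempty X] :
    ∃ Φ : Matrix X X ℂ → Mat n, Φ 1 = 1 ∧ (∀ M N, Φ (M * N) = Φ M * Φ N) ∧
      (∀ M, Φ Mᴴ = (Φ M)ᴴ) ∧
      (∀ M, trace (Φ M) = ((n / Fintype.card X : ℕ) : ℂ) * trace M + ((n % Fintype.card X : ℕ) : ℂ)) ∧
      ∀ M N, fro2 (Φ M - Φ N) = ((n / Fintype.card X : ℕ) : ℝ) * fro2 (M - N) := by
  obtain ⟨q, hq⟩ : ∃ q, q = n / Fintype.card X := ⟨_, rfl⟩
  obtain ⟨r, hr⟩ : ∃ r, r = n % Fintype.card X := ⟨_, rfl⟩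
  have hcard : Fintype.card ((X × Fin q) ⊕ Fin r) = Fintype.card (Fin n) := by
    rw [Fintype.card_sum, Fintype.card_prod, Fintype.card_fin, Fintype.card_fin, Fintype.card_fin, hq, hr]
    exact Nat.div_add_mod n _
  let e : (X × Fin q) ⊕ Fin r ≃ Fin n := Fintype.equivOfCardEq hcard
  let B : Matrix X X ℂ → Matrix ((X × Fin q) ⊕ Fin r) ((X × Fin q) ⊕ Fin r) ℂ := fun M =>
    fromBlocks (blockDiagonal (fun _ => M)) 0 0 1
  have hB : ∀ M, B M = fromBlocks (blockDiagonal (fun _ => M)) 0 0 1 := fun M => rfl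
  have htr : ∀ A : Matrix ((X × Fin q) ⊕ Fin r) ((X × Fin q) ⊕ Fin r) ℂ,
      trace (A.submatrix e.symm e.symm) = trace A := by
    intro A
    unfold trace
    exact Fintype.sum_equiv e.symm _ _ (fun i => rfl)
  have hfro : ∀ A : Matrix ((X × Fin q) ⊕ Fin r) ((X × Fin q) ⊕ Fin r) ℂ,
      fro2 (A.submatrix e.symm e.symm) = fro2 A := by
    intro A
    unfold fro2
    exact Fintype.sum_equiv e.symm _ _ (fun i => Fintype.sum_equiv e.symm _ _ (fun j => rfl))
  refine ⟨fun M => (B M).submatrix e.symm e.symm, ?_, ?_, ?_, ?_, ?_⟩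
  · have h1 : B 1 = 1 := by
      rw [hB]
      have : blockDiagonal (fun _ : Fin q => (1 : Matrix X X ℂ)) = 1 := blockDiagonal_one
      rw [this, fromBlocks_one]
    simp only [h1]
    exact submatrix_one_equiv e.symm
  · intro M N
    have h1 : B (M * N) = B M * B N := by
      rw [hB, hB, hB, fromBlocks_multiply, ← blockDiagonal_mul]
      simp
    simp only [h1]
    rw [submatrix_mul_equiv]
  · intro M
    have h1 : B Mᴴ = (B M)ᴴ := by
      rw [hB, hB, fromBlocks_conjTranspose, blockDiagonal_conjTranspose]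
      simp
    simp only [h1]
    rw [conjTranspose_submatrix]
  · intro M
    simp only
    rw [htr, hB]
    have : trace (fromBlocks (blockDiagonal (fun _ : Fin q => M)) 0 0 (1 : Matrix (Fin r) (Fin r) ℂ)) =
        trace (blockDiagonal (fun _ : Fin q => M)) + trace (1 : Matrix (Fin r) (Fin r) ℂ) := by
      unfold trace
      rw [Fintype.sum_sum_type]
      rfl
    rw [this, trace_blockDiagonal, sum_const, card_univ, Fintype.card_fin, nsmul_eq_mul, trace_one,
      Fintype.card_fin, hq, hr]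
  · intro M N
    simp only
    have h0 : (B M).submatrix e.symm e.symm - (B N).submatrix e.symm e.symm =
        (B M - B N).submatrix e.symm e.symm := rfl
    rw [h0, hfro]
    have h1 : B M - B N = fromBlocks (blockDiagonal (fun _ : Fin q => (M - N))) 0 0
        (0 : Matrix (Fin r) (Fin r) ℂ) := by
      rw [hB, hB]
      have : blockDiagonal (fun _ : Fin q => (M - N)) = blockDiagonal (fun _ : Fin q => M) -
          blockDiagonal (fun _ : Fin q => N) := blockDiagonal_sub _ _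
      rw [this]
      ext i j
      rcases i with i | i <;> rcases j with j | j <;> simp
    rw [h1]
    have h2 : (fro2 (fromBlocks (blockDiagonal (fun _ : Fin q => (M - N))) 0 0
        (0 : Matrix (Fin r) (Fin r) ℂ)) : ℂ) = ((q : ℝ) * fro2 (M - N) : ℝ) := by
      rw [fro2_eq_trace, fromBlocks_conjTranspose, fromBlocks_multiply, blockDiagonal_conjTranspose,
        ← blockDiagonal_mul]
      simp only [conjTranspose_zero, Matrix.mul_zero, Matrix.zero_mul, add_zero]
      have : trace (fromBlocks (blockDiagonal (fun _ : Fin q => ((M - N)ᴴ * (M - N)))) 0 0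
          (0 : Matrix (Fin r) (Fin r) ℂ)) =
          trace (blockDiagonal (fun _ : Fin q => ((M - N)ᴴ * (M - N)))) := by
        unfold trace
        rw [Fintype.sum_sum_type]
        simp
      rw [this, trace_blockDiagonal, sum_const, card_univ, Fintype.card_fin, nsmul_eq_mul,
        ← fro2_eq_trace]
      push_cast
      rfl
    have h3 := Complex.ofReal_injective h2
    rw [h3, hq]

theorem opBound_of_isometry {n : ℕ} {x : Mat n} (h : xᴴ * x = 1) : OpBound x 1 := by
  intro v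
  have h1 : ∀ w : Fin n → ℂ, ((∑ i, ‖w i‖ ^ 2 : ℝ) : ℂ) = star w ⬝ᵥ w := by
    intro w
    rw [dotProduct]
    push_cast
    refine sum_congr rfl fun i _ => ?_
    rw [Pi.star_apply, Complex.star_def, Complex.conj_mul']
  have h2 : ((∑ i, ‖x.mulVec v i‖ ^ 2 : ℝ) : ℂ) = ((∑ i, ‖v i‖ ^ 2 : ℝ) : ℂ) := by
    rw [h1, h1, star_mulVec, ← dotProduct_mulVec, mulVec_mulVec, h, one_mulVec]
  have h3 := Complex.ofReal_injective h2
  rw [h3, one_pow, one_mul]

theorem opBound_neg {n : ℕ} {x : Mat n} {C : ℝ} (h : OpBound x C) : OpBound ((-1 : ℂ) • x) C := by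
  intro v
  have h1 : ∀ i, ‖(((-1 : ℂ) • x).mulVec v) i‖ = ‖x.mulVec v i‖ := by
    intro i
    rw [smul_mulVec, Pi.smul_apply, norm_smul, norm_neg, norm_one, one_mul]
  simp_rw [h1]
  exact h v

theorem le_top {U : Ultrafilter ℕ} (hU : ∀ n, {n} ∉ U) : (U : Filter ℕ) ≤ atTop := by
  rw [← Nat.cofinite_eq_atTop]
  rcases U.le_cofinite_or_eq_pure with h | ⟨a, h⟩
  · exact h
  · exact absurd (by rw [h]; rfl) (hU a)

section

variable {U : Ultrafilter ℕ} {Q : Type v} [Ring Q] [StarRing Q] [Algebra ℂ Q] [StarModule ℂ Q]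
  {π : (∀ n, Mat n) → Q} {τ : Q → ℂ}

theorem eq_of_lim (hπ : IsMatrixUltraproduct U π τ) {x y : ∀ n, Mat n} (hx : NormBounded x)
    (hy : NormBounded y)
    (h : Tendsto (fun n => ntr n (star (x n - y n) * (x n - y n))) U (𝓝 0)) : π x = π y := by
  obtain ⟨C, hC⟩ := hx
  obtain ⟨D, hD⟩ := hy
  have hy' : NormBounded (fun n => (-1 : ℂ) • y n) := ⟨D, fun n => opBound_neg (hD n)⟩
  have e1 : ∀ n, x n + (-1 : ℂ) • y n = x n - y n := fun n => by
    rw [neg_one_smul, sub_eq_add_neg]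
  have h1 := hπ.add x (fun n => (-1 : ℂ) • y n) ⟨C, hC⟩ hy'
  rw [hπ.smul (-1) y ⟨D, hD⟩] at h1
  have hb : NormBounded (fun n => x n + (-1 : ℂ) • y n) :=
    ⟨2 * (|C| + |D|), fun n => (hC n).add (opBound_neg (hD n))⟩
  have h2 := (hπ.ker _ hb).2 (by
    simp only [e1]
    exact h)
  rw [h2, neg_one_smul, ← sub_eq_add_neg] at h1
  exact (sub_eq_zero.1 h1.symm)

end

theorem bd1 (n d : ℕ) (t η : ℝ) (hd : 0 < d) (hη : 0 ≤ η) (h : t ≤ η * d) :
    (n : ℝ)⁻¹ * (((n / d : ℕ) : ℝ) * t) ≤ η := by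
  rcases Nat.eq_zero_or_pos n with hn | hn
  · subst hn
    simpa using hη
  · have hn' : (0 : ℝ) < n := by exact_mod_cast hn
    have h1 : ((n / d : ℕ) : ℝ) * d ≤ n := by exact_mod_cast Nat.div_mul_le_self n d
    rw [inv_mul_le_iff₀ hn']
    calc ((n / d : ℕ) : ℝ) * t ≤ ((n / d : ℕ) : ℝ) * (η * d) := by gcongr
      _ = η * (((n / d : ℕ) : ℝ) * d) := by ring
      _ ≤ η * n := by gcongr
      _ = n * η := by ring

theorem ntr_star_mul {n : ℕ} (x : Mat n) : ntr n (star x * x) = (((n : ℝ)⁻¹ * fro2 x : ℝ) : ℂ) := by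
  unfold ntr
  rw [star_eq_conjTranspose, ← fro2_eq_trace]
  push_cast
  rfl

theorem main : S_APR.{v} := by
  intro P _ _ hP U hU Q _ _ _ _ π τ hπ
  classical
  obtain ⟨e, he⟩ := exists_injective_nat P
  have hfin : ∀ m : ℕ, Set.Finite {a : P | e a ≤ m} := fun m =>
    (Set.finite_Iic m).preimage he.injOn
  choose X fX dX nX φ p1 p2 p3 using
    fun m : ℕ => exists_small_trace hP (hfin m).toFinset (1 / ((m : ℝ) + 1)) (by positivity)
  have hA : ∀ m a, a ∈ (hfin m).toFinset ↔ e a ≤ m := by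
    intro m a
    rw [Set.Finite.mem_toFinset]
    rfl
  have hd : ∀ m, 0 < Fintype.card (X m) := fun m => Fintype.card_pos
  -- the size
  obtain ⟨mn, hmn⟩ : ∃ mn : ℕ → ℕ, ∀ n, mn n = Nat.findGreatest (fun m => m * Fintype.card (X m) ≤ n) n :=
    ⟨_, fun n => rfl⟩
  have hmn1 : ∀ n, mn n * Fintype.card (X (mn n)) ≤ n := by
    intro n
    rw [hmn]
    exact Nat.findGreatest_spec (P := fun m => m * Fintype.card (X m) ≤ n) (m := 0) (Nat.zero_le _) (by simp)
  have hmn2 : Tendsto mn atTop atTop := by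
    rw [tendsto_atTop]
    intro M
    filter_upwards [eventually_ge_atTop (max M (M * Fintype.card (X M)))] with n hn
    rw [hmn]
    exact Nat.le_findGreatest ((le_max_left _ _).trans hn) ((le_max_right _ _).trans hn)
  have hlim1 : Tendsto (fun n => 1 / ((mn n : ℝ) + 1)) atTop (𝓝 0) :=
    tendsto_one_div_add_atTop_nhds_zero_nat.comp hmn2
  have hlim2 : Tendsto (fun n => 1 / (mn n : ℝ)) atTop (𝓝 0) :=
    tendsto_one_div_atTop_nhds_zero_nat.comp hmn2
  have hUt := le_top hU
  choose Φ f1 f2 f3 f4 f5 using fun n => exists_blk n (X (mn n))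
  obtain ⟨x, hx⟩ : ∃ x : P → ∀ n, Mat n, ∀ a n, x a n = Φ n (φ (mn n) a).1 := ⟨_, fun a n => rfl⟩
  have hiso : ∀ a n, (x a n)ᴴ * x a n = 1 := by
    intro a n
    rw [hx, ← f3, ← f2]
    have : ((φ (mn n) a).1)ᴴ * (φ (mn n) a).1 = 1 := UnitaryGroup.star_mul_self _
    rw [this, f1]
  have hob : ∀ a n, OpBound (x a n) 1 := fun a n => opBound_of_isometry (hiso a n)
  have hnb : ∀ a, NormBounded (x a) := fun a => ⟨1, hob a⟩
  have hone : π (x 1) = 1 := by
    rw [← hπ.one]
    congr 1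
    ext1 n
    rw [hx, p1]
    exact f1 n
  have hmul : ∀ g h, π (x (g * h)) = π (x g) * π (x h) := by
    intro g h
    rw [← hπ.mul _ _ (hnb g) (hnb h)]
    apply eq_of_lim hπ (hnb _) ⟨1 * 1, fun n => (hob g n).mul (hob h n)⟩
    have key : ∀ᶠ n in atTop, ‖ntr n (star (x (g * h) n - x g n * x h n) * (x (g * h) n - x g n * x h n))‖ ≤
        1 / ((mn n : ℝ) + 1) := by
      filter_upwards [hmn2.eventually_ge_atTop (max (e g) (e h))] with n hn
      rw [ntr_star_mul, Complex.norm_real, Real.norm_eq_abs,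
        abs_of_nonneg (mul_nonneg (by positivity) (fro2_nonneg _)), hx, hx, hx, ← f2, f5]
      apply bd1 n _ _ _ (hd _) (by positivity)
      exact p2 (mn n) g ((hA _ _).2 ((le_max_left _ _).trans hn)) h ((hA _ _).2 ((le_max_right _ _).trans hn))
    exact (squeeze_zero_norm' key hlim1).mono_left hUt
  have hstar1 : ∀ g, star (π (x g)) * π (x g) = 1 := by
    intro g
    have hs : NormBounded (fun n => star (x g n)) := ⟨|1|, fun n => (hob g n).star'⟩
    rw [← hπ.star _ (hnb g), ← hπ.mul _ _ hs (hnb g), ← hπ.one]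
    congr 1
    ext1 n
    exact hiso g n
  refine ⟨fun a => π (x a), hone, hmul, fun g => ?_, fun g hg => ?_⟩
  · have h1 : π (x g) * π (x g⁻¹) = 1 := by
      rw [← hmul, mul_inv_cancel, hone]
    calc star (π (x g)) = star (π (x g)) * (π (x g) * π (x g⁻¹)) := by rw [h1, mul_one]
      _ = (star (π (x g)) * π (x g)) * π (x g⁻¹) := by rw [mul_assoc]
      _ = π (x g⁻¹) := by rw [hstar1, one_mul]
  · refine tendsto_nhds_unique (hπ.trace _ (hnb g)) ?_
    have key : ∀ᶠ n in atTop, ‖ntr n (x g n)‖ ≤ 1 / ((mn n : ℝ) + 1) + 1 / (mn n : ℝ) := by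
      filter_upwards [hmn2.eventually_ge_atTop (max (e g) 1)] with n hn
      have hm1 : 1 ≤ mn n := (le_max_right _ _).trans hn
      have hmr : (0 : ℝ) < mn n := by exact_mod_cast hm1
      have hc := hd (mn n)
      have hcr : (0 : ℝ) < Fintype.card (X (mn n)) := by exact_mod_cast hc
      have hle : (mn n : ℝ) * Fintype.card (X (mn n)) ≤ n := by exact_mod_cast hmn1 n
      have hn0 : (0 : ℝ) < n := lt_of_lt_of_le (mul_pos hmr hcr) hle
      have h3 := p3 (mn n) g ((hA _ _).2 ((le_max_left _ _).trans hn)) hg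
      have h4 := bd1 n _ _ _ hc (by positivity : (0 : ℝ) ≤ 1 / ((mn n : ℝ) + 1)) h3
      have h5 : (n : ℝ)⁻¹ * ((n % Fintype.card (X (mn n)) : ℕ) : ℝ) ≤ 1 / (mn n : ℝ) := by
        have h6 : ((n % Fintype.card (X (mn n)) : ℕ) : ℝ) ≤ Fintype.card (X (mn n)) := by
          exact_mod_cast (Nat.mod_lt n hc).le
        rw [inv_mul_le_iff₀ hn0, mul_one_div, le_div_iff₀ hmr]
        calc ((n % Fintype.card (X (mn n)) : ℕ) : ℝ) * mn n ≤ Fintype.card (X (mn n)) * mn n := by gcongr
          _ = (mn n : ℝ) * Fintype.card (X (mn n)) := by ring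
          _ ≤ n := hle
      have h7 : ntr n (x g n) = (((n : ℝ)⁻¹ : ℝ) : ℂ) * (((n / Fintype.card (X (mn n)) : ℕ) : ℂ) * trace (φ (mn n) g).1) +
          (((n : ℝ)⁻¹ : ℝ) : ℂ) * ((n % Fintype.card (X (mn n)) : ℕ) : ℂ) := by
        unfold ntr
        rw [hx, f4]
        push_cast
        ring
      rw [h7]
      refine (norm_add_le _ _).trans (add_le_add ?_ ?_)
      · rw [norm_mul, norm_mul, Complex.norm_real, Real.norm_eq_abs, abs_of_nonneg (by positivity),
          Complex.norm_natCast]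
        exact h4
      · rw [norm_mul, Complex.norm_real, Real.norm_eq_abs, abs_of_nonneg (by positivity),
          Complex.norm_natCast]
        exact h5
    have hlim3 := hlim1.add hlim2
    rw [add_zero] at hlim3
    exact (squeeze_zero_norm' key hlim3).mono_left hUt

end Pool.Agent.N829.OM.APR_
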