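import Pool.Agent.N829.OM.StmG
import Pool.Agent.N44.HL.H
import Pool.Agent.N44.HL.D

/-!
# Closed subgroups and extensions by an automorphism
-/

set_option autoImplicit false

namespace Pool.Agent.N829.OM

open Pool.Agent.N44.HL Pool.Agent.H21R2

namespace CLZ_

/-- the shift of `Γ ^ ℤ` -/
def shift (Γ : Type) [Group Γ] : MulAut (ℤ → Γ) where
  toFun x := fun j => x (j - 1)
  invFun x := fun j => x (j + 1)
  left_inv x := by funext j; simp
  right_inv x := by funext j; simp
  map_mul' x y := rfl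

theorem shift_apply {Γ : Type} [Group Γ] (x : ℤ → Γ) (j : ℤ) : shift Γ x j = x (j - 1) := rfl

theorem shift_inv_apply {Γ : Type} [Group Γ] (x : ℤ → Γ) (j : ℤ) :
    (shift Γ)⁻¹ x j = x (j + 1) := rfl

theorem shift_zpow {Γ : Type} [Group Γ] (k : ℤ) : ∀ (x : ℤ → Γ) (j : ℤ),
    (shift Γ ^ k) x j = x (j - k) := by
  induction k using Int.induction_on with
  | zero => intro x j; simp
  | succ k ih =>
    intro x j
    rw [zpow_add_one, MulAut.mul_apply, ih, shift_apply]
    congr 1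
    ring
  | pred k ih =>
    intro x j
    rw [zpow_sub_one, MulAut.mul_apply, ih, shift_inv_apply]
    congr 1
    ring

/-- `n ↦ (j ↦ f (τ ^ (-j) n))` -/
def F0 {N Γ : Type} [Group N] [Group Γ] (τ : MulAut N) (f : N →* Γ) : N →* (ℤ → Γ) :=
  MonoidHom.pi fun j => f.comp (τ ^ (-j)).toMonoidHom

theorem F0_apply {N Γ : Type} [Group N] [Group Γ] (τ : MulAut N) (f : N →* Γ) (n : N) (j : ℤ) :
    F0 τ f n j = f ((τ ^ (-j)) n) := rfl

/-- the map of the extensions -/
def F {N Γ : Type} [Group N] [Group Γ] (τ : MulAut N) (f : N →* Γ) :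
    ExtZ N τ →* ExtZ (ℤ → Γ) (shift Γ) :=
  SemidirectProduct.map (F0 τ f) (MonoidHom.id _) fun g => by
    ext n : 1
    funext j
    show F0 τ f ((τ ^ g.toAdd) n) j = (shift Γ ^ g.toAdd) (F0 τ f n) j
    rw [shift_zpow, F0_apply, F0_apply, ← MulAut.mul_apply, ← zpow_add]
    congr 3
    ring

theorem F_inl {N Γ : Type} [Group N] [Group Γ] (τ : MulAut N) (f : N →* Γ) (n : N) :
    F τ f (SemidirectProduct.inl n) = SemidirectProduct.inl (F0 τ f n) :=
  SemidirectProduct.map_inl _ _ _ n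

theorem comm_iff {N Γ : Type} [Group N] [Group Γ] (τ : MulAut N) (f : N →* Γ) (n : N) (s : Γ) :
    (F τ f (SemidirectProduct.inl n) = SemidirectProduct.inl (Pi.mulSingle (0 : ℤ) s) *
      F τ f (SemidirectProduct.inl n) * (SemidirectProduct.inl (Pi.mulSingle (0 : ℤ) s))⁻¹) ↔
      s * f n = f n * s := by
  rw [F_inl, eq_mul_inv_iff_mul_eq, ← map_mul, ← map_mul, SemidirectProduct.inl_inj]
  constructor
  · intro h
    have := congrFun h 0
    simp only [Pi.mul_apply, Pi.mulSingle_eq_same, F0_apply] at this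
    simpa using this.symm
  · intro h
    funext j
    rcases eq_or_ne j 0 with rfl | hj
    · simp only [Pi.mul_apply, Pi.mulSingle_eq_same, F0_apply]
      simpa using h.symm
    · simp only [Pi.mul_apply, Pi.mulSingle_eq_of_ne hj, one_mul, mul_one]

theorem hyp_int : IsHyperlinear (Multiplicative ℤ) :=
  hyperlinear_of_injective hyperlinear_int.{0} (MulEquiv.ulift.symm : Multiplicative ℤ ≃* _).toMonoidHom
    (MulEquiv.injective _)

theorem main (h : S_NZ) : S_CLZ := by
  intro N _ τ H hN hH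
  have ht : IsHyperlinear N ∧ IsClosedSubgroup H ↔
      ∃ (Γ : Type) (_ : Group Γ) (f : N →* Γ) (S : Set Γ), IsHyperlinear Γ ∧
        Function.Injective f ∧ ∀ g, g ∈ H ↔ ∀ s ∈ S, s * f g = f g * s :=
    (closed_tfae6 H).out 0 1
  obtain ⟨Γ, _, f, S, hΓ, hf, hS⟩ := ht.1 ⟨hN, hH⟩
  have hE : IsHyperlinear (ExtZ (ℤ → Γ) (shift Γ)) := h _ _ (hyperlinear_pi0 fun _ => hΓ)
  refine ⟨(S → ExtZ (ℤ → Γ) (shift Γ)) × Multiplicative ℤ, inferInstance,
    MonoidHom.prod (MonoidHom.pi fun _ => F τ f) SemidirectProduct.rightHom,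
    MonoidHom.prod (MonoidHom.pi fun s => (MulAut.conj
      (SemidirectProduct.inl (Pi.mulSingle (0 : ℤ) (s : Γ)))).toMonoidHom.comp (F τ f)) 1,
    hyperlinear_prod (hyperlinear_pi0 fun _ => hE) hyp_int, fun x => ?_⟩
  rw [MonoidHom.prod_apply, MonoidHom.prod_apply, Prod.mk.injEq]
  constructor
  · rintro ⟨h1, h2⟩
    have hx : x = SemidirectProduct.inl x.left := by
      refine SemidirectProduct.ext rfl ?_
      simpa using h2
    refine ⟨x.left, ?_, hx.symm⟩
    refine (hS _).2 fun s hs => ?_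
    rw [← comm_iff τ f, ← hx]
    exact congrFun h1 ⟨s, hs⟩
  · rintro ⟨n, hn, rfl⟩
    refine ⟨?_, by simp⟩
    funext s
    exact (comm_iff τ f n s).2 ((hS n).1 hn s s.2)

end CLZ_

end Pool.Agent.N829.OM
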