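import Pool.Agent.N829.OM.StmF
import Pool.Agent.N163.ST.KKZ
import Pool.Agent.N340.ST.CMP

/-!
# Project OM: the Casimir values are almost preserved, one piece (`S_CMS`)
-/

set_option autoImplicit false

namespace Pool.Agent.N829.OM.CMS_

open Matrix Finset
open scoped ComplexOrder
open Pool.Agent.W661.RC Pool.Agent.W683.RC Pool.Agent.N303.KQ Pool.Agent.N52.NH Pool.Agent.N52.ST
open Pool.Agent.N340.ST.CMP (pr_sum hs_pr_mul sum_left sum_right)

noncomputable section

theorem aux (hK : S_KKZ) : S_CMS := by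
  classical
  intro d O u ρ q m hu hq hm hc
  obtain ⟨k1, k2, k3, k4, k5, -⟩ := hK d O
  have hP : ∀ κ, IsPr (zc O κ) := fun κ => (k1 κ).1
  have hPO : IsPr (pO O) := by rw [← k3]; exact pr_sum hP k2 _
  have hZG : ZG O (q * m) = ∑ κ ∈ (cl O).filter (fun κ => q * m < cc O κ), zc O κ := by
    refine (k4 (fun κ => q * m < cc O κ)).trans ?_
    exact Finset.sum_congr (by ext x; simp only [Finset.mem_filter]) (fun _ _ => rfl)
  have hZL : ZL O (m / q) = ∑ κ ∈ (cl O).filter (fun κ => cc O κ ≤ m / q), zc O κ := by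
    refine (k4 (fun κ => cc O κ ≤ m / q)).trans ?_
    exact Finset.sum_congr (by ext x; simp only [Finset.mem_filter]) (fun _ _ => rfl)
  have hG : IsPr (ZG O (q * m)) := by rw [hZG]; exact pr_sum hP k2 _
  have hL : IsPr (ZL O (m / q)) := by rw [hZL]; exact pr_sum hP k2 _
  -- splitting
  have h1 : ms O u (fun κ' κ => q ^ 2 * cc O κ < cc O κ') ≤
      ∑ κ' ∈ (cl O).filter (fun κ => q * m < cc O κ), ∑ κ ∈ cl O, hs (zc O κ' * u * zc O κ) +
      ∑ κ ∈ (cl O).filter (fun κ => cc O κ ≤ m / q), ∑ κ' ∈ cl O,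
        hs (zc O κ' * u * zc O κ) := by
    rw [Finset.sum_comm (s := (cl O).filter (fun κ => cc O κ ≤ m / q)) (t := cl O)]
    rw [Finset.sum_filter, ← Finset.sum_add_distrib]
    unfold ms
    refine Finset.sum_le_sum fun κ' _ => ?_
    rw [Finset.sum_filter]
    by_cases hκ' : q * m < cc O κ'
    · rw [if_pos hκ']
      have h2 : ∑ κ ∈ cl O, (if q ^ 2 * cc O κ < cc O κ' then hs (zc O κ' * u * zc O κ) else 0) ≤
          ∑ κ ∈ cl O, hs (zc O κ' * u * zc O κ) := by
        refine Finset.sum_le_sum fun κ _ => ?_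
        split_ifs
        · exact le_refl _
        · exact hs_nonneg _
      have h3 : 0 ≤ ∑ κ ∈ cl O, (if cc O κ ≤ m / q then hs (zc O κ' * u * zc O κ) else 0) := by
        refine Finset.sum_nonneg fun κ _ => ?_
        split_ifs
        · exact hs_nonneg _
        · exact le_refl _
      linarith
    · rw [if_neg hκ', zero_add]
      refine Finset.sum_le_sum fun κ _ => ?_
      by_cases hN : q ^ 2 * cc O κ < cc O κ'
      · rw [if_pos hN]
        have h4 : cc O κ ≤ m / q := by
          by_contra hcc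
          rw [not_le, div_lt_iff₀ (by linarith)] at hcc
          apply hκ'
          calc q * m < q * (cc O κ * q) := mul_lt_mul_of_pos_left hcc (by linarith)
            _ = q ^ 2 * cc O κ := by ring
            _ < cc O κ' := hN
        rw [if_pos h4]
      · rw [if_neg hN]
        split_ifs
        · exact hs_nonneg _
        · exact le_refl _
  -- the first part
  have h2 : ∑ κ' ∈ (cl O).filter (fun κ => q * m < cc O κ), ∑ κ ∈ cl O,
      hs (zc O κ' * u * zc O κ) ≤ tr (ZG O (q * m)) := by
    have e1 : hs (ZG O (q * m) * u) = tr (ZG O (q * m)) := by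
      rw [hs_mul_unit hu]
      have := hs_pr_mul hG 1
      rw [Matrix.mul_one, Matrix.conjTranspose_one, Matrix.one_mul, Matrix.mul_one] at this
      exact this
    rw [← e1]
    rw [hZG, ← sum_left hP k2]
    refine Finset.sum_le_sum fun κ' _ => ?_
    rw [sum_right hP k2, k3]
    exact hs_mul_pr_le_self hPO _
  -- the second part
  have h3 : ∑ κ ∈ (cl O).filter (fun κ => cc O κ ≤ m / q), ∑ κ' ∈ cl O,
      hs (zc O κ' * u * zc O κ) ≤ tr (ZL O (m / q)) := by
    have e1 : hs (ZL O (m / q)) = tr (ZL O (m / q)) := by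
      have := hs_pr_mul hL 1
      rw [Matrix.mul_one, Matrix.conjTranspose_one, Matrix.one_mul, Matrix.mul_one] at this
      exact this
    have e2 : ∑ κ ∈ (cl O).filter (fun κ => cc O κ ≤ m / q), hs (zc O κ) =
        hs (ZL O (m / q)) := by
      have := sum_left hP k2 ((cl O).filter (fun κ => cc O κ ≤ m / q)) 1
      rw [← hZL, Matrix.mul_one] at this
      rw [← this]
      exact Finset.sum_congr rfl fun κ _ => by rw [Matrix.mul_one]
    rw [← e1, ← e2]
    refine Finset.sum_le_sum fun κ _ => ?_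
    calc ∑ κ' ∈ cl O, hs (zc O κ' * u * zc O κ) =
          ∑ κ' ∈ cl O, hs (zc O κ' * (u * zc O κ)) :=
          Finset.sum_congr rfl fun κ' _ => by simp only [Matrix.mul_assoc]
      _ = hs (pO O * (u * zc O κ)) := by rw [sum_left hP k2, k3]
      _ ≤ hs (u * zc O κ) := hs_pr_mul_le_self hPO _
      _ = hs (zc O κ) := hs_unit_mul hu _
  linarith

theorem main : S_CMS := aux Pool.Agent.N163.ST.KKZ.main

end

end Pool.Agent.N829.OM.CMS_

namespace Pool.Agent.N829.OM.CMS

/-- the Casimir values are almost preserved -/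
theorem main : Pool.Agent.N829.OM.S_CMS := Pool.Agent.N829.OM.CMS_.main

end Pool.Agent.N829.OM.CMS
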