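import Pool.Agent.N829.OM.StmV
import Pool.Agent.Helper436.SN.Bridge
import Pool.Agent.Helper278.RGVN
import Pool.Agent.Helper278.MUFin

/-!
# Project OM: the commutant of an embedding of `L(P)`
-/

set_option autoImplicit false
set_option linter.unusedSectionVars false

open Filter
open scoped Topology InnerProductSpace ComplexOrder Matrix.Norms.L2Operator

noncomputable section

namespace Pool.Agent.N829.OM

open Pool.Agent.Helper278 Pool.Agent.Helper278.RG Pool.Agent.Helper436.SN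

universe v

namespace COMM_

/-! ### the trace of a matrix ultraproduct -/

section

variable {Q : Type v} [Ring Q] [StarRing Q] [Algebra ℂ Q]

theorem ntr_add {n : ℕ} (x y : Mat n) : ntr n (x + y) = ntr n x + ntr n y := by
  unfold ntr
  rw [Matrix.trace_add, mul_add]

theorem ntr_smul {n : ℕ} (c : ℂ) (x : Mat n) : ntr n (c • x) = c * ntr n x := by
  unfold ntr
  rw [Matrix.trace_smul, smul_eq_mul]
  ring

theorem ntr_comm {n : ℕ} (x y : Mat n) : ntr n (x * y) = ntr n (y * x) := by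
  unfold ntr
  rw [Matrix.trace_mul_comm]

theorem ntr_star {n : ℕ} (x : Mat n) : ntr n (star x) = star (ntr n x) := by
  unfold ntr
  rw [Matrix.star_eq_conjTranspose, Matrix.trace_conjTranspose, star_mul', star_inv₀,
    star_natCast]

/-- the star homomorphism on bounded sequences -/
noncomputable def hom {U : Ultrafilter ℕ} {π : (∀ n, Mat n) → Q} {τ : Q → ℂ}
    (h : IsMatrixUltraproduct U π τ) : BddSeq →⋆ₐ[ℂ] Q where
  toFun x := π x.1
  map_one' := h.one
  map_mul' x y := h.mul x.1 y.1 x.2 y.2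
  map_zero' := by
    have h1 := h.smul 0 (fun n => (0 : BddSeq).1 n) (0 : BddSeq).2
    rw [zero_smul] at h1
    rw [← h1]
    congr 1
    funext n
    rw [zero_smul]
    rfl
  map_add' x y := h.add x.1 y.1 x.2 y.2
  commutes' r := by
    have h1 := h.smul r (fun n => (1 : BddSeq).1 n) (1 : BddSeq).2
    have h2 : π (fun n => (1 : BddSeq).1 n) = 1 := h.one
    rw [h2] at h1
    have h3 : (algebraMap ℂ Q) r = r • 1 := Algebra.algebraMap_eq_smul_one r
    rw [h3, ← h1]
    congr 1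
    funext n
    show (algebraMap ℂ (∀ n, Mat n) r) n = r • (1 : Mat n)
    rw [Pi.algebraMap_apply, Algebra.algebraMap_eq_smul_one]
  map_star' x := h.star x.1 x.2

theorem isMatUltra {U : Ultrafilter ℕ} {π : (∀ n, Mat n) → Q} {τ : Q → ℂ}
    (h : IsMatrixUltraproduct U π τ) : IsMatUltra U (hom h) τ where
  surj q := by
    obtain ⟨x, hx, rfl⟩ := h.surj q
    exact ⟨⟨x, hx⟩, rfl⟩
  ker x := h.ker x.1 x.2
  trace x := h.trace x.1 x.2

variable {U : Ultrafilter ℕ} {π : BddSeq →⋆ₐ[ℂ] Q} {τ : Q → ℂ}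

/-- the trace as a linear functional -/
noncomputable def lin (h : IsMatUltra U π τ) : Q →ₗ[ℂ] ℂ where
  toFun := τ
  map_add' x y := by
    obtain ⟨x, rfl⟩ := h.surj x
    obtain ⟨y, rfl⟩ := h.surj y
    rw [← map_add]
    refine tendsto_nhds_unique (h.trace (x + y)) ?_
    refine ((h.trace x).add (h.trace y)).congr fun n => ?_
    rw [← ntr_add]
    rfl
  map_smul' c x := by
    obtain ⟨x, rfl⟩ := h.surj x
    rw [← map_smul, RingHom.id_apply, smul_eq_mul]
    refine tendsto_nhds_unique (h.trace (c • x)) ?_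
    refine ((h.trace x).const_mul c).congr fun n => ?_
    rw [← ntr_smul]
    rfl

theorem lin_apply (h : IsMatUltra U π τ) (x : Q) : lin h x = τ x := rfl

theorem tendsto_s2 (h : IsMatUltra U π τ) (x : BddSeq) :
    Tendsto (fun n => s2 n (x.1 n)) U (𝓝 (τ (star (π x) * π x)).re) ∧
      (τ (star (π x) * π x)).im = 0 := by
  have h1 := h.trace (star x * x)
  rw [map_mul, map_star] at h1
  have h2 : ∀ n, ntr n ((star x * x : BddSeq).1 n) = (s2 n (x.1 n) : ℂ) := by
    intro n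
    rw [← ntr_star_mul]
    rfl
  simp only [h2] at h1
  refine ⟨?_, ?_⟩
  · have := (Complex.continuous_re.tendsto _).comp h1
    exact this
  · have h3 := (Complex.continuous_im.tendsto _).comp h1
    refine tendsto_nhds_unique h3 ?_
    refine tendsto_const_nhds.congr fun n => ?_
    simp

theorem trAlg (h : IsMatUltra U π τ) (hU : τ 1 = 1) : TrAlg (lin h) where
  one := hU
  comm := by
    intro x y
    obtain ⟨x, rfl⟩ := h.surj x
    obtain ⟨y, rfl⟩ := h.surj y
    have h1 := h.trace (x * y)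
    have h2 := h.trace (y * x)
    rw [map_mul] at h1 h2
    refine tendsto_nhds_unique h1 (h2.congr fun n => ?_)
    exact ntr_comm _ _
  nonneg := by
    intro x
    obtain ⟨x, rfl⟩ := h.surj x
    obtain ⟨h1, h2⟩ := tendsto_s2 h x
    rw [lin_apply h, Complex.nonneg_iff]
    exact ⟨ge_of_tendsto' h1 fun n => s2_nonneg _, h2.symm⟩
  conj := by
    intro x
    obtain ⟨x, rfl⟩ := h.surj x
    have h1 := h.trace (star x)
    rw [map_star] at h1
    have h2 := (continuous_star.tendsto _).comp (h.trace x)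
    refine tendsto_nhds_unique h1 (h2.congr fun n => ?_)
    exact (ntr_star _).symm
  faithful := by
    intro x hx
    obtain ⟨x, rfl⟩ := h.surj x
    rw [h.ker]
    have h1 := h.trace (star x * x)
    rw [map_mul, map_star] at h1
    have h2 : τ (star (π x) * π x) = 0 := hx
    rw [h2] at h1
    exact h1

theorem bdd (x : BddSeq) : ∃ C : ℝ, 0 ≤ C ∧ ∀ n, ‖x.1 n‖ ≤ C := by
  obtain ⟨C, hC⟩ := x.2
  exact ⟨|C|, abs_nonneg _, fun n => (hC n).norm_le⟩

theorem tendsto_n2 (h : IsMatUltra U π τ) (x : BddSeq) :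
    Tendsto (fun n => Real.sqrt (s2 n (x.1 n))) U (𝓝 (n2 τ (π x))) :=
  (Real.continuous_sqrt.tendsto _).comp (tendsto_s2 h x).1

/-- multiplication operators are bounded in the 2-norm -/
theorem mul_bound (h : IsMatUltra U π τ) (x : Q) :
    ∃ C : ℝ, 0 ≤ C ∧ ∀ y, n2 τ (x * y) ≤ C * n2 τ y := by
  obtain ⟨x, rfl⟩ := h.surj x
  obtain ⟨C, hC0, hC⟩ := bdd x
  refine ⟨C, hC0, fun y => ?_⟩
  obtain ⟨y, rfl⟩ := h.surj y
  rw [← map_mul]
  refine le_of_tendsto_of_tendsto' (tendsto_n2 h (x * y)) ((tendsto_n2 h y).const_mul C)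
    fun n => ?_
  show Real.sqrt (s2 n (x.1 n * y.1 n)) ≤ C * Real.sqrt (s2 n (y.1 n))
  rw [← Real.sqrt_sq hC0, ← Real.sqrt_mul (sq_nonneg C)]
  refine Real.sqrt_le_sqrt ?_
  refine (s2_mul_le _ _).trans (mul_le_mul_of_nonneg_right ?_ (s2_nonneg _))
  exact pow_le_pow_left₀ (norm_nonneg _) (hC n) 2

end

section

variable {Q : Type v} [Ring Q] [StarRing Q] [Algebra ℂ Q] [StarModule ℂ Q] {U : Ultrafilter ℕ}
  {π : (∀ n, Mat n) → Q} {τ : Q → ℂ}

variable {G : Type} [Group G] {K : Type} [NormedAddCommGroup K] [InnerProductSpace ℂ K]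
  [CompleteSpace K] (b : HilbertBasis G ℂ K)

theorem n2_map (ι : Elt (LK b) →⋆ₐ[ℂ] Q) (hι : ∀ x, τ (ι x) = trG b x) (w : Elt (LK b)) :
    n2 τ (ι w) = N2 b w := by
  unfold n2
  rw [← map_star, ← map_mul, hι, trG_star_mul, Complex.ofReal_re,
    Real.sqrt_sq (show 0 ≤ N2 b w from norm_nonneg _)]

theorem comm (h : IsMatrixUltraproduct U π τ) (ι : Elt (LK b) →⋆ₐ[ℂ] Q)
    (hι : ∀ x, τ (ι x) = trG b x) (a : Q) (ha : ∀ g, a * ι (La b g) = ι (La b g) * a)
    (x : Elt (LK b)) : a * ι x = ι x * a := by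
  have h2 : τ 1 = 1 := by
    rw [← map_one ι, hι]
    exact (isTr_trG b).one
  have hM := isMatUltra h
  have hT := trAlg hM h2
  have hL : ∀ v, a * ι (Lop b v) = ι (Lop b v) * a := by
    intro v
    rw [Lop_apply, Finsupp.sum, map_sum, Finset.mul_sum, Finset.sum_mul]
    refine Finset.sum_congr rfl fun g _ => ?_
    rw [map_smul, mul_smul_comm, smul_mul_assoc, ha]
  obtain ⟨C, hC0, hC⟩ := mul_bound hM a
  obtain ⟨D, hD0, hD⟩ := mul_bound hM (star a)
  have key : ∀ ε : ℝ, 0 < ε → n2 τ (a * ι x - ι x * a) ≤ (C + D) * ε := by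
    intro ε hε
    obtain ⟨y, ⟨v, rfl⟩, hy⟩ := dense_CG b x ε hε
    have e1 : a * ι x - ι x * a = a * ι (x - Lop b v) - ι (x - Lop b v) * a := by
      rw [map_sub, mul_sub, sub_mul, hL v]
      abel
    rw [e1]
    have e2 : n2 τ (a * ι (x - Lop b v) - ι (x - Lop b v) * a) ≤
        n2 τ (a * ι (x - Lop b v)) + n2 τ (ι (x - Lop b v) * a) := hT.n2_sub_le _ _
    have e3 : n2 τ (ι (x - Lop b v)) ≤ ε := by
      rw [n2_map b ι hι]
      exact hy.le
    have e4 : n2 τ (a * ι (x - Lop b v)) ≤ C * ε :=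
      (hC _).trans (mul_le_mul_of_nonneg_left e3 hC0)
    have e5 : n2 τ (ι (x - Lop b v) * a) ≤ D * ε := by
      have e6 : n2 τ (star (ι (x - Lop b v) * a)) = n2 τ (ι (x - Lop b v) * a) := hT.n2_star _
      rw [← e6, star_mul]
      refine (hD _).trans (mul_le_mul_of_nonneg_left ?_ hD0)
      have e7 : n2 τ (star (ι (x - Lop b v))) = n2 τ (ι (x - Lop b v)) := hT.n2_star _
      rw [e7]
      exact e3
    linarith
  have hz : n2 τ (a * ι x - ι x * a) = 0 := by
    refine le_antisymm ?_ (n2_nonneg _ _)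
    refine le_of_forall_pos_le_add fun ε hε => ?_
    have h2 := key (ε / (C + D + 1)) (by positivity)
    refine h2.trans ?_
    rw [zero_add, ← mul_div_assoc, div_le_iff₀ (by positivity)]
    nlinarith
  refine sub_eq_zero.1 (hT.faithful _ ?_)
  apply Complex.ext
  · have h3 : n2 τ (a * ι x - ι x * a) ^ 2 =
        (τ (star (a * ι x - ι x * a) * (a * ι x - ι x * a))).re := hT.n2_sq _
    rw [hz] at h3
    rw [lin_apply, ← h3]
    simp
  · exact hT.im_zero _

theorem rep (ι : Elt (LK b) →⋆ₐ[ℂ] Q) (hι : ∀ x, τ (ι x) = trG b x) :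
    TRep G τ (fun g => ι (La b g)) where
  one := by
    rw [La_one, map_one]
  mul g h := by
    rw [← La_mul, map_mul]
  star g := by
    rw [← map_star, star_La]
  tr g hg := by
    rw [hι]
    show ⟪b 1, lamK b g (b 1)⟫_ℂ = 0
    rw [lamK_basis, mul_one]
    exact inner_bb b 1 g (Ne.symm hg)

end

theorem main : S_COMM.{v} := by
  intro P _ U Q _ _ _ _ π τ h
  refine transport P (fun N tr => ∀ ι : Elt N →⋆ₐ[ℂ] Q, (∀ x, τ (ι x) = tr x) →
    ∃ f : P → Q, TRep P τ f ∧ (∀ g, ∃ x, f g = ι x) ∧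
      ∀ a : Q, (∀ g, a * f g = f g * a) → ∀ x, a * ι x = ι x * a) ?_
  intro ι hι
  exact ⟨fun g => ι (La _ g), rep _ ι hι, fun g => ⟨_, rfl⟩,
    fun a ha x => comm _ h ι hι a ha x⟩

end COMM_

end Pool.Agent.N829.OM
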