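import Pool.Agent.N829.OM.StmF
import Pool.Agent.N52.ST.MLS
import Pool.Agent.N52.ST.CEX
import Pool.Agent.N607.ST.STR
import Pool.Agent.N163.ST.KKZ

/-!
# OM: the finite-dimensional theorem with weak irreducibility from its parts (CORW)
-/

set_option autoImplicit false

namespace Pool.Agent.N829.OM.CORW_

open Matrix Finset
open scoped ComplexOrder
open Pool.Agent.W661.RC Pool.Agent.W683.RC Pool.Agent.N303.KQ Pool.Agent.N52.NH
open Pool.Agent.N52.ST Pool.Agent.N829.OM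

noncomputable section

theorem main (h1 : S_CSW) (h2 : S_CMS) : S_CORW := by
  intro ε0 hε0
  have hEQV : S_EQV := eqv Pool.Agent.N163.ST.KKZ.main
  have hSTR : S_STR := Pool.Agent.N607.ST.STR.main cex
  set η : ℝ := ε0 / 16 with hη
  have hη0 : 0 < η := by positivity
  set c : ℝ := min 1 (η / 6) with hc
  have hc0 : 0 < c := lt_min one_pos (by positivity)
  have hc1 : c ≤ 1 := min_le_left _ _
  have hc2 : c ≤ η / 6 := min_le_right _ _
  have hγ : 1 < 1 + c := by linarith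
  obtain ⟨κ, hκ, hcs⟩ := h1 (η / 1000) (1 + c) (by positivity) hγ
  refine ⟨κ, hκ, fun k δ hδ => ?_⟩
  obtain ⟨ε1, hε1, hcon⟩ := hcs k δ hδ
  set ε : ℝ := min ε1 (η / 1000) with hε
  have hε0' : 0 < ε := lt_min hε1 (by positivity)
  have hεa : ε ≤ ε1 := min_le_left _ _
  have hεb : ε ≤ η / 1000 := min_le_right _ _
  refine ⟨ε, hε0', ?_⟩
  intro d O u hd hun hnear hsize hirr s
  have hd0 : (0 : ℝ) < d := by exact_mod_cast hd
  obtain ⟨m, hm0, hm⟩ := hcon d O u hd hun (fun s a ha ha1 => by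
    obtain ⟨b, hb, hb2⟩ := hnear s a ha ha1
    exact ⟨b, hb, hb2.trans (mul_le_mul_of_nonneg_right hεa hd0.le)⟩)
    (hsize.trans (mul_le_mul_of_nonneg_right hεa hd0.le)) hirr
  have h3 := h2 d O (u s) (η / 1000) (1 + c) m (hun s) hγ hm0 hm
  have hΓ : 1 < (1 + c) ^ 2 := by nlinarith
  have h4 := hEQV d O (u s) ε (η / 1000) ((1 + c) ^ 2) (hun s) hΓ (hnear s) h3
  have hD : D0 O ≤ d := D0_le
  have h5 : D0 O - η * d ≤ W2 O (TT O (u s)ᴴ) := by
    refine le_trans ?_ h4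
    have hΓ0 : (0 : ℝ) < (1 + c) ^ 2 := by positivity
    have hi : 1 - 3 * c ≤ 1 / (1 + c) ^ 2 := by
      rw [le_div_iff₀ hΓ0]
      nlinarith [mul_pos hc0 hc0, mul_pos (mul_pos hc0 hc0) hc0]
    have hi1 : 1 / (1 + c) ^ 2 ≤ 1 := by
      rw [div_le_one hΓ0]; exact hΓ.le
    have hi0 : 0 < 1 / (1 + c) ^ 2 := by positivity
    have hD0 : 0 ≤ D0 O := by rw [D0]; positivity
    have h6 : D0 O - 3 * c * d ≤ 1 / (1 + c) ^ 2 * D0 O := by
      have h7 : (1 - 3 * c) * D0 O ≤ 1 / (1 + c) ^ 2 * D0 O := mul_le_mul_of_nonneg_right hi hD0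
      have h8 : 3 * c * D0 O ≤ 3 * c * d := mul_le_mul_of_nonneg_left hD (by positivity)
      linarith
    have h9 : 1 / (1 + c) ^ 2 * ((ε + η / 1000) * d) ≤ (η / 2) * d := by
      have h10 : (ε + η / 1000) * d ≤ η / 2 * d :=
        mul_le_mul_of_nonneg_right (by linarith) hd0.le
      have h11 : 0 ≤ (ε + η / 1000) * d := by positivity
      calc 1 / (1 + c) ^ 2 * ((ε + η / 1000) * d) ≤
          1 * ((ε + η / 1000) * d) := mul_le_mul_of_nonneg_right hi1 h11
        _ ≤ _ := by rw [one_mul]; exact h10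
    have h12 : 3 * c * d ≤ η / 2 * d := mul_le_mul_of_nonneg_right (by linarith) hd0.le
    rw [mul_sub]
    linarith
  have h6 := hSTR d O (u s)ᴴ η (unit_conj (hun s)) h5
  have e3 : 16 * η = ε0 := by rw [hη]; ring
  rw [e3] at h6
  exact h6

end

end Pool.Agent.N829.OM.CORW_
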