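import Pool.Agent.N829.OM.StmU

/-!
# Project OM (helper829): completeness of balls of the matrix ultraproduct (helper953)
-/

set_option autoImplicit false

namespace Pool.Agent.N829.OM

open Matrix Finset Filter
open scoped ComplexOrder Topology
open Pool.Agent.Helper278 (Mat OpBound NormBounded IsMatrixUltraproduct nrm2 ntr)

universe v

namespace CPL_

/-- the normalised square norm -/
noncomputable def hs (n : ℕ) (x : Mat n) : ℝ := (n : ℝ)⁻¹ * ∑ i, ∑ j, ‖x i j‖ ^ 2

/-- the normalised 2-norm -/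
noncomputable def nn (n : ℕ) (x : Mat n) : ℝ := Real.sqrt (hs n x)

lemma ntr_star (n : ℕ) (x : Mat n) : ntr n (Star.star x * x) = (hs n x : ℂ) := by
  unfold ntr hs
  rw [Matrix.trace]
  have e : ∑ i, Matrix.diag (Star.star x * x) i = ((∑ i, ∑ j, ‖x i j‖ ^ 2 : ℝ) : ℂ) := by
    rw [Finset.sum_comm]
    push_cast
    refine Finset.sum_congr rfl fun i _ => ?_
    rw [Matrix.diag_apply, Matrix.mul_apply]
    refine Finset.sum_congr rfl fun j _ => ?_
    rw [Matrix.star_apply, ← Complex.conj_mul']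
    rfl
  rw [e]
  push_cast
  ring

lemma nn_eq (n : ℕ) (x : Mat n) : nn n x =
    Real.sqrt (n : ℝ)⁻¹ * ‖(WithLp.toLp 2 (fun p : Fin n × Fin n => x p.1 p.2) :
      EuclideanSpace ℂ (Fin n × Fin n))‖ := by
  unfold nn hs
  rw [Real.sqrt_mul (by positivity), EuclideanSpace.norm_eq]
  congr 2
  rw [Fintype.sum_prod_type]

lemma nn_add (n : ℕ) (x y : Mat n) : nn n (x + y) ≤ nn n x + nn n y := by
  rw [nn_eq, nn_eq, nn_eq, ← mul_add]
  apply mul_le_mul_of_nonneg_left _ (Real.sqrt_nonneg _)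
  exact norm_add_le (WithLp.toLp 2 (fun p : Fin n × Fin n => x p.1 p.2) : EuclideanSpace ℂ (Fin n × Fin n))
    (WithLp.toLp 2 (fun p : Fin n × Fin n => y p.1 p.2))

lemma nn_neg (n : ℕ) (x y : Mat n) : nn n (x - y) = nn n (y - x) := by
  unfold nn hs
  congr 2
  refine Finset.sum_congr rfl fun i _ => Finset.sum_congr rfl fun j _ => ?_
  rw [Matrix.sub_apply, Matrix.sub_apply, norm_sub_rev]

lemma bd_neg {n : ℕ} {x : Mat n} {C : ℝ} (h : OpBound x C) : OpBound ((-1 : ℂ) • x) C := by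
  intro v
  have := h v
  simpa [Matrix.neg_mulVec] using this

lemma sub_eq' {n : ℕ} (x y : Mat n) : x - y = x + (-1 : ℂ) • y := by
  rw [neg_one_smul, sub_eq_add_neg]

section

variable {U : Ultrafilter ℕ} {Q : Type v} [Ring Q] [StarRing Q] [Algebra ℂ Q] [StarModule ℂ Q]
  {π : (∀ n, Mat n) → Q} {τ : Q → ℂ}

lemma pi_sub (h : IsMatrixUltraproduct U π τ) {x y : ∀ n, Mat n} (hx : NormBounded x)
    (hy : NormBounded y) : NormBounded (fun n => x n - y n) ∧ π (fun n => x n - y n) = π x - π y := by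
  obtain ⟨C, hC⟩ := hx
  obtain ⟨D, hD⟩ := hy
  have h1 : NormBounded (fun n => (-1 : ℂ) • y n) := ⟨D, fun n => bd_neg (hD n)⟩
  have e : (fun n => x n - y n) = fun n => x n + (-1 : ℂ) • y n := by
    funext n
    exact sub_eq' _ _
  rw [e]
  refine ⟨⟨2 * (|C| + |D|), fun n => (hC n).add (bd_neg (hD n))⟩, ?_⟩
  rw [h.add x _ ⟨C, hC⟩ h1, h.smul (-1) y ⟨D, hD⟩, neg_one_smul, sub_eq_add_neg]

lemma lim2 (h : IsMatrixUltraproduct U π τ) {w : ∀ n, Mat n} (hw : NormBounded w) :
    Tendsto (fun n => nn n (w n)) U (𝓝 (nrm2 τ (π w))) := by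
  have hs' : NormBounded (fun n => Star.star (w n)) := by
    obtain ⟨C, hC⟩ := hw
    exact ⟨|C|, fun n => (hC n).star'⟩
  have hm : NormBounded (fun n => Star.star (w n) * w n) := by
    obtain ⟨C, hC⟩ := hw
    exact ⟨|C| * C, fun n => ((hC n).star').mul (hC n)⟩
  have h1 := h.trace _ hm
  have h2 : π (fun n => Star.star (w n) * w n) = Star.star (π w) * π w := by
    rw [h.mul _ _ hs' hw, h.star w hw]
  rw [h2] at h1
  simp only [ntr_star] at h1
  have h3 := (Complex.continuous_re.tendsto _).comp h1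
  simp only [Function.comp_def, Complex.ofReal_re] at h3
  unfold nrm2 nn
  exact (Real.continuous_sqrt.tendsto _).comp h3

end

theorem main : S_CPL.{v} := by
  classical
  intro U hU Q _ _ _ _ π τ h q C hq hc
  choose x hxC hx using hq
  have hb : ∀ j, NormBounded (x j) := fun j => ⟨C, hxC j⟩
  -- consecutive lifts are close
  have hB : ∀ j, ∀ᶠ n in (U : Filter ℕ), nn n (x (j + 1) n - x j n) ≤ 2 * (1 / 2) ^ j := by
    intro j
    obtain ⟨h1, h2⟩ := pi_sub h (hb (j + 1)) (hb j)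
    have h3 := lim2 h h1
    rw [h2, hx, hx] at h3
    have h4 : nrm2 τ (q (j + 1) - q j) < 2 * (1 / 2) ^ j := by
      have : (0 : ℝ) < (1 / 2) ^ j := by positivity
      have := hc j
      linarith
    filter_upwards [h3.eventually_lt_const h4] with n hn
    exact hn.le
  have hge : ∀ J : ℕ, ∀ᶠ n in (U : Filter ℕ), J ≤ n := by
    intro J
    have h1 : ∀ᶠ n in (U : Filter ℕ), ∀ k ∈ Finset.range J, n ≠ k := by
      rw [Filter.eventually_all_finset]
      intro k _
      have h2 := hU k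
      have h3 := Ultrafilter.compl_mem_iff_notMem.2 h2
      exact h3
    filter_upwards [h1] with n hn
    by_contra hcon
    exact hn n (Finset.mem_range.2 (by omega)) rfl
  obtain ⟨P, hP⟩ : ∃ P : ℕ → ℕ → Prop, P = fun n m => ∀ j < m, nn n (x (j + 1) n - x j n) ≤ 2 * (1 / 2) ^ j :=
    ⟨_, rfl⟩
  obtain ⟨m, hm⟩ : ∃ m : ℕ → ℕ, m = fun n => Nat.findGreatest (P n) n := ⟨_, rfl⟩
  have hm1 : ∀ n, P n (m n) := by
    intro n
    rw [hm]
    refine Nat.findGreatest_spec (P := P n) (m := 0) (Nat.zero_le n) ?_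
    rw [hP]
    intro j hj
    omega
  have hm2 : ∀ J, ∀ᶠ n in (U : Filter ℕ), J ≤ m n := by
    intro J
    have h1 : ∀ᶠ n in (U : Filter ℕ), ∀ j ∈ Finset.range J, nn n (x (j + 1) n - x j n) ≤ 2 * (1 / 2) ^ j := by
      rw [Filter.eventually_all_finset]
      intro j _
      exact hB j
    filter_upwards [h1, hge J] with n hn hJ
    rw [hm]
    refine Nat.le_findGreatest hJ ?_
    rw [hP]
    intro j hj
    exact hn j (Finset.mem_range.2 hj)
  have hy : NormBounded (fun n => x (m n) n) := ⟨C, fun n => hxC (m n) n⟩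
  refine ⟨π (fun n => x (m n) n), ⟨_, fun n => hxC (m n) n, rfl⟩, ?_⟩
  -- the distances
  have key : ∀ (n j k : ℕ), (∀ i < j + k, nn n (x (i + 1) n - x i n) ≤ 2 * (1 / 2) ^ i) →
      nn n (x j n - x (j + k) n) ≤ 4 * (1 / 2) ^ j - 4 * (1 / 2) ^ (j + k) := by
    intro n j k
    induction k with
    | zero =>
      intro _
      have e : x j n - x (j + 0) n = 0 := sub_self _
      rw [e]
      simp [nn, hs]
    | succ k ih =>
      intro hi
      have h1 := ih (fun i hik => hi i (by omega))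
      have h2 := hi (j + k) (by omega)
      have e : x j n - x (j + (k + 1)) n = (x j n - x (j + k) n) + (x (j + k) n - x (j + k + 1) n) := by
        rw [← add_assoc]
        abel
      rw [e]
      refine (nn_add n _ _).trans ?_
      rw [nn_neg n (x (j + k) n)]
      have e2 : (4 : ℝ) * (1 / 2) ^ (j + (k + 1)) = 2 * (1 / 2) ^ (j + k) := by
        rw [← add_assoc, pow_succ]
        ring
      rw [e2]
      linarith
  have hle : ∀ j, nrm2 τ (q j - π (fun n => x (m n) n)) ≤ 4 * (1 / 2) ^ j := by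
    intro j
    obtain ⟨h1, h2⟩ := pi_sub h (hb j) hy
    have h3 := lim2 h h1
    rw [h2, hx] at h3
    refine le_of_tendsto h3 ?_
    filter_upwards [hm2 j] with n hn
    have h4 := hm1 n
    rw [hP] at h4
    obtain ⟨k, hk⟩ := Nat.exists_eq_add_of_le hn
    have h5 := key n j k (fun i hi => h4 i (by omega))
    rw [← hk] at h5
    have h6 : (0 : ℝ) ≤ 4 * (1 / 2) ^ (m n) := by positivity
    linarith
  have hlim : Tendsto (fun j : ℕ => (4 : ℝ) * (1 / 2) ^ j) atTop (𝓝 0) := by
    have h1 := (tendsto_pow_atTop_nhds_zero_of_lt_one (r := (1 / 2 : ℝ)) (by norm_num) (by norm_num)).const_mul 4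
    rwa [mul_zero] at h1
  exact squeeze_zero (fun j => Real.sqrt_nonneg _) hle hlim

end CPL_

end Pool.Agent.N829.OM
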