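import Pool.Agent.N829.OM.StmF
import Pool.Agent.N52.ST.MLS
import Pool.Agent.N163.ST.KKZ
import Pool.Agent.N286.ST.MON
import Pool.Agent.N776.ST.Conc

/-!
# Project OM (helper829), part CSW (helper690): concentration of the Casimir values under weak
irreducibility
-/

set_option autoImplicit false

namespace Pool.Agent.N829.OM.CSW_

open Matrix Finset
open scoped ComplexOrder
open Pool.Agent.W661.RC Pool.Agent.W683.RC Pool.Agent.N303.KQ Pool.Agent.N52.NH
open Pool.Agent.N52.ST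

noncomputable section

theorem hK : S_KKZ := Pool.Agent.N163.ST.KKZ.main

variable {d : ℕ}

/-- the mass of the pairs of classes whose Casimir values jump by the factor `r` -/
theorem ms_bound (O : Out d) (u : Mt d) (ε r : ℝ) (hu : uᴴ * u = 1) (hr : 1 < r)
    (hN : NearInv O u ε) :
    ms O u (fun κ' κ => r * cc O κ' ≤ cc O κ) ≤ r / (r - 1) * (ε * d) := by
  have h1 := mls hK d O u ε r hu hr hN
  have h3 : 0 < r - 1 := by linarith
  have hr0 : 0 < r := by linarith
  have h2 : (1 - 1 / r) = (r - 1) / r := by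
    field_simp
  rw [h2] at h1
  have h4 : r / (r - 1) * ((r - 1) / r * ms O u (fun κ' κ => r * cc O κ' ≤ cc O κ)) =
      ms O u (fun κ' κ => r * cc O κ' ≤ cc O κ) := by
    field_simp
  rw [← h4]
  exact mul_le_mul_of_nonneg_left h1 (by positivity)

/-- the level projections are moved almost monotonically -/
theorem lvl (O : Out d) (u : Mt d) (ε r t : ℝ) (hu : uᴴ * u = 1) (hr : 1 < r)
    (hN : NearInv O u ε) (hD : (d : ℝ) - D0 O ≤ ε * d) :
    hs ((1 - ZG O t) * u * ZG O (r * t)) ≤ 2 * (r / (r - 1) * (ε * d)) + 2 * (ε * d) := by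
  classical
  obtain ⟨k1, k2, k3, k4, k5, k6⟩ := hK d O
  have zP : ∀ κ, IsPr (zc O κ) := fun κ => (k1 κ).1
  have hG : ∀ s, ZG O s = ∑ κ ∈ @Finset.filter _ (fun κ => s < cc O κ)
      (Classical.decPred _) (cl O), zc O κ := fun s => k4 (fun κ => s < cc O κ)
  have hL : ∀ s, ZL O s = ∑ κ ∈ @Finset.filter _ (fun κ => cc O κ ≤ s)
      (Classical.decPred _) (cl O), zc O κ := fun s => k4 (fun κ => cc O κ ≤ s)
  have pG : IsPr (ZG O (r * t)) := Pool.Agent.N776.ST.Con.zg_pr hK O _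
  have h1 : 1 - ZG O t = ZL O t + (1 - pO O) := by
    rw [← k5 t]
    abel
  rw [h1, Matrix.add_mul, Matrix.add_mul]
  have h2 := hs_add_le (ZL O t * u * ZG O (r * t)) ((1 - pO O) * u * ZG O (r * t))
  have h3 : hs (ZL O t * u * ZG O (r * t)) ≤ r / (r - 1) * (ε * d) := by
    refine le_trans ?_ (ms_bound O u ε r hu hr hN)
    have e1 := Pool.Agent.N286.ST.hs_two (zc O) zP k2
      (@Finset.filter _ (fun κ => cc O κ ≤ t) (Classical.decPred _) (cl O))
      (@Finset.filter _ (fun κ => r * t < cc O κ) (Classical.decPred _) (cl O)) u 1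
      (fun κ => by rw [Matrix.mul_one, Matrix.one_mul])
    simp only [Matrix.mul_one] at e1
    rw [hL, hG, e1]
    unfold ms
    rw [Finset.sum_filter]
    refine sum_le_sum fun κ' _ => ?_
    by_cases h5 : cc O κ' ≤ t
    · rw [if_pos h5, Finset.sum_filter]
      refine sum_le_sum fun κ _ => ?_
      by_cases h6 : r * t < cc O κ
      · have h7 : r * cc O κ' ≤ cc O κ :=
          (mul_le_mul_of_nonneg_left h5 (by linarith)).trans h6.le
        rw [if_pos h6, if_pos h7]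
      · rw [if_neg h6]
        split_ifs
        · exact hs_nonneg _
        · exact le_rfl
    · rw [if_neg h5]
      refine sum_nonneg fun κ _ => ?_
      split_ifs
      · exact hs_nonneg _
      · exact le_rfl
  have h4 : hs ((1 - pO O) * u * ZG O (r * t)) ≤ ε * d := by
    refine (hs_mul_pr_le_self pG _).trans ?_
    rw [hs_mul_unit hu, hs_compl]
    exact hD
  linarith

/-- the commutator with a level projection -/
theorem comm_le (O : Out d) (u : Mt d) (ε r t : ℝ) (hu : uᴴ * u = 1) (hr : 1 < r) (ht : 0 < t)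
    (hN : NearInv O u ε) (hD : (d : ℝ) - D0 O ≤ ε * d) :
    hs (u * ZG O t - ZG O t * u) ≤ 8 * (r / (r - 1) * (ε * d)) + 8 * (ε * d) +
      4 * (tr (ZG O t) - tr (ZG O (r * t))) := by
  have hle : t ≤ r * t := by nlinarith
  have pZ := Pool.Agent.N776.ST.Con.zg_pr hK O t
  have pZ' := Pool.Agent.N776.ST.Con.zg_pr hK O (r * t)
  have hm : ZG O t * ZG O (r * t) = ZG O (r * t) := Pool.Agent.N776.ST.Con.zg_mul hK O hle
  rw [hs_comm_pr' hu pZ]
  have e : (1 - ZG O t) * u * ZG O t =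
      (1 - ZG O t) * u * ZG O (r * t) + (1 - ZG O t) * u * (ZG O t - ZG O (r * t)) := by
    rw [← Matrix.mul_add]
    congr 1
    abel
  rw [e]
  have h1 := hs_add_le ((1 - ZG O t) * u * ZG O (r * t))
    ((1 - ZG O t) * u * (ZG O t - ZG O (r * t)))
  have h2 := lvl O u ε r t hu hr hN hD
  have h3 : hs ((1 - ZG O t) * u * (ZG O t - ZG O (r * t))) ≤
      tr (ZG O t) - tr (ZG O (r * t)) := by
    rw [Matrix.mul_assoc]
    refine (hs_pr_mul_le_self (pr_compl pZ) _).trans ?_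
    rw [hs_unit_mul hu, ← pr_tr_eq_hs (pr_sub pZ' pZ hm), tr_sub]
  linarith

/-- the energy of a level projection -/
theorem en_le {k : ℕ} (O : Out d) (u : Fin k → Mt d) (ε r t : ℝ) (hu : ∀ s, (u s)ᴴ * u s = 1)
    (hr : 1 < r) (ht : 0 < t) (hN : ∀ s, NearInv O (u s) ε) (hD : (d : ℝ) - D0 O ≤ ε * d) :
    Pool.Agent.W661.RC.en u (ZG O t) ≤ k * (8 * (r / (r - 1) * (ε * d)) + 8 * (ε * d) +
      4 * (tr (ZG O t) - tr (ZG O (r * t)))) := by
  refine (sum_le_sum fun s _ => comm_le O (u s) ε r t (hu s) hr ht (hN s) hD).trans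
    (le_of_eq ?_)
  rw [sum_const, card_univ, Fintype.card_fin, nsmul_eq_mul]

/-- a step with a small drop -/
theorem pig (φ : ℝ → ℝ) (a r D : ℝ) (N : ℕ) (hN : 0 < N) (h : φ a - φ (a * r ^ N) ≤ D) :
    ∃ j < N, φ (a * r ^ j) - φ (a * r ^ (j + 1)) ≤ D / N := by
  by_contra hc
  push Not at hc
  have hN0 : (0 : ℝ) < N := by exact_mod_cast hN
  have h1 : ∑ j ∈ range N, (D / N) <
      ∑ j ∈ range N, (φ (a * r ^ j) - φ (a * r ^ (j + 1))) :=
    sum_lt_sum_of_nonempty (nonempty_range_iff.2 hN.ne') fun j hj => hc j (mem_range.1 hj)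
  rw [sum_range_sub' (fun j => φ (a * r ^ j)), sum_const, card_range, nsmul_eq_mul, pow_zero,
    mul_one] at h1
  have h2 : (N : ℝ) * (D / N) = D := by field_simp
  linarith

/-- a projection close to a scalar -/
theorem scal (Z : Mt d) (hZ : IsPr Z) (c : ℂ) (B : ℝ) (h : hs (Z - c • (1 : Mt d)) ≤ B) :
    tr Z ≤ 2 * B ∨ (d : ℝ) - tr Z ≤ 2 * B := by
  have h1 := hs_pyth_left hZ (Z - c • (1 : Mt d))
  have e1 : Z * (Z - c • (1 : Mt d)) = (1 - c) • Z := by
    rw [Matrix.mul_sub, hZ.2, Matrix.mul_smul, Matrix.mul_one, sub_smul, one_smul]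
  have e2 : (1 - Z) * (Z - c • (1 : Mt d)) = (-c) • (1 - Z) := by
    rw [Matrix.mul_sub, Matrix.sub_mul, Matrix.one_mul, hZ.2, sub_self, Matrix.mul_smul,
      Matrix.mul_one, zero_sub, neg_smul]
  have hτ := pr_tr_nonneg hZ
  have hτ' := pr_tr_nonneg (pr_compl hZ)
  rw [e1, e2, hs_smul, hs_smul, ← pr_tr_eq_hs hZ, ← pr_tr_eq_hs (pr_compl hZ), tr_sub, tr_one,
    norm_neg] at h1
  rw [tr_sub, tr_one] at hτ'
  have h2 : 1 ≤ ‖1 - c‖ + ‖c‖ := by
    have := norm_add_le (1 - c) c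
    simpa using this
  have h3 : 1 ≤ 2 * (‖1 - c‖ ^ 2 + ‖c‖ ^ 2) := by
    nlinarith [sq_nonneg (‖1 - c‖ - ‖c‖), norm_nonneg (1 - c), norm_nonneg c]
  have hx := sq_nonneg ‖1 - c‖
  have hy := sq_nonneg ‖c‖
  rcases le_total (tr Z) ((d : ℝ) - tr Z) with h4 | h4
  · left
    have h5 := mul_le_mul_of_nonneg_left h4 hy
    have h6 := mul_le_mul_of_nonneg_left h3 hτ
    nlinarith
  · right
    have h5 := mul_le_mul_of_nonneg_left h4 hx
    have h6 := mul_le_mul_of_nonneg_left h3 hτ'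
    nlinarith

theorem tr_anti (O : Out d) {t t' : ℝ} (h : t ≤ t') : tr (ZG O t') ≤ tr (ZG O t) :=
  Le_tr (Pool.Agent.N776.ST.Con.zg_le hK O h)

theorem tr_le (O : Out d) (t : ℝ) : tr (ZG O t) ≤ d := by
  have h := Le_tr (pr_le_one (Pool.Agent.N776.ST.Con.zg_pr hK O t))
  rwa [tr_one] at h

theorem tr_nn (O : Out d) (t : ℝ) : 0 ≤ tr (ZG O t) :=
  pr_tr_nonneg (Pool.Agent.N776.ST.Con.zg_pr hK O t)

end

end Pool.Agent.N829.OM.CSW_

namespace Pool.Agent.N829.OM

open Matrix Finset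
open scoped ComplexOrder
open Pool.Agent.W661.RC Pool.Agent.W683.RC Pool.Agent.N303.KQ Pool.Agent.N52.NH
open Pool.Agent.N52.ST CSW_

theorem main : S_CSW := by
  intro ρ q hρ hq
  have hmin : 0 < min ρ 1 := lt_min hρ one_pos
  have hq0 : 0 < q := by linarith
  refine ⟨min ρ 1 / 16, by positivity, ?_⟩
  set κ : ℝ := min ρ 1 / 16 with hκ
  have hκρ : 16 * κ ≤ ρ := by
    have := min_le_left ρ 1
    rw [hκ]; linarith
  have hκ1 : 16 * κ ≤ 1 := by
    have := min_le_right ρ 1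
    rw [hκ]; linarith
  have hκ0 : 0 < κ := by positivity
  intro k δ hδ
  obtain ⟨N, hN⟩ := exists_nat_gt (8 * k / δ)
  have hN0 : (0 : ℝ) < N := lt_of_le_of_lt (by positivity) hN
  have hN1 : 0 < N := by exact_mod_cast hN0
  have hr : 1 < q ^ ((N : ℝ)⁻¹) := Real.one_lt_rpow hq (by positivity)
  set r : ℝ := q ^ ((N : ℝ)⁻¹) with hrd
  have hrN : r ^ N = q := by
    rw [hrd, ← Real.rpow_natCast, ← Real.rpow_mul hq0.le, inv_mul_cancel₀ hN0.ne', Real.rpow_one]
  have hr1 : 0 < r - 1 := by linarith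
  have hr0 : 0 < r := by linarith
  set A : ℝ := 16 * k * (r / (r - 1) + 1) + 1 with hA
  have hA0 : 0 < A := by positivity
  refine ⟨min (1 / 2) (δ / A), by positivity, ?_⟩
  set ε : ℝ := min (1 / 2) (δ / A) with hε
  have hε0 : 0 < ε := by positivity
  have hε2 : ε ≤ 1 / 2 := min_le_left _ _
  have hεA : A * ε ≤ δ := by
    have h1 : ε ≤ δ / A := min_le_right _ _
    rw [le_div_iff₀ hA0] at h1
    linarith
  intro d O u hd hu hNI hD hL
  have hd0 : (0 : ℝ) < d := by exact_mod_cast hd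
  have key : ∀ a : ℝ, 0 < a → ∃ s, a ≤ s ∧ s ≤ q * a ∧
      (tr (ZG O s) ≤ 2 * (κ * d) ∨ (d : ℝ) - tr (ZG O s) ≤ 2 * (κ * d)) := by
    intro a ha
    obtain ⟨j, hj, hdrop⟩ := pig (fun t => tr (ZG O t)) a r d N hN1 (by
      have h1 := tr_le O a
      have h2 := tr_nn O (a * r ^ N)
      linarith)
    refine ⟨a * r ^ j, le_mul_of_one_le_right ha.le (one_le_pow₀ hr.le), ?_, ?_⟩
    · rw [mul_comm q a, ← hrN]
      exact mul_le_mul_of_nonneg_left (pow_le_pow_right₀ hr.le hj.le) ha.le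
    · have ht : 0 < a * r ^ j := by positivity
      have e1 : r * (a * r ^ j) = a * r ^ (j + 1) := by ring
      have h1 := en_le O u ε r (a * r ^ j) hu hr ht hNI hD
      rw [e1] at h1
      have h2 : (k : ℝ) * (8 * (r / (r - 1) * (ε * d)) + 8 * (ε * d) +
          4 * (tr (ZG O (a * r ^ j)) - tr (ZG O (a * r ^ (j + 1))))) ≤ δ * d := by
        have hk : (0 : ℝ) ≤ k := Nat.cast_nonneg k
        have h3 := mul_le_mul_of_nonneg_left hdrop hk
        have h4 : (k : ℝ) * (d / N) ≤ δ / 8 * d := by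
          rw [div_lt_iff₀ hδ] at hN
          have h5 : (k : ℝ) / N ≤ δ / 8 := by
            rw [div_le_iff₀ hN0]
            linarith
          calc (k : ℝ) * (d / N) = k / N * d := by ring
            _ ≤ δ / 8 * d := mul_le_mul_of_nonneg_right h5 hd0.le
        have h6 : (k : ℝ) * (8 * (r / (r - 1) * (ε * d)) + 8 * (ε * d)) ≤ δ / 2 * d := by
          have h7 : (k : ℝ) * (8 * (r / (r - 1) * (ε * d)) + 8 * (ε * d)) =
              (A - 1) * ε / 2 * d := by
            rw [hA]; ring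
          rw [h7]
          refine mul_le_mul_of_nonneg_right ?_ hd0.le
          linarith
        have h8 : (k : ℝ) * (8 * (r / (r - 1) * (ε * d)) + 8 * (ε * d) +
            4 * (tr (ZG O (a * r ^ j)) - tr (ZG O (a * r ^ (j + 1))))) =
            (k : ℝ) * (8 * (r / (r - 1) * (ε * d)) + 8 * (ε * d)) +
            4 * ((k : ℝ) * (tr (ZG O (a * r ^ j)) - tr (ZG O (a * r ^ (j + 1))))) := by
          ring
        rw [h8]
        linarith
      obtain ⟨c, hc⟩ := hL (a * r ^ j) ht (h1.trans h2)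
      exact scal _ (Pool.Agent.N776.ST.Con.zg_pr hK O _) c _ hc
  obtain ⟨t0, ht0, hZ0⟩ := Pool.Agent.N776.ST.Con.zg_small O
  obtain ⟨T, hT⟩ := Pool.Agent.N776.ST.Con.zg_large O
  set a0 : ℝ := t0 / q with ha0
  have ha0p : 0 < a0 := by positivity
  choose s hs1 hs2 hs3 using fun n : ℕ => key (q ^ n * a0) (by positivity)
  have hex : ∃ n, tr (ZG O (s n)) ≤ 2 * (κ * d) := by
    obtain ⟨n, hn⟩ := pow_unbounded_of_one_lt (T / a0) hq
    refine ⟨n, ?_⟩
    rw [div_lt_iff₀ ha0p] at hn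
    have h1 := tr_anti O (hn.le.trans (hs1 n))
    rw [hT, tr_zero] at h1
    have : 0 ≤ 2 * (κ * d) := by positivity
    linarith
  classical
  obtain ⟨n, hn, hmin'⟩ : ∃ n, tr (ZG O (s n)) ≤ 2 * (κ * d) ∧
      ∀ n' < n, ¬ tr (ZG O (s n')) ≤ 2 * (κ * d) :=
    ⟨Nat.find hex, Nat.find_spec hex, fun n' h => Nat.find_min hex h⟩
  have hD0 : tr (pO O) = D0 O := tr_pO
  rcases n with _ | n
  · exfalso
    have h1 := hs2 0
    have e1 : q * (q ^ 0 * a0) = t0 := by
      rw [ha0, pow_zero, one_mul]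
      field_simp
    rw [e1] at h1
    have h2 := tr_anti O h1
    rw [hZ0, hD0] at h2
    have h3 : ε * d ≤ 1 / 2 * d := mul_le_mul_of_nonneg_right hε2 hd0.le
    have h4 : 16 * κ * d ≤ 1 * d := mul_le_mul_of_nonneg_right hκ1 hd0.le
    linarith
  · have h1 := hmin' n (Nat.lt_succ_self n)
    have h2 : (d : ℝ) - tr (ZG O (s n)) ≤ 2 * (κ * d) := (hs3 n).resolve_left h1
    refine ⟨q ^ (n + 1) * a0, by positivity, ?_⟩
    have h3 := tr_anti O (hs2 (n + 1))
    have e1 : q ^ (n + 1) * a0 / q = q ^ n * a0 := by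
      rw [pow_succ]
      field_simp
    have h4 := tr_anti O (hs1 n)
    have h5 := (hK d O).2.2.2.2.1 (q ^ n * a0)
    have h6 : tr (ZG O (q ^ n * a0)) + tr (ZL O (q ^ n * a0)) = D0 O := by
      rw [← tr_add, h5, hD0]
    have h7 : D0 O ≤ d := D0_le
    rw [e1]
    have h8 : 16 * κ * d ≤ ρ * d := mul_le_mul_of_nonneg_right hκρ hd0.le
    have h9 : 0 < κ * d := by positivity
    linarith

end Pool.Agent.N829.OM
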