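import Pool.Agent.N829.OM.StmV
import Pool.Agent.N564.OM_EMB
import Pool.Agent.N277.OM_MUB
import Pool.Agent.N477.OM.Tr

/-!
# Project OM: extension of a trace preserving representation to `L(P)` (worker: helper477)

The theorem is known for one model of the matrix ultraproduct (helper564, helper277); all models
are isomorphic.
-/

set_option autoImplicit false

namespace Pool.Agent.N829.OM.EXT_

open Pool.Agent.Helper278 (Mat IsMatrixUltraproduct Elt)
open Pool.Agent.Helper436.SN (LG trL)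
open Pool.Agent.N477.OM

universe v

theorem ext : S_EXT.{v} := by
  intro P _ U hU Q _ _ _ _ π τ hπ f hf
  obtain ⟨Q0, _, _, _, _, π0, τ0, h0⟩ := matUltraExists' U
  let d : Q →⋆ₐ[ℂ] Q0 := trHom hπ h0
  let e : Q0 →⋆ₐ[ℂ] Q := trHom h0 hπ
  let q : P →* Q0 :=
    { toFun := fun g => d (f g)
      map_one' := by rw [hf.one, map_one]
      map_mul' := fun g h => by rw [hf.mul, map_mul] }
  have hqs : ∀ g, star (q g) = q g⁻¹ := by
    intro g
    show star (d (f g)) = d (f g⁻¹)
    rw [← map_star, hf.star]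
  have hq0 : ∀ g, g ≠ 1 → τ0 (q g) = 0 := by
    intro g hg
    show τ0 (d (f g)) = 0
    rw [trace_trHom hπ h0, hf.tr g hg]
  obtain ⟨θ, hθ⟩ := Pool.Agent.N564.OMEMB.main Pool.Agent.N277.OM_MUB.main U hU Q0 π0 τ0 h0 P q
    hqs hq0
  refine ⟨e.comp θ, fun x => ?_⟩
  show τ (e (θ x)) = _
  rw [trace_trHom h0 hπ, hθ]

theorem main (_h1 : S_BLIFT.{v}) (_h2 : S_CPL.{v}) : S_EXT.{v} := ext

end Pool.Agent.N829.OM.EXT_
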