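import Pool.Agent.N829.OM.StmG
import Mathlib.FieldTheory.Finite.Basic
import Mathlib.Algebra.Group.UniqueProds.Basic
import Mathlib.Algebra.MonoidAlgebra.NoZeroDivisors
import Mathlib.LinearAlgebra.Matrix.Transvection

/-!
# Project OM, part FCM: matrices which commute with a subgroup of finite index
-/

set_option autoImplicit false

namespace Pool.Agent.N829.OM

open Matrix Monoid
open Pool.Agent.N44.NS (E3 el)

namespace FCM_

instance fact257 : Fact (Nat.Prime 257) := ⟨by norm_num⟩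

/-- The elements of the elementary group have determinant one. -/
theorem det_one {R : Type} [CommRing R] (g : (Matrix (Fin 3) (Fin 3) R)ˣ) (hg : g ∈ E3 R) :
    (g : Matrix (Fin 3) (Fin 3) R).det = 1 := by
  have h : E3 R ≤ (Units.map (Matrix.detMonoidHom : Matrix (Fin 3) (Fin 3) R →* R)).ker := by
    refine (Subgroup.closure_le _).2 ?_
    rintro _ ⟨i, j, h, a, rfl⟩
    show Units.map (Matrix.detMonoidHom : Matrix (Fin 3) (Fin 3) R →* R) (el i j h a) = 1
    apply Units.ext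
    rw [Units.coe_map, Units.val_one]
    exact Matrix.det_transvection_of_ne i j h a
  have h1 : Units.map (Matrix.detMonoidHom : Matrix (Fin 3) (Fin 3) R →* R) g = 1 := h hg
  have h2 := congrArg (fun u : Rˣ => (u : R)) h1
  exact h2

theorem no_root (x : ZMod 257) : x ^ 2 + x + 1 ≠ 0 := by
  intro h
  have h0 : x ≠ 0 := by
    rintro rfl
    norm_num at h
  have h3 : x ^ 3 = 1 := by linear_combination (x - 1) * h
  have h256 : x ^ 256 = 1 := ZMod.pow_card_sub_one_eq_one h0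
  have h1 : x = 1 := by
    have e : x ^ 256 = (x ^ 3) ^ 85 * x := by ring
    rw [e, h3, one_pow, one_mul] at h256
    exact h256
  rw [h1] at h
  revert h
  decide

/-- A matrix which commutes with a nonzero multiple of a matrix unit. -/
theorem comm_single {R : Type} [CommRing R] [NoZeroDivisors R] {i j : Fin 3} {c : R} (hc : c ≠ 0)
    (M : Matrix (Fin 3) (Fin 3) R) (h : Matrix.single i j c * M = M * Matrix.single i j c) :
    M i i = M j j ∧ ∀ k, k ≠ i → M k i = 0 := by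
  refine ⟨?_, fun k hk => ?_⟩
  · have h1 := congrFun (congrFun h i) j
    rw [Matrix.single_mul_apply_same, Matrix.mul_single_apply_same, mul_comm] at h1
    exact (mul_right_cancel₀ hc h1).symm
  · have h1 := congrFun (congrFun h k) j
    rw [Matrix.single_mul_apply_of_ne _ _ _ _ _ hk, Matrix.mul_single_apply_same] at h1
    exact (mul_eq_zero.1 h1.symm).resolve_right hc

/-- The elementary matrix with the entry `X ^ n`. -/
noncomputable def xn (i j : Fin 3) (h : i ≠ j) (n : ℤ) : LZ :=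
  ⟨el i j h (AddMonoidAlgebra.single n 1), Subgroup.subset_closure ⟨i, j, h, _, rfl⟩⟩

theorem jm_xn (i j : Fin 3) (h : i ≠ j) (n : ℤ) :
    ((jm 1 (xn i j h n) : NQ) : (Matrix (Fin 3) (Fin 3) (A ℚ))ˣ) =
      el i j h (AddMonoidAlgebra.single (n : ℚ) 1) := by
  have h1 : ((jm 1 (xn i j h n) : NQ) : (Matrix (Fin 3) (Fin 3) (A ℚ))ˣ) =
      um (AddMonoidAlgebra.mapDomainRingHom (ZMod 257)
        ((AddMonoidHom.mulLeft ((1 : ℤ) : ℚ)).comp (Int.castAddHom ℚ)))
        (el i j h (AddMonoidAlgebra.single n 1)) := rfl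
  rw [h1, um_el]
  congr 1
  have h2 : AddMonoidAlgebra.mapDomainRingHom (ZMod 257)
      ((AddMonoidHom.mulLeft ((1 : ℤ) : ℚ)).comp (Int.castAddHom ℚ))
      (AddMonoidAlgebra.single n 1) =
      AddMonoidAlgebra.mapDomain ((AddMonoidHom.mulLeft ((1 : ℤ) : ℚ)).comp (Int.castAddHom ℚ))
        (AddMonoidAlgebra.single n 1) := rfl
  rw [h2, AddMonoidAlgebra.mapDomain_single]
  congr 1
  simp

theorem single_sub' {R : Type} [Ring R] (i j : Fin 3) (a b : R) :
    Matrix.single i j (a - b) = Matrix.single i j a - Matrix.single i j b := by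
  refine Matrix.ext fun p q => ?_
  rw [Matrix.sub_apply, Matrix.single_apply, Matrix.single_apply, Matrix.single_apply]
  split_ifs
  · rfl
  · rw [sub_zero]

theorem key (g : NQ) (hg : (Set.range fun m : LZ => jm 1 m * g * (jm 1 m)⁻¹).Finite)
    (i j : Fin 3) (h : i ≠ j) : ∃ c : A ℚ, c ≠ 0 ∧
      Matrix.single i j c * ((g : (Matrix (Fin 3) (Fin 3) (A ℚ))ˣ) : Matrix (Fin 3) (Fin 3) (A ℚ)) =
      ((g : (Matrix (Fin 3) (Fin 3) (A ℚ))ˣ) : Matrix (Fin 3) (Fin 3) (A ℚ)) *
        Matrix.single i j c := by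
  have := hg.to_subtype
  obtain ⟨n, n', hne, he⟩ := Finite.exists_ne_map_eq_of_infinite
    (fun n : ℤ => (⟨jm 1 (xn i j h n) * g * (jm 1 (xn i j h n))⁻¹, ⟨xn i j h n, rfl⟩⟩ :
      Set.range fun m : LZ => jm 1 m * g * (jm 1 m)⁻¹))
  have he1 : jm 1 (xn i j h n) * g * (jm 1 (xn i j h n))⁻¹ =
      jm 1 (xn i j h n') * g * (jm 1 (xn i j h n'))⁻¹ := congrArg Subtype.val he
  have he2 : (jm 1 (xn i j h n'))⁻¹ * jm 1 (xn i j h n) * g =
      g * ((jm 1 (xn i j h n'))⁻¹ * jm 1 (xn i j h n)) := by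
    have h3 := congrArg (fun x => (jm 1 (xn i j h n'))⁻¹ * x * jm 1 (xn i j h n)) he1
    simp only [mul_assoc, inv_mul_cancel, mul_one, inv_mul_cancel_left] at h3
    rw [mul_assoc]
    exact h3
  have he3 := congrArg (fun x : NQ => ((x : (Matrix (Fin 3) (Fin 3) (A ℚ))ˣ) :
    Matrix (Fin 3) (Fin 3) (A ℚ))) he2
  simp only [Subgroup.coe_mul, Subgroup.coe_inv, Units.val_mul, jm_xn] at he3
  have hv : (((el i j h (AddMonoidAlgebra.single (n' : ℚ) 1 : A ℚ))⁻¹ :
      (Matrix (Fin 3) (Fin 3) (A ℚ))ˣ) : Matrix (Fin 3) (Fin 3) (A ℚ)) *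
      ((el i j h (AddMonoidAlgebra.single (n : ℚ) 1 : A ℚ) : (Matrix (Fin 3) (Fin 3) (A ℚ))ˣ) :
        Matrix (Fin 3) (Fin 3) (A ℚ)) =
      1 + Matrix.single i j (AddMonoidAlgebra.single (n : ℚ) 1 -
        AddMonoidAlgebra.single (n' : ℚ) 1) := by
    show (1 - Matrix.single i j _) * (1 + Matrix.single i j _) = _
    rw [sub_mul, mul_add, mul_add, Pool.Agent.N44.NS.single_sq h, single_sub']
    simp only [one_mul, mul_one]
    abel
  rw [hv] at he3
  refine ⟨AddMonoidAlgebra.single (n : ℚ) 1 - AddMonoidAlgebra.single (n' : ℚ) 1, ?_, ?_⟩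
  · rw [sub_ne_zero]
    intro h5
    have h6 := AddMonoidAlgebra.single_left_injective (one_ne_zero : (1 : ZMod 257) ≠ 0) h5
    exact hne (by exact_mod_cast h6)
  · rw [add_mul, mul_add, one_mul, mul_one] at he3
    exact add_left_cancel he3

end FCM_

open FCM_ in
/-- **FCM.** -/
theorem FCM_.main : S_FCM := by
  intro g hg
  obtain ⟨M, hM⟩ : ∃ M : Matrix (Fin 3) (Fin 3) (A ℚ),
    M = ((g : (Matrix (Fin 3) (Fin 3) (A ℚ))ˣ) : Matrix (Fin 3) (Fin 3) (A ℚ)) := ⟨_, rfl⟩
  have h1 : ∀ i j : Fin 3, i ≠ j → M i i = M j j ∧ ∀ k, k ≠ i → M k i = 0 := by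
    intro i j h
    obtain ⟨c, hc, h2⟩ := key g hg i j h
    rw [← hM] at h2
    exact comm_single hc M h2
  have hd : M = M 0 0 • (1 : Matrix (Fin 3) (Fin 3) (A ℚ)) := by
    refine Matrix.ext fun p q => ?_
    rw [Matrix.smul_apply, Matrix.one_apply, smul_eq_mul]
    by_cases hpq : p = q
    · subst hpq
      rw [if_pos rfl, mul_one]
      by_cases hp : (0 : Fin 3) = p
      · rw [← hp]
      · exact ((h1 0 p hp).1).symm
    · rw [if_neg hpq, mul_zero]
      exact (h1 q p (fun h => hpq h.symm)).2 p hpq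
  have hdet := det_one (g : (Matrix (Fin 3) (Fin 3) (A ℚ))ˣ) g.2
  rw [← hM, hd, Matrix.det_smul, Matrix.det_one, mul_one, Fintype.card_fin] at hdet
  obtain ⟨d, hdd⟩ : ∃ d, d = M 0 0 := ⟨_, rfl⟩
  rw [← hdd] at hdet hd
  have h3 : (d - 1) * (d ^ 2 + d + 1) = 0 := by linear_combination hdet
  rcases mul_eq_zero.1 h3 with h4 | h4
  · have h5 : d = 1 := sub_eq_zero.1 h4
    apply Subtype.ext
    apply Units.ext
    rw [← hM, hd, h5, one_smul]
    rfl
  · exfalso
    let φ : A ℚ →ₐ[ZMod 257] ZMod 257 := AddMonoidAlgebra.lift (ZMod 257) (ZMod 257) ℚ 1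
    have h5 := congrArg φ h4
    rw [map_add, map_add, map_pow, map_one, map_zero] at h5
    exact no_root _ h5

end Pool.Agent.N829.OM
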