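import Pool.Agent.N829.OM.StmF
import Pool.Agent.N52.ST.FM
import Pool.Agent.N163.ST.KKZ

/-!
# Project OM: the finite form for groups, weak version
-/

set_option autoImplicit false

namespace Pool.Agent.N829.OM.FMW_

open Matrix Finset
open scoped ComplexOrder
open Pool.Agent.W661.RC Pool.Agent.W683.RC Pool.Agent.N303.KQ Pool.Agent.N52.NH
open Pool.Agent.N52.NH.MAINH (hs_word)
open Pool.Agent.N52.ST Pool.Agent.N829.OM

noncomputable section

theorem ZG_facts {d : ℕ} (O : Out d) (t : ℝ) :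
    IsPr (ZG O t) ∧ ZG O t ∈ O.alg ∧ ∀ a ∈ O.alg, ZG O t * a = a * ZG O t := by
  classical
  have h1 : ZG O t = Pool.Agent.N163.ST.KKZ.PP O (univ.filter fun i => t < cc O (O.c i)) :=
    Pool.Agent.N163.ST.KKZ.ZT_eq (O := O) (fun i => t < cc O (O.c i))
      (univ.filter fun i => t < cc O (O.c i)) (by simp)
  rw [h1]
  refine ⟨Pool.Agent.N163.ST.KKZ.PP_pr _, Pool.Agent.N163.ST.KKZ.PP_mem _,
    Pool.Agent.N163.ST.KKZ.PP_comm _ fun i j h hi => ?_⟩
  simp only [mem_filter, mem_univ, true_and] at hi ⊢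
  rw [← h]
  exact hi

theorem pr_contr {d : ℕ} {Z : Mt d} (hZ : IsPr Z) : Le (Zᴴ * Z) 1 := by
  have h1 : Zᴴ * Z = Z := by rw [hZ.1, hZ.2]
  rw [h1]
  have h2 : (1 - Z) = (1 - Z)ᴴ * (1 - Z) := by
    rw [Matrix.conjTranspose_sub, Matrix.conjTranspose_one, hZ.1, Matrix.sub_mul, Matrix.mul_sub,
      Matrix.mul_sub, hZ.2]
    simp
  show (1 - Z).PosSemidef
  rw [h2]
  exact Matrix.posSemidef_conjTranspose_mul_self _

theorem main (h : S_CORW) : S_FMW := by
  classical
  intro G _ K hTK hcl n γ hγ g hg x hx ε hε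
  -- generators
  obtain ⟨m, v, s0, hv0, hvM, hvs⟩ := gens γ hγ _ hcl g hg
  obtain ⟨l, γK, hγK⟩ := exists_free hTK
  choose a ha using fun s : Fin m => hγ (v s)
  choose b hb using fun t : Fin l => hγ ((γK (FreeGroup.of t) : K) : G)
  have hla : ∀ w : FreeGroup (Fin m), γ (FreeGroup.lift a w) = FreeGroup.lift v w := by
    intro w
    have h1 : γ.comp (FreeGroup.lift a) = FreeGroup.lift v := by
      apply FreeGroup.ext_hom
      intro j
      simp [ha]
    exact congrFun (congrArg DFunLike.coe h1) w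
  have hlb : ∀ w : FreeGroup (Fin l), γ (FreeGroup.lift b w) = ((γK w : K) : G) := by
    intro w
    have h1 : γ.comp (FreeGroup.lift b) = K.subtype.comp γK := by
      apply FreeGroup.ext_hom
      intro j
      simp [hb]
    exact congrFun (congrArg DFunLike.coe h1) w
  -- words
  have hw : ∀ (s : Fin m) (t : Fin l), ∃ w : FreeGroup (Fin l),
      ((γK (FreeGroup.of t) : K) : G) * v s = v s * ((γK w : K) : G) := by
    intro s t
    obtain ⟨w, hw⟩ := hγK ⟨_, hvM s _ (γK (FreeGroup.of t)).2⟩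
    refine ⟨w, ?_⟩
    rw [hw]
    group
  choose w hw using hw
  choose y hy using fun s : Fin n => hvs (γ (FreeGroup.of s))
  obtain ⟨z, hz⟩ := hγK ⟨_, hx⟩
  have hz' : γ x * g = g * ((γK z : K) : G) := by rw [hz]; group
  choose L hL0 hL using fun s t => comm_word (w s t)
  choose L' hL0' hL' using fun s => comm_word (y s)
  obtain ⟨Lz, hLz0, hLz⟩ := comm_word z
  -- constants
  obtain ⟨Kk, hKk, hBk⟩ := Pool.Agent.N52.NH.BLK.main K l γK hTK hγK
  obtain ⟨κ, hκ, hcore⟩ := h (ε / 1000) (by positivity)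
  refine ⟨κ, 4 * (Kk * l), univ.image b, hκ, ?_, fun η hη => ?_⟩
  · intro r hr
    obtain ⟨t, _, rfl⟩ := mem_image.1 hr
    rw [hb]
    exact (γK (FreeGroup.of t)).2
  set Ls : ℝ := ∑ s, L' s with hLs
  have hLs0 : 0 ≤ Ls := sum_nonneg fun s _ => hL0' s
  set δ₀ : ℝ := η / (100 * (1 + Ls)) with hδ₀
  have hδ₀p : 0 < δ₀ := by rw [hδ₀]; positivity
  have hδ₀e : ∀ s, L' s * δ₀ ≤ η / 100 := by
    intro s
    have h1 : L' s ≤ 1 + Ls := by
      have := single_le_sum (f := L') (fun i _ => hL0' i) (mem_univ s)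
      linarith
    calc L' s * δ₀ ≤ (1 + Ls) * δ₀ := mul_le_mul_of_nonneg_right h1 hδ₀p.le
      _ = η / 100 := by rw [hδ₀]; field_simp
  obtain ⟨εc, hεc, hcore⟩ := hcore m δ₀ hδ₀p
  set M : ℝ := Kk * (∑ s, ∑ t, (2 * L s t + 8)) + Kk * l + Lz + 1 with hM
  have hM1 : 0 ≤ Kk * (∑ s, ∑ t, (2 * L s t + 8)) :=
    mul_nonneg hKk.le (sum_nonneg fun s _ => sum_nonneg fun t _ => by linarith [hL0 s t])
  have hM3 : 0 ≤ Kk * l := by positivity
  have hMp : 1 ≤ M := by rw [hM]; linarith
  set e : ℝ := min (min εc ε) η / (1000 * M) with he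
  have hmin : 0 < min (min εc ε) η := lt_min (lt_min hεc hε) hη
  have hep : 0 < e := by rw [he]; positivity
  have hMe : 1000 * (M * e) = min (min εc ε) η := by rw [he]; field_simp
  have hMe1 : M * e ≤ εc := by
    have := (min_le_left (min εc ε) η).trans (min_le_left εc ε)
    have h2 : 0 ≤ M * e := by positivity
    linarith
  have hMe2 : M * e ≤ ε / 1000 := by
    have := (min_le_left (min εc ε) η).trans (min_le_right εc ε)
    linarith
  have hMe3 : M * e ≤ η / 1000 := by
    have := min_le_right (min εc ε) η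
    linarith
  have heM : e ≤ M * e := by nlinarith
  obtain ⟨Rk, δk, hRk, hδk, hBk⟩ := hBk e hep
  set δ : ℝ := min e δk with hδ
  have hδp : 0 < δ := lt_min hep hδk
  have hδe : δ ≤ e := min_le_left _ _
  have hδk' : δ ≤ δk := min_le_right _ _
  -- the words
  set R2 : Finset (FreeGroup (Fin n)) := Rk.image (FreeGroup.lift b) with hR2
  set R3 : Finset (FreeGroup (Fin n)) := univ.image (fun q : Fin m × Fin l =>
    b q.2 * a q.1 * (a q.1 * FreeGroup.lift b (w q.1 q.2))⁻¹) with hR3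
  set R4 : Finset (FreeGroup (Fin n)) := univ.image (fun s : Fin n =>
    FreeGroup.of s * (FreeGroup.lift a (y s))⁻¹) with hR4
  set R5 : Finset (FreeGroup (Fin n)) := {x * a s0 * (a s0 * FreeGroup.lift b z)⁻¹} with hR5
  refine ⟨δ, R2 ∪ R3 ∪ R4 ∪ R5, hδp, ?_, ?_⟩
  · intro r hr
    simp only [mem_union] at hr
    rcases hr with ((hr | hr) | hr) | hr
    · obtain ⟨w1, hw1, rfl⟩ := mem_image.1 hr
      rw [hlb, hRk w1 hw1]; rfl
    · obtain ⟨⟨s, t⟩, _, rfl⟩ := mem_image.1 hr
      simp only [map_mul, map_inv, hlb, ha, hb]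
      rw [hw s t]
      group
    · obtain ⟨s, _, rfl⟩ := mem_image.1 hr
      simp only [map_mul, map_inv, hla, hy]
      group
    · rw [hR5, mem_singleton] at hr
      subst hr
      simp only [map_mul, map_inv, hlb, ha, hv0]
      rw [hz']
      group
  intro d U hd hR
  have hd0 : (0 : ℝ) < d := by exact_mod_cast hd
  set U2 : Fin m → unitaryGroup (Fin d) ℂ := fun s => FreeGroup.lift U (a s) with hU2
  set UK : Fin l → unitaryGroup (Fin d) ℂ := fun t => FreeGroup.lift U (b t) with hUK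
  have hU2l : ∀ w1, FreeGroup.lift U2 w1 = FreeGroup.lift U (FreeGroup.lift a w1) :=
    fun w1 => lift_lift' U a w1
  have hUKl : ∀ w1, FreeGroup.lift UK w1 = FreeGroup.lift U (FreeGroup.lift b w1) :=
    fun w1 => lift_lift' U b w1
  have hun : ∀ u : unitaryGroup (Fin d) ℂ, (u.1)ᴴ * u.1 = 1 := un_conj
  obtain ⟨O, hO⟩ := hBk d UK hd (by
    intro w1 hw1
    rw [hUKl]
    refine (hR _ ?_).trans (mul_le_mul_of_nonneg_right hδk' hd0.le)
    simp only [mem_union]
    exact Or.inl (Or.inl (Or.inl (mem_image_of_mem _ hw1))))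
  have hrel3 : ∀ s t, hs ((UK t).1 * (U2 s).1 - (U2 s).1 * (FreeGroup.lift UK (w s t)).1) ≤
      e * d := by
    intro s t
    have h1 := hR (b t * a s * (a s * FreeGroup.lift b (w s t))⁻¹) (by
      simp only [mem_union]
      exact Or.inl (Or.inl (Or.inr (mem_image.2 ⟨(s, t), mem_univ _, rfl⟩))))
    have h2 := rel_le U _ _ (h1.trans (mul_le_mul_of_nonneg_right hδe hd0.le))
    rw [map_mul, map_mul, ← hUKl] at h2
    exact h2
  have hrel4 : ∀ s, hs ((U s).1 - (FreeGroup.lift U2 (y s)).1) ≤ e * d := by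
    intro s
    have h1 := hR (FreeGroup.of s * (FreeGroup.lift a (y s))⁻¹) (by
      simp only [mem_union]
      exact Or.inl (Or.inr (mem_image.2 ⟨s, mem_univ _, rfl⟩)))
    have h2 := rel_le U _ _ (h1.trans (mul_le_mul_of_nonneg_right hδe hd0.le))
    rw [← hU2l, FreeGroup.lift_apply_of] at h2
    exact h2
  have hrel5 : hs ((FreeGroup.lift U x).1 * (U2 s0).1 -
      (U2 s0).1 * (FreeGroup.lift UK z).1) ≤ e * d := by
    have h1 := hR (x * a s0 * (a s0 * FreeGroup.lift b z)⁻¹) (by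
      simp only [mem_union]
      exact Or.inr (mem_singleton_self _))
    have h2 := rel_le U _ _ (h1.trans (mul_le_mul_of_nonneg_right hδe hd0.le))
    rw [map_mul, map_mul, ← hUKl] at h2
    exact h2
  -- the energy with respect to the generators of the subgroup
  by_cases hLev : LevIrr O (fun s => (U2 s).1) δ₀ κ
  · left
    intro V hV hS
    have hnear : ∀ s, NearInv O (U2 s).1 εc := by
      intro s
      have h1 := nearInv_of (U := UK) hKk.le hO (hun (U2 s)) (w s) (L s) (hL0 s)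
        (fun t x => hL s t d UK x) (η := e) (fun t => hrel3 s t)
      have h2 : Kk * ∑ t, (2 * L s t * e + 8 * e) + e ≤ εc := by
        have e1 : ∑ t, (2 * L s t * e + 8 * e) = (∑ t, (2 * L s t + 8)) * e := by
          rw [sum_mul]; exact sum_congr rfl fun t _ => by ring
        rw [e1]
        have h3 : ∑ t, (2 * L s t + 8) ≤ ∑ s, ∑ t, (2 * L s t + 8) :=
          single_le_sum (f := fun s => ∑ t, (2 * L s t + 8))
            (fun s _ => sum_nonneg fun t _ => by linarith [hL0 s t]) (mem_univ s)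
        have h4 := mul_le_mul_of_nonneg_left h3 hKk.le
        have h5 : (Kk * (∑ t, (2 * L s t + 8)) + 1) * e ≤ M * e :=
          mul_le_mul_of_nonneg_right (by rw [hM]; linarith) hep.le
        linarith
      intro c hc hc1
      obtain ⟨b', hb', hb2⟩ := h1 c hc hc1
      exact ⟨b', hb', hb2.trans (mul_le_mul_of_nonneg_right h2 hd0.le)⟩
    have hsize : (d : ℝ) - D0 O ≤ εc * d :=
      hO.size.trans (mul_le_mul_of_nonneg_right (heM.trans hMe1) hd0.le)
    have hN := hcore d O (fun s => (U2 s).1) hd (fun s => hun _) hnear hsize hLev s0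
    -- the element `V`
    obtain ⟨c, hc, hc1, hc2⟩ := hO.near V hV
    have hc3 : hs (V - c) ≤ ε / 1000 * d := by
      refine hc2.trans ?_
      have h1 : Pool.Agent.W661.RC.en (fun t => (UK t : Mt d)) V ≤ l * (e * d) := by
        rw [Pool.Agent.W661.RC.en]
        refine (sum_le_sum (g := fun _ => e * d) fun t _ => ?_).trans (by
          rw [sum_const, card_univ, Fintype.card_fin, nsmul_eq_mul])
        exact (hS (b t) (mem_image_of_mem _ (mem_univ t))).trans
          (mul_le_mul_of_nonneg_right hδe hd0.le)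
      have h2 := mul_le_mul_of_nonneg_left h1 hKk.le
      have h3 : (Kk * l + 1) * e ≤ M * e :=
        mul_le_mul_of_nonneg_right (by rw [hM]; linarith) hep.le
      have h4 : (Kk * l + 1) * e * d ≤ ε / 1000 * d :=
        mul_le_mul_of_nonneg_right (h3.trans hMe2) hd0.le
      nlinarith
    obtain ⟨c', hc', hc1', hc2'⟩ := hN c hc hc1
    set W : Mt d := (U2 s0).1 with hW
    have hWW : Wᴴ * W = 1 := hun _
    have hWW' : W * Wᴴ = 1 := unit_symm hWW
    set Z : Mt d := (FreeGroup.lift UK z).1 with hZ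
    have hZZ : Zᴴ * Z = 1 := hun _
    set X : Mt d := (FreeGroup.lift U x).1 with hX
    have h1 : hs (Z * c' - c' * Z) ≤ ε / 1000 * d := by
      have h2 := hLz d UK c'
      have h3 := hO.en c' hc' hc1'
      have h4 := mul_le_mul_of_nonneg_left h3 hLz0
      have h5 : Lz * e ≤ M * e := mul_le_mul_of_nonneg_right (by rw [hM]; linarith) hep.le
      have h6 : Lz * e * d ≤ ε / 1000 * d :=
        mul_le_mul_of_nonneg_right (h5.trans hMe2) hd0.le
      nlinarith
    have h2 : hs (X - W * Z * Wᴴ) ≤ ε / 1000 * d := by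
      have h3 : X - W * Z * Wᴴ = (X * W - W * Z) * Wᴴ := by
        rw [Matrix.sub_mul, Matrix.mul_assoc X W, hWW', Matrix.mul_one]
      rw [h3, hs_mul_unit (unit_conj hWW)]
      exact hrel5.trans (mul_le_mul_of_nonneg_right (heM.trans hMe2) hd0.le)
    have h3 : hs (c - W * c' * Wᴴ) ≤ ε / 1000 * d := by
      have h4 : c - W * c' * Wᴴ = W * (Wᴴ * c * (Wᴴ)ᴴ - c') * Wᴴ := by
        rw [Matrix.conjTranspose_conjTranspose, Matrix.mul_sub, Matrix.sub_mul]
        congr 1
        calc c = (W * Wᴴ) * c * (W * Wᴴ) := by rw [hWW', Matrix.one_mul, Matrix.mul_one]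
          _ = _ := by simp only [Matrix.mul_assoc]
      rw [h4, hs_mul_unit (unit_conj hWW), hs_unit_mul hWW]
      exact hc2'
    have h4 : hs (V - W * c' * Wᴴ) ≤ 4 * (ε / 1000) * d := by
      have h5 : V - W * c' * Wᴴ = (V - c) + (c - W * c' * Wᴴ) := by abel
      have h6 := Pool.Agent.W683.RC.hs_add_le (V - c) (c - W * c' * Wᴴ)
      rw [← h5] at h6
      linarith
    have hT : (W * Z * Wᴴ)ᴴ * (W * Z * Wᴴ) = 1 := by
      rw [Matrix.conjTranspose_mul, Matrix.conjTranspose_mul, Matrix.conjTranspose_conjTranspose]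
      calc W * (Zᴴ * Wᴴ) * (W * Z * Wᴴ) = W * (Zᴴ * (Wᴴ * W) * Z) * Wᴴ := by
            simp only [Matrix.mul_assoc]
        _ = 1 := by rw [hWW, Matrix.mul_one, hZZ, Matrix.mul_one, hWW']
    have h5 : X * V - V * X = ((X - W * Z * Wᴴ) * V - V * (X - W * Z * Wᴴ)) +
        (W * Z * Wᴴ * (V - W * c' * Wᴴ) - (V - W * c' * Wᴴ) * (W * Z * Wᴴ)) +
        W * (Z * c' - c' * Z) * Wᴴ := by
      have e6 : W * (Z * c' - c' * Z) * Wᴴ =
          W * Z * Wᴴ * (W * c' * Wᴴ) - W * c' * Wᴴ * (W * Z * Wᴴ) := by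
        rw [Matrix.mul_sub, Matrix.sub_mul]
        congr 1
        · calc W * (Z * c') * Wᴴ = W * Z * (1 * c') * Wᴴ := by
                rw [Matrix.one_mul]; simp only [Matrix.mul_assoc]
            _ = _ := by rw [← hWW]; simp only [Matrix.mul_assoc]
        · calc W * (c' * Z) * Wᴴ = W * c' * (1 * Z) * Wᴴ := by
                rw [Matrix.one_mul]; simp only [Matrix.mul_assoc]
            _ = _ := by rw [← hWW]; simp only [Matrix.mul_assoc]
      rw [e6]
      simp only [Matrix.mul_sub, Matrix.sub_mul]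
      abel
    have h6 := Pool.Agent.N957.NH.hs_comm_le (y := X - W * Z * Wᴴ) hV
    have h7 : hs (W * Z * Wᴴ * (V - W * c' * Wᴴ) - (V - W * c' * Wᴴ) * (W * Z * Wᴴ)) ≤
        4 * hs (V - W * c' * Wᴴ) := by
      have h8 := Pool.Agent.W683.RC.hs_sub_le (W * Z * Wᴴ * (V - W * c' * Wᴴ))
        ((V - W * c' * Wᴴ) * (W * Z * Wᴴ))
      rw [hs_unit_mul hT, hs_mul_unit hT] at h8
      linarith
    have h8 : hs (W * (Z * c' - c' * Z) * Wᴴ) = hs (Z * c' - c' * Z) := by
      rw [hs_mul_unit (unit_conj hWW), hs_unit_mul hWW]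
    have h9 := hs_add3_le ((X - W * Z * Wᴴ) * V - V * (X - W * Z * Wᴴ))
      (W * Z * Wᴴ * (V - W * c' * Wᴴ) - (V - W * c' * Wᴴ) * (W * Z * Wᴴ))
      (W * (Z * c' - c' * Z) * Wᴴ)
    rw [← h5, h8] at h9
    have hεd : 0 ≤ ε * d := by positivity
    show hs (X * V - V * X) ≤ ε * d
    linarith
  · right
    unfold LevIrr at hLev
    push Not at hLev
    obtain ⟨t, ht, hen, hfar⟩ := hLev
    obtain ⟨hZ1, hZ2, hZ3⟩ := ZG_facts O t
    set Z : Mt d := ZG O t with hZ
    have hZc : Le (Zᴴ * Z) 1 := pr_contr hZ1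
    refine ⟨Z, hZ1, fun s => ?_, fun V hV => ?_, hfar⟩
    · set Y : Mt d := (FreeGroup.lift U2 (y s)).1 with hY
      have h2 := hL' s d U2 Z
      have h4 := mul_le_mul_of_nonneg_left hen (hL0' s)
      have h5 := Pool.Agent.N957.NH.hs_comm_le (y := (U s).1 - Y) hZc
      have e5 : (U s).1 * Z - Z * (U s).1 = (Y * Z - Z * Y) +
          (((U s).1 - Y) * Z - Z * ((U s).1 - Y)) := by
        simp only [Matrix.mul_sub, Matrix.sub_mul]; abel
      have h6 := Pool.Agent.W683.RC.hs_add_le (Y * Z - Z * Y)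
        (((U s).1 - Y) * Z - Z * ((U s).1 - Y))
      rw [← e5] at h6
      have h7 := hrel4 s
      have h8 := mul_le_mul_of_nonneg_right (hδ₀e s) hd0.le
      have h9 : e * d ≤ η / 1000 * d :=
        mul_le_mul_of_nonneg_right (heM.trans hMe3) hd0.le
      have h10 : 0 ≤ η * d := by positivity
      have h11 : L' s * (δ₀ * d) = L' s * δ₀ * d := by ring
      rw [h11] at h4
      show hs ((U s).1 * Z - Z * (U s).1) ≤ η * d
      linarith
    · obtain ⟨c, hc, hc1, hc2⟩ := hO.near V hV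
      have h1 : Z * V - V * Z = Z * (V - c) - (V - c) * Z := by
        rw [Matrix.mul_sub, Matrix.sub_mul, hZ3 c hc]
        abel
      have h2 := Pool.Agent.N957.NH.hs_comm_le (y := V - c) hZc
      have h3 : hs (Z * V - V * Z) = hs ((V - c) * Z - Z * (V - c)) := by
        rw [h1, ← Pool.Agent.W683.RC.hs_neg, neg_sub]
      have h4 : Pool.Agent.W661.RC.en (fun t => (UK t : Mt d)) V ≤ l *
          ∑ w ∈ univ.image b, hs ((FreeGroup.lift U w : Mt d) * V -
            V * (FreeGroup.lift U w : Mt d)) := by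
        rw [Pool.Agent.W661.RC.en]
        refine (sum_le_sum (g := fun _ => ∑ w ∈ univ.image b, hs ((FreeGroup.lift U w : Mt d) * V -
            V * (FreeGroup.lift U w : Mt d))) fun t _ => ?_).trans (by
          rw [sum_const, card_univ, Fintype.card_fin, nsmul_eq_mul])
        exact single_le_sum (f := fun w => hs ((FreeGroup.lift U w : Mt d) * V -
            V * (FreeGroup.lift U w : Mt d))) (fun i _ => Pool.Agent.W683.RC.hs_nonneg _)
          (mem_image_of_mem _ (mem_univ t))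
      have h5 := mul_le_mul_of_nonneg_left h4 hKk.le
      have h9 : e * d ≤ η / 1000 * d :=
        mul_le_mul_of_nonneg_right (heM.trans hMe3) hd0.le
      have h10 : 0 ≤ η * d := by positivity
      rw [h3]
      have h11 : 4 * (Kk * l) * ∑ w ∈ univ.image b, hs ((FreeGroup.lift U w : Mt d) * V -
            V * (FreeGroup.lift U w : Mt d)) = 4 * (Kk * (l *
          ∑ w ∈ univ.image b, hs ((FreeGroup.lift U w : Mt d) * V -
            V * (FreeGroup.lift U w : Mt d)))) := by ring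
      rw [h11]
      linarith

end

end Pool.Agent.N829.OM.FMW_
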