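import Pool.Agent.N829.OM.StmG
import Pool.Agent.N303.KQ.Cor
import Pool.Agent.H112R2.Resid

/-!
# Project OM (helper829), part GLH (helper195)

Elementary groups over group algebras of abelian groups are locally embeddable into finite groups,
hence hyperlinear.
-/

set_option autoImplicit false

namespace Pool.Agent.N829.OM.GLH_

open Matrix Function
open Pool.Agent.N44.NS (E3 el)
open Pool.Agent.H21R2 (IsHyperlinear)
open Pool.Agent.N303.KQ (LEFs hyp_of_lef)

noncomputable section

section um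

variable {R S : Type} [Ring R] [Ring S]

lemma map_inj {φ : R →+* S} (hφ : Injective φ) :
    Injective (fun M : Matrix (Fin 3) (Fin 3) R => M.map φ) := by
  intro x y h
  funext p q
  exact hφ (congrFun (congrFun h p) q)

lemma um_inj {φ : R →+* S} (hφ : Injective φ) : Injective (um φ) := by
  intro x y h
  apply Units.ext
  have h1 := congrArg Units.val h
  rw [um_val, um_val] at h1
  exact map_inj hφ h1

lemma um_lift {φ : R →+* S} (hφ : Injective φ) (x : (Matrix (Fin 3) (Fin 3) S)ˣ)
    (h1 : ∀ p q, (x : Matrix (Fin 3) (Fin 3) S) p q ∈ Set.range φ)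
    (h2 : ∀ p q, ((x⁻¹ : (Matrix (Fin 3) (Fin 3) S)ˣ) : Matrix (Fin 3) (Fin 3) S) p q ∈
      Set.range φ) : ∃ x', um φ x' = x := by
  choose a ha using h1
  choose b hb using h2
  have hm : (Matrix.of a).map φ = (x : Matrix (Fin 3) (Fin 3) S) := by
    funext p q
    exact ha p q
  have hm' : (Matrix.of b).map φ =
      ((x⁻¹ : (Matrix (Fin 3) (Fin 3) S)ˣ) : Matrix (Fin 3) (Fin 3) S) := by
    funext p q
    exact hb p q
  have h1' : (1 : Matrix (Fin 3) (Fin 3) R).map φ = 1 :=
    Matrix.map_one _ (map_zero φ) (map_one φ)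
  refine ⟨⟨Matrix.of a, Matrix.of b, ?_, ?_⟩, ?_⟩
  · apply map_inj hφ
    show (Matrix.of a * Matrix.of b).map φ = (1 : Matrix (Fin 3) (Fin 3) R).map φ
    rw [Matrix.map_mul, hm, hm', h1']
    exact x.mul_inv
  · apply map_inj hφ
    show (Matrix.of b * Matrix.of a).map φ = (1 : Matrix (Fin 3) (Fin 3) R).map φ
    rw [Matrix.map_mul, hm, hm', h1']
    exact x.inv_mul
  · apply Units.ext
    rw [um_val]
    exact hm

end um

section alg

variable {E E' : Type} [AddCommGroup E] [AddCommGroup E']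

/-- the ring homomorphism of group algebras -/
abbrev md (u : E →+ E') : A E →+* A E' := AddMonoidAlgebra.mapDomainRingHom (ZMod 257) u

lemma md_coeff (u : E →+ E') (a : A E) : (md u a).coeff = Finsupp.mapDomain u a.coeff := rfl

lemma md_inj {u : E →+ E'} (hu : Injective u) : Injective (md u) :=
  AddMonoidAlgebra.mapDomain_injective hu

lemma md_injOn {u : E →+ E'} {Y : Set E} (hu : Set.InjOn u Y) {a b : A E}
    (ha : (a.coeff.support : Set E) ⊆ Y) (hb : (b.coeff.support : Set E) ⊆ Y)
    (h : md u a = md u b) : a = b := by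
  have h1 : Finsupp.mapDomain u a.coeff = Finsupp.mapDomain u b.coeff := by
    rw [← md_coeff, ← md_coeff, h]
  have h2 := Finsupp.mapDomain_injOn Y hu ha hb h1
  exact AddMonoidAlgebra.coeffEquiv.injective h2

lemma md_lift {E₁ : AddSubgroup E} {a : A E} (ha : ∀ e ∈ a.coeff.support, e ∈ E₁) :
    a ∈ Set.range (md E₁.subtype) := by
  refine ⟨AddMonoidAlgebra.comapDomain E₁.subtype Subtype.val_injective a, ?_⟩
  refine AddMonoidAlgebra.mapDomain_comapDomain (f := E₁.subtype) ?_ _
  intro e he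
  exact ⟨⟨e, ha e he⟩, rfl⟩

lemma one_supp (p q : Fin 3) :
    ∀ e ∈ ((1 : Matrix (Fin 3) (Fin 3) (A E)) p q).coeff.support, e = 0 := by
  intro e he
  by_cases h : p = q
  · rw [h, Matrix.one_apply_eq] at he
    have h1 : (1 : A E).coeff = Finsupp.single 0 1 := rfl
    rw [h1] at he
    have := Finsupp.support_single_subset he
    simpa using this
  · rw [Matrix.one_apply_ne h] at he
    have h1 : (0 : A E).coeff = 0 := rfl
    rw [h1] at he
    simp at he

instance finA (Q : Type) [AddCommGroup Q] [Finite Q] : Finite (A Q) := by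
  have : Fintype Q := Fintype.ofFinite Q
  have : Finite (Q →₀ ZMod 257) := Finite.of_equiv (Q → ZMod 257) Finsupp.equivFunOnFinite.symm
  exact Finite.of_equiv (Q →₀ ZMod 257) AddMonoidAlgebra.coeffEquiv.symm

instance finM (Q : Type) [AddCommGroup Q] [Finite Q] : Finite (Matrix (Fin 3) (Fin 3) (A Q)) :=
  inferInstanceAs (Finite (Fin 3 → Fin 3 → A Q))

end alg

open Classical in
theorem lefs (E : Type) [AddCommGroup E] : LEFs (E3 (A E)) := by
  intro F h1F g hgF hg
  -- the exponents
  let X : Finset E := F.biUnion fun x => (Finset.univ : Finset (Fin 3 × Fin 3)).biUnion fun pq =>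
    (((x : (Matrix (Fin 3) (Fin 3) (A E))ˣ) : Matrix (Fin 3) (Fin 3) (A E))
      pq.1 pq.2).coeff.support ∪
    ((((x : (Matrix (Fin 3) (Fin 3) (A E))ˣ)⁻¹ : (Matrix (Fin 3) (Fin 3) (A E))ˣ) :
      Matrix (Fin 3) (Fin 3) (A E)) pq.1 pq.2).coeff.support
  let E₁ : AddSubgroup E := AddSubgroup.closure (X : Set E)
  have hfg : AddGroup.FG E₁ := by
    rw [AddGroup.fg_iff_addSubgroup_fg]
    exact ⟨X, rfl⟩
  have hφ : Injective (md E₁.subtype) := md_inj Subtype.val_injective
  have lift : ∀ x ∈ F, ∃ x', um (md E₁.subtype) x' = (x : (Matrix (Fin 3) (Fin 3) (A E))ˣ) := by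
    intro x hx
    apply um_lift hφ
    · intro p q
      refine md_lift fun e he => AddSubgroup.subset_closure ?_
      refine Finset.mem_coe.2 (Finset.mem_biUnion.2 ⟨x, hx, Finset.mem_biUnion.2
        ⟨(p, q), Finset.mem_univ _, Finset.mem_union_left _ he⟩⟩)
    · intro p q
      refine md_lift fun e he => AddSubgroup.subset_closure ?_
      refine Finset.mem_coe.2 (Finset.mem_biUnion.2 ⟨x, hx, Finset.mem_biUnion.2
        ⟨(p, q), Finset.mem_univ _, Finset.mem_union_right _ he⟩⟩)
  obtain ⟨g', hg'⟩ := lift g hgF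
  let Y : Finset E₁ := insert 0 ((Finset.univ : Finset (Fin 3 × Fin 3)).biUnion fun pq =>
    ((g' : Matrix (Fin 3) (Fin 3) (A E₁)) pq.1 pq.2).coeff.support)
  obtain ⟨Q, _, _, π, hπ⟩ := H112.exists_finite_quotient E₁ Y
  have hr : um (md π) g' ≠ 1 := by
    intro h
    apply hg
    have h1 : g' = 1 := by
      apply Units.ext
      funext p q
      have h2 : md π ((g' : Matrix (Fin 3) (Fin 3) (A E₁)) p q) =
          md π ((1 : Matrix (Fin 3) (Fin 3) (A E₁)) p q) := by
        have h0 : ((um (md π) g' : (Matrix (Fin 3) (Fin 3) (A Q))ˣ) :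
            Matrix (Fin 3) (Fin 3) (A Q)) = 1 := by
          rw [h, Units.val_one]
        rw [um_val] at h0
        have h3 := congrFun (congrFun h0 p) q
        have h4 : (1 : Matrix (Fin 3) (Fin 3) (A E₁)).map (md π) = 1 :=
          Matrix.map_one _ (map_zero _) (map_one _)
        have h5 := congrFun (congrFun h4 p) q
        exact h3.trans h5.symm
      refine md_injOn hπ (fun e he => ?_) (fun e he => ?_) h2
      · exact Finset.mem_coe.2 (Finset.mem_insert_of_mem (Finset.mem_biUnion.2
          ⟨(p, q), Finset.mem_univ _, he⟩))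
      · rw [one_supp p q e he]
        exact Finset.mem_coe.2 (Finset.mem_insert_self _ _)
    apply Subtype.ext
    rw [← hg', h1, map_one]
    rfl
  -- the map
  let K : Type := (Matrix (Fin 3) (Fin 3) (A Q))ˣ
  let f : E3 (A E) → K := fun x =>
    if h : ∃ x', um (md E₁.subtype) x' = (x : (Matrix (Fin 3) (Fin 3) (A E))ˣ) then
      um (md π) h.choose else 1
  have hf : ∀ (x : E3 (A E)) (x' : (Matrix (Fin 3) (Fin 3) (A E₁))ˣ),
      um (md E₁.subtype) x' = (x : (Matrix (Fin 3) (Fin 3) (A E))ˣ) → f x = um (md π) x' := by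
    intro x x' hx'
    have h : ∃ x', um (md E₁.subtype) x' = (x : (Matrix (Fin 3) (Fin 3) (A E))ˣ) := ⟨x', hx'⟩
    have h2 : h.choose = x' := um_inj hφ (h.choose_spec.trans hx'.symm)
    show (if h : ∃ x', um (md E₁.subtype) x' = (x : (Matrix (Fin 3) (Fin 3) (A E))ˣ) then
      um (md π) h.choose else 1) = _
    rw [dif_pos h, h2]
  have hf1 : f 1 = 1 := by
    rw [hf 1 1 (by rw [map_one]; rfl), map_one]
  have hfm : ∀ a ∈ F, ∀ b ∈ F, f (a * b) = f a * f b := by
    intro a ha b hb
    obtain ⟨a', ha'⟩ := lift a ha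
    obtain ⟨b', hb'⟩ := lift b hb
    rw [hf a a' ha', hf b b' hb', hf (a * b) (a' * b') (by rw [map_mul, ha', hb']; rfl), map_mul]
  have hfg' : f g ≠ 1 := by
    rw [hf g g' hg']
    exact hr
  refine ⟨K, Fintype.ofFinite K, Classical.decEq K, fun x => MulAction.toPermHom K K (f x), ?_, ?_, ?_⟩
  · show MulAction.toPermHom K K (f 1) = 1
    rw [hf1, map_one]
  · intro a ha b hb _
    show MulAction.toPermHom K K (f (a * b)) = _
    rw [hfm a ha b hb, map_mul]
  · intro h
    apply hfg'
    have h2 := congrArg (fun σ : Equiv.Perm K => σ 1) h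
    have h3 : f g * 1 = 1 := h2
    rwa [mul_one] at h3

/-- **(GLH)** -/
theorem main : S_GLH := fun E _ => hyp_of_lef (lefs E)

end

end Pool.Agent.N829.OM.GLH_
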