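import Pool.Agent.N829.OM.StmG
import Pool.Agent.N44.HL.H

/-!
# Project OM: assembly of the group (helper400)
-/

set_option autoImplicit false

namespace Pool.Agent.N829.OM.GRP_

open Matrix Monoid
open Pool.Agent.N44.NS (E3 el)
open Pool.Agent.N44.HL (extMap extFam IsClosedSubgroup)
open Pool.Agent.H21R2 (IsHyperlinear)
open Pool.Agent.W661.RC (HasT)

/-- property (T) passes to images -/
theorem hasT_of_surj {G H : Type} [Group G] [Group H] (f : G →* H)
    (hf : Function.Surjective f) (hT : HasT G) : HasT H := by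
  classical
  intro E _ _ _ π h
  obtain ⟨v, hv0, hv⟩ := hT E (π.comp f) (by
    intro K ε hε
    obtain ⟨v, hv1, hv2⟩ := h (K.image f) ε hε
    exact ⟨v, hv1, fun g hg => hv2 (f g) (Finset.mem_image_of_mem _ hg)⟩)
  refine ⟨v, hv0, fun g => ?_⟩
  obtain ⟨g', rfl⟩ := hf g
  exact hv g'

/-- the images of the generators -/
def genMap {P L : Type} [Group P] [Group L] (I2 J : L →* P) (T : P) (n : ℕ)
    (γ : FreeGroup (Fin n) →* L) : Option (Fin n ⊕ Fin n) → P
  | none => T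
  | some (Sum.inl s) => I2 (γ (FreeGroup.of s))
  | some (Sum.inr s) => J (γ (FreeGroup.of s))

theorem gen_surj {P L : Type} [Group P] [Group L] (I2 J : L →* P) (T : P)
    (hind : ∀ S : Subgroup P, (∀ a, I2 a ∈ S) → T ∈ S → (∀ a, J a ∈ S) → S = ⊤)
    (n : ℕ) (γ : FreeGroup (Fin n) →* L) (hγ : Function.Surjective γ) :
    ∃ (m : ℕ) (δ : FreeGroup (Fin m) →* P), Function.Surjective δ := by
  have e : Fin (Fintype.card (Option (Fin n ⊕ Fin n))) ≃ Option (Fin n ⊕ Fin n) :=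
    (Fintype.equivFin _).symm
  refine ⟨_, (FreeGroup.lift (genMap I2 J T n γ)).comp (FreeGroup.freeGroupCongr e).toMonoidHom,
    ?_⟩
  rw [MonoidHom.coe_comp]
  refine Function.Surjective.comp ?_ (FreeGroup.freeGroupCongr e).surjective
  rw [← MonoidHom.range_eq_top]
  have e1 : I2.comp γ = (FreeGroup.lift (genMap I2 J T n γ)).comp
      (FreeGroup.map (fun s : Fin n => (some (Sum.inl s) : Option (Fin n ⊕ Fin n)))) := by
    refine FreeGroup.ext_hom _ _ fun s => ?_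
    simp [genMap]
  have e2 : J.comp γ = (FreeGroup.lift (genMap I2 J T n γ)).comp
      (FreeGroup.map (fun s : Fin n => (some (Sum.inr s) : Option (Fin n ⊕ Fin n)))) := by
    refine FreeGroup.ext_hom _ _ fun s => ?_
    simp [genMap]
  refine hind _ (fun a => ?_) ⟨FreeGroup.of none, by simp [genMap]⟩ (fun a => ?_)
  · obtain ⟨y, rfl⟩ := hγ a
    exact ⟨_, (DFunLike.congr_fun e1 y).symm⟩
  · obtain ⟨y, rfl⟩ := hγ a
    exact ⟨_, (DFunLike.congr_fun e2 y).symm⟩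

/-- finiteness of conjugacy ranges -/
theorem fin_range {Q L : Type} [Group Q] [Group L] {P : Subgroup Q} (I : L →* P) (x : P)
    (h : (Set.range fun a : I.range => (a : P) * x * (a : P)⁻¹).Finite) :
    (Set.range fun a : L => (I a : Q) * (x : Q) * (I a : Q)⁻¹).Finite := by
  have h1 : (Set.range fun a : L => (I a : Q) * (x : Q) * (I a : Q)⁻¹) ⊆
      (fun y : P => (y : Q)) '' (Set.range fun a : I.range => (a : P) * x * (a : P)⁻¹) := by
    rintro _ ⟨a, rfl⟩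
    exact ⟨_, ⟨⟨I a, a, rfl⟩, rfl⟩, rfl⟩
  exact (h.image _).subset h1

/-- the abstract form -/
theorem abs_grp {Q L : Type} [Group Q] [Group L] [Infinite L] (i1 i2 j : L →* Q) (T : Q)
    (hT : ∀ a, T * i2 a * T⁻¹ = i1 a) (h21 : ∀ a, ∃ a', i2 a = i1 a')
    (hcomm : ∀ a l, i2 a * j l = j l * i2 a) (hnc : ∃ b l0, i1 b * j l0 ≠ j l0 * i1 b)
    (hQ : IsHyperlinear Q) (hj : Function.Injective j) (hTL : HasT L)
    (hfg : ∃ (n : ℕ) (γ : FreeGroup (Fin n) →* L), Function.Surjective γ)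
    (hlast : ∀ x : Q, (Set.range fun a : L => i1 a * x * (i1 a)⁻¹).Finite →
      (Set.range fun a : L => j a * x * (j a)⁻¹).Finite → x = 1) : S_GRP := by
  obtain ⟨k0, hk0⟩ : ∃ k0 : Set Q, k0 = (Set.range i2 ∪ {T}) ∪ Set.range j := ⟨_, rfl⟩
  obtain ⟨P, hP⟩ : ∃ P : Subgroup Q, P = Subgroup.closure k0 := ⟨_, rfl⟩
  have m2 : ∀ a, i2 a ∈ P := fun a => by
    rw [hP, hk0]; exact Subgroup.subset_closure (Or.inl (Or.inl ⟨a, rfl⟩))
  have mT : T ∈ P := by
    rw [hP, hk0]; exact Subgroup.subset_closure (Or.inl (Or.inr rfl))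
  have mj : ∀ a, j a ∈ P := fun a => by
    rw [hP, hk0]; exact Subgroup.subset_closure (Or.inr ⟨a, rfl⟩)
  have m1 : ∀ a, i1 a ∈ P := fun a => by
    rw [← hT a]; exact mul_mem (mul_mem mT (m2 a)) (inv_mem mT)
  obtain ⟨I1, hI1⟩ : ∃ I1 : L →* P, ∀ a, (I1 a : Q) = i1 a :=
    ⟨i1.codRestrict P m1, fun a => rfl⟩
  obtain ⟨I2, hI2⟩ : ∃ I2 : L →* P, ∀ a, (I2 a : Q) = i2 a :=
    ⟨i2.codRestrict P m2, fun a => rfl⟩
  obtain ⟨J, hJ⟩ : ∃ J : L →* P, ∀ a, (J a : Q) = j a :=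
    ⟨j.codRestrict P mj, fun a => rfl⟩
  have hind : ∀ S : Subgroup P, (∀ a, I2 a ∈ S) → (⟨T, mT⟩ : P) ∈ S → (∀ a, J a ∈ S) →
      S = ⊤ := by
    intro S h2 hTS hJS
    rw [eq_top_iff]
    rintro ⟨y, hy⟩ -
    have hy' := hy
    rw [hP] at hy'
    have key : ∀ z ∈ Subgroup.closure k0, ∀ hz : z ∈ P, (⟨z, hz⟩ : P) ∈ S := by
      intro z hz
      induction hz using Subgroup.closure_induction with
      | mem z hz =>
        intro hzP
        rw [hk0] at hz
        rcases hz with (⟨a, ha⟩ | hz) | ⟨a, ha⟩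
        · have : (⟨z, hzP⟩ : P) = I2 a := Subtype.ext (by rw [hI2, ha])
          rw [this]; exact h2 a
        · have : (⟨z, hzP⟩ : P) = ⟨T, mT⟩ := Subtype.ext hz
          rw [this]; exact hTS
        · have : (⟨z, hzP⟩ : P) = J a := Subtype.ext (by rw [hJ, ha])
          rw [this]; exact hJS a
      | one => intro _; exact one_mem S
      | mul a b ha hb iha ihb =>
        intro hab
        have ha' : a ∈ P := by rw [hP]; exact ha
        have hb' : b ∈ P := by rw [hP]; exact hb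
        exact mul_mem (iha ha') (ihb hb')
      | inv a ha iha =>
        intro _
        have ha' : a ∈ P := by rw [hP]; exact ha
        exact inv_mem (iha ha')
    exact key y hy' hy
  obtain ⟨n0, γ0, hγ0⟩ := hfg
  obtain ⟨n, γ, hγ⟩ := gen_surj I2 J ⟨T, mT⟩ hind n0 γ0 hγ0
  obtain ⟨b, l0, hbl⟩ := hnc
  have hTK : ∀ k ∈ I2.range, (⟨T, mT⟩ : P)⁻¹ * k * ⟨T, mT⟩ ∈ I2.range := by
    rintro _ ⟨a, rfl⟩
    obtain ⟨a', ha'⟩ := h21 a
    refine ⟨a', Subtype.ext ?_⟩
    show (I2 a' : Q) = T⁻¹ * (I2 a : Q) * T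
    rw [hI2, hI2, ha', ← hT a']
    group
  refine ⟨P, inferInstance, I2.range, I1.range, J.range, n, γ, ⟨T, mT⟩, I2 b, J l0,
    Pool.Agent.N44.HL.hyperlinear_of_injective hQ P.subtype P.subtype_injective,
    Infinite.of_injective J fun x y hxy => hj (by rw [← hJ, ← hJ, hxy]), hγ,
    hasT_of_surj I2.rangeRestrict I2.rangeRestrict_surjective hTL,
    hasT_of_surj I1.rangeRestrict I1.rangeRestrict_surjective hTL,
    hasT_of_surj J.rangeRestrict J.rangeRestrict_surjective hTL, ?_, hTK, ⟨b, rfl⟩, ?_, ?_, ?_⟩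
  · refine hind _ (fun a => Subgroup.subset_closure ?_) (Subgroup.subset_closure hTK)
      (fun a => Subgroup.subset_closure ?_)
    · intro k hk
      exact mul_mem (mul_mem (inv_mem ⟨a, rfl⟩) hk) ⟨a, rfl⟩
    · rintro _ ⟨c, rfl⟩
      have h1 : (J a)⁻¹ * I2 c * J a = I2 c := by
        apply Subtype.ext
        show (J a : Q)⁻¹ * (I2 c : Q) * (J a : Q) = (I2 c : Q)
        rw [hJ, hI2, mul_assoc, hcomm, inv_mul_cancel_left]
      rw [h1]
      exact ⟨c, rfl⟩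
  · rintro _ ⟨c, rfl⟩
    apply Subtype.ext
    show (J l0 : Q) * (I2 c : Q) = (I2 c : Q) * (J l0 : Q)
    rw [hJ, hI2, hcomm]
  · intro h
    apply hbl
    have h1 : (J l0 : Q) * (T * (I2 b : Q) * T⁻¹) = T * (I2 b : Q) * T⁻¹ * (J l0 : Q) :=
      congrArg Subtype.val h
    rw [hJ, hI2, hT] at h1
    exact h1.symm
  · intro x hx
    by_contra hcon
    rw [not_or, Set.not_infinite, Set.not_infinite] at hcon
    apply hx
    apply Subtype.ext
    show (x : Q) = 1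
    have h1 := fin_range I1 x hcon.1
    have h2 := fin_range J x hcon.2
    simp only [hI1] at h1
    simp only [hJ] at h2
    exact hlast x h1 h2

theorem fin_conj {N Q L : Type} [Group N] [Group Q] [Group L] (f : N →* Q)
    (hf : Function.Injective f) (j1 : L →* N) (n : N)
    (h : (Set.range fun m : L => f (j1 m) * f n * (f (j1 m))⁻¹).Finite) :
    (Set.range fun m : L => j1 m * n * (j1 m)⁻¹).Finite := by
  refine Set.Finite.of_finite_image (f := f) ?_ hf.injOn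
  refine h.subset ?_
  rintro _ ⟨_, ⟨m, rfl⟩, rfl⟩
  exact ⟨m, by rw [map_mul, map_mul, map_inv]⟩

theorem main (h1 : S_GLH) (h2 : S_NZ) (h3 : S_CLZ) (h4 : S_PFC)
    (h5 : S_PNC) (h6 : S_FCM) (h7 : S_JM) (h8 : S_TTZ) : S_GRP := by
  obtain ⟨hinj, hhalf, h21, hmem, ⟨b, hb⟩, hinf⟩ := h7
  have hclosed : IsClosedSubgroup HQ :=
    ⟨E3 (A EQ), inferInstance, e3a ea, e3a eb, h1 EQ, fun g => Iff.rfl⟩
  have hHB : IsClosedSubgroup HB := h3 NQ half HQ (h1 ℚ) hclosed
  have hBQ : IsHyperlinear BQ := h2 NQ half (h1 ℚ)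
  have hPB : IsHyperlinear PB := by
    have h9 := (Pool.Agent.N44.HL.closed_tfae6 HB).out 0 4 rfl rfl
    exact h9.1 ⟨hBQ, hHB⟩ LZ (h1 ℤ)
  obtain ⟨hiB, hiL, hcomm, hnc⟩ := h5 BQ LZ HB
  have hinl : Function.Injective (SemidirectProduct.inl : NQ →* BQ) :=
    SemidirectProduct.inl_injective
  have hicc : ∀ l : LZ, l ≠ 1 → (Set.range fun m : LZ => m * l * m⁻¹).Infinite := by
    intro l hl hfin
    apply hl
    apply hinj 1 one_ne_zero
    rw [map_one]
    apply h6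
    have h9 : (Set.range fun m : LZ => jm 1 m * jm 1 l * (jm 1 m)⁻¹) ⊆
        jm 1 '' (Set.range fun m : LZ => m * l * m⁻¹) := by
      rintro _ ⟨m, rfl⟩
      exact ⟨_, ⟨m, rfl⟩, by rw [map_mul, map_mul, map_inv]⟩
    exact (Set.Finite.image _ hfin).subset h9
  have := hinf
  obtain ⟨l0, hl0⟩ := exists_ne (1 : LZ)
  have hconj : ∀ n : NQ, (SemidirectProduct.inr (Multiplicative.ofAdd 1) : BQ) *
      SemidirectProduct.inl n * (SemidirectProduct.inr (Multiplicative.ofAdd 1) : BQ)⁻¹ =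
      SemidirectProduct.inl (half n) := by
    intro n
    rw [← map_inv, ← SemidirectProduct.inl_aut]
    congr 1
  refine abs_grp ((inB HB LZ).comp (SemidirectProduct.inl.comp (jm 1)))
    ((inB HB LZ).comp (SemidirectProduct.inl.comp (jm 2))) (inL HB LZ)
    (inB HB LZ (SemidirectProduct.inr (Multiplicative.ofAdd 1))) ?_ ?_ ?_ ?_ hPB hiL h8.1 h8.2 ?_
  · intro a
    show inB HB LZ _ * inB HB LZ (SemidirectProduct.inl (jm 2 a)) * (inB HB LZ _)⁻¹ =
      inB HB LZ (SemidirectProduct.inl (jm 1 a))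
    rw [← map_mul, ← map_inv, ← map_mul, hconj, hhalf]
  · intro a
    obtain ⟨a', ha'⟩ := h21 a
    refine ⟨a', ?_⟩
    show inB HB LZ (SemidirectProduct.inl (jm 2 a)) = inB HB LZ (SemidirectProduct.inl (jm 1 a'))
    rw [ha']
  · intro a l
    exact hcomm _ ⟨jm 2 a, hmem a, rfl⟩ l
  · refine ⟨b, l0, hnc _ _ ?_ hl0⟩
    rintro ⟨y, hy, hyb⟩
    apply hb
    have := hinl hyb
    rw [← this]
    exact hy
  · intro x hx1 hx2
    obtain ⟨h, ⟨n, hn, rfl⟩, rfl⟩ := h4 BQ LZ HB hinf hicc x hx2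
    have hfin : (Set.range fun m : LZ => jm 1 m * n * (jm 1 m)⁻¹).Finite :=
      fin_conj ((inB HB LZ).comp (SemidirectProduct.inl : NQ →* BQ)) (hiB.comp hinl) (jm 1) n hx1
    rw [h6 n hfin, map_one, map_one]

end Pool.Agent.N829.OM.GRP_
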