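import Pool.Agent.N829.OM.StmG

/-!
# Project OM: the inclusions of `E_3(F[ℤ])` in `E_3(F[ℚ])`
-/

set_option autoImplicit false

namespace Pool.Agent.N829.OM.JM_

open Matrix Monoid
open Pool.Agent.N829.OM
open Pool.Agent.N44.NS (E3 el)

noncomputable section

theorem e3map_inj {R S : Type} [Ring R] [Ring S] (φ : R →+* S) (h : Function.Injective φ) :
    Function.Injective (e3map φ) := by
  intro g g' e
  apply Subtype.ext
  apply Units.ext
  ext p q
  apply h
  exact congrArg (fun x : E3 S =>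
    ((x : (Matrix (Fin 3) (Fin 3) S)ˣ) : Matrix (Fin 3) (Fin 3) S) p q) e

theorem e3a_inj {E E' : Type} [AddCommGroup E] [AddCommGroup E'] (u : E →+ E')
    (h : Function.Injective u) : Function.Injective (e3a u) :=
  e3map_inj _ (AddMonoidAlgebra.mapDomain_injective h)

/-- an elementary matrix as an element of the elementary group -/
def elm {R : Type} [Ring R] (i j : Fin 3) (h : i ≠ j) (a : R) : E3 R :=
  ⟨el i j h a, Subgroup.subset_closure ⟨i, j, h, a, rfl⟩⟩

theorem elm_inj {R : Type} [Ring R] {i j : Fin 3} (h : i ≠ j) {a b : R}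
    (e : elm i j h a = elm i j h b) : a = b := by
  have h1 := congrArg (fun x : E3 R =>
    ((x : (Matrix (Fin 3) (Fin 3) R)ˣ) : Matrix (Fin 3) (Fin 3) R) i j) e
  have h2 : ∀ c : R, ((elm i j h c : (Matrix (Fin 3) (Fin 3) R)ˣ) :
      Matrix (Fin 3) (Fin 3) R) i j = c := by
    intro c
    show (1 + Matrix.single i j c : Matrix (Fin 3) (Fin 3) R) i j = c
    rw [Matrix.add_apply, Matrix.one_apply_ne h, Matrix.single_apply_same, zero_add]
  simpa only [h2] using h1

theorem e3a_elm {E E' : Type} [AddCommGroup E] [AddCommGroup E'] (u : E →+ E') {i j : Fin 3}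
    (h : i ≠ j) (a : A E) :
    e3a u (elm i j h a) =
      elm i j h (AddMonoidAlgebra.mapDomainRingHom (ZMod 257) u a) :=
  Subtype.ext (um_el _ i j h a)

theorem map_single {E E' : Type} [AddCommGroup E] [AddCommGroup E'] (u : E →+ E') (a : E) :
    AddMonoidAlgebra.mapDomainRingHom (ZMod 257) u (AddMonoidAlgebra.single a 1) =
      (AddMonoidAlgebra.single (u a) 1 : A E') :=
  AddMonoidAlgebra.mapDomain_single

theorem one_ne : (1 : ZMod 257) ≠ 0 := by decide

theorem single_inj {E : Type} [AddCommGroup E] {a b : E}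
    (h : (AddMonoidAlgebra.single a 1 : A E) = AddMonoidAlgebra.single b 1) : a = b :=
  AddMonoidAlgebra.single_left_injective one_ne h

theorem jm_inj (m : ℤ) (hm : m ≠ 0) : Function.Injective (jm m) := by
  apply e3a_inj
  intro a b e
  have h1 : (m : ℚ) * (a : ℚ) = (m : ℚ) * (b : ℚ) := e
  have h2 : (m : ℚ) ≠ 0 := by exact_mod_cast hm
  have h3 := mul_left_cancel₀ h2 h1
  exact_mod_cast h3

theorem half_jm (g : LZ) : half (jm 2 g) = jm 1 g := by
  show e3a (AddMonoidHom.mulLeft (1 / 2 : ℚ)) (e3a _ g) = e3a _ g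
  rw [e3a_comp]
  congr 2
  ext
  simp

theorem jm_two (g : LZ) : jm 2 g = jm 1 (e3a (AddMonoidHom.mulLeft (2 : ℤ)) g) := by
  show e3a _ g = e3a _ (e3a _ g)
  rw [e3a_comp]
  congr 2
  ext
  simp

theorem jm_mem (g : LZ) : jm 2 g ∈ HQ := by
  show e3a ea (e3a _ g) = e3a eb (e3a _ g)
  rw [e3a_comp, e3a_comp]
  congr 2
  ext
  · simp [ea, eb]
  · have h : (QuotientAddGroup.mk (2 : ℚ) : ℚ ⧸ AddSubgroup.zmultiples (2 : ℚ)) = 0 :=
      (QuotientAddGroup.eq_zero_iff _).2 (AddSubgroup.mem_zmultiples _)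
    simp [ea, eb, h]

theorem not_mem : jm 1 (elm 0 1 (by decide) (AddMonoidAlgebra.single 1 1 : A ℤ)) ∉ HQ := by
  intro e
  have e1 : e3a ea (jm 1 (elm 0 1 (by decide) (AddMonoidAlgebra.single 1 1 : A ℤ))) =
      e3a eb (jm 1 (elm 0 1 (by decide) (AddMonoidAlgebra.single 1 1 : A ℤ))) := e
  unfold jm at e1
  rw [e3a_comp, e3a_comp, e3a_elm, e3a_elm, map_single, map_single] at e1
  have e2 := single_inj (elm_inj _ e1)
  have e3 := congrArg Prod.snd e2
  have e4 : (QuotientAddGroup.mk ((1 : ℤ) * ((1 : ℤ) : ℚ)) :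
      ℚ ⧸ AddSubgroup.zmultiples (2 : ℚ)) = 0 := e3.symm
  rw [QuotientAddGroup.eq_zero_iff, AddSubgroup.mem_zmultiples_iff] at e4
  obtain ⟨k, hk⟩ := e4
  have h5 : ((k * 2 : ℤ) : ℚ) = ((1 : ℤ) : ℚ) := by
    push_cast
    rw [zsmul_eq_mul] at hk
    rw [hk]
    simp
  have h6 : k * 2 = 1 := by exact_mod_cast h5
  omega

theorem infinite_LZ : Infinite LZ := by
  refine Infinite.of_injective (fun n : ℤ =>
    (elm 0 1 (by decide) (AddMonoidAlgebra.single n 1 : A ℤ) : LZ)) ?_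
  intro a b e
  exact single_inj (elm_inj _ e)

theorem main : S_JM :=
  ⟨jm_inj, half_jm, fun g => ⟨_, jm_two g⟩, jm_mem, ⟨_, not_mem⟩, infinite_LZ⟩

end

end Pool.Agent.N829.OM.JM_
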