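import Pool.Agent.N829.OM.StmV
import Pool.Agent.Helper436.SN.Bridge

/-!
# Project OM, part NG: non-Gamma from two Kazhdan subgroups (helper712)
-/

set_option autoImplicit false

namespace Pool.Agent.N829.OM.NG_

open Filter
open scoped Topology InnerProductSpace
open Pool.Agent.Helper278 (EllTwo permOp permOp_apply permOp_mul permOp_refl star_permOp Elt LK
  trG lamK rhoK permK coef_permK lamK_basis permK_basis comm_right)
open Pool.Agent.Helper278.RG (La TL N2 trG_star_mul)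
open Pool.Agent.Helper278.CE (sb)
open Pool.Agent.W661.RC (HasT)
open Pool.Agent.Helper436.SN (IsICC trL HasGamma transport)

noncomputable section

theorem norm_sq {G : Type} (v : EllTwo G) : HasSum (fun g => ‖v g‖ ^ 2) (‖v‖ ^ 2) := by
  have h := lp.hasSum_norm (p := 2) (by norm_num) v
  have h2 : (2 : ENNReal).toReal = 2 := by norm_num
  rw [h2] at h
  simpa using h

theorem norm_permOp {G : Type} (e : G ≃ G) (v : EllTwo G) : ‖permOp e v‖ = ‖v‖ := by
  have h1 : ‖permOp e v‖ ^ 2 = ‖v‖ ^ 2 :=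
    (norm_sq (permOp e v)).unique
      ((e.hasSum_iff (f := fun g => ‖v g‖ ^ 2) (a := ‖v‖ ^ 2)).2 (norm_sq v))
  exact (pow_left_inj₀ (norm_nonneg _) (norm_nonneg _) two_ne_zero).1 h1

/-- the unitary representation given by an action -/
def rep (K Y : Type) [Group K] [MulAction K Y] : K →* unitary (EllTwo Y →L[ℂ] EllTwo Y) where
  toFun g := ⟨permOp (MulAction.toPerm g⁻¹ : Equiv.Perm Y), by
    rw [Unitary.mem_iff, star_permOp, permOp_mul, permOp_mul]
    constructor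
    · rw [Equiv.symm_trans_self, permOp_refl]
    · rw [Equiv.self_trans_symm, permOp_refl]⟩
  map_one' := by
    apply Subtype.ext
    show permOp (MulAction.toPerm (1 : K)⁻¹ : Equiv.Perm Y) = 1
    rw [inv_one, MulAction.toPerm_one]
    exact permOp_refl
  map_mul' g h := by
    apply Subtype.ext
    show permOp (MulAction.toPerm (g * h)⁻¹ : Equiv.Perm Y) =
      permOp (MulAction.toPerm g⁻¹ : Equiv.Perm Y) * permOp (MulAction.toPerm h⁻¹ : Equiv.Perm Y)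
    rw [permOp_mul]
    congr 1
    ext y
    show (g * h)⁻¹ • y = h⁻¹ • (g⁻¹ • y)
    rw [mul_inv_rev, mul_smul]

theorem rep_apply {K Y : Type} [Group K] [MulAction K Y] (g : K) (v : EllTwo Y) (y : Y) :
    ((rep K Y g : EllTwo Y →L[ℂ] EllTwo Y) v) y = v (g⁻¹ • y) := rfl

theorem gap {K Y : Type} [Group K] [MulAction K Y] (hT : HasT K)
    (hinf : ∀ y : Y, (Set.range fun k : K => k • y).Infinite) :
    ∃ (E : Finset K) (ε : ℝ), 0 < ε ∧ ∀ v : EllTwo Y,
      ε * ‖v‖ ≤ ∑ g ∈ E, ‖(rep K Y g : EllTwo Y →L[ℂ] EllTwo Y) v - v‖ := by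
  by_contra hcon
  push Not at hcon
  obtain ⟨v, hv0, hv⟩ := hT (EllTwo Y) (rep K Y) (by
    intro E ε hε
    obtain ⟨w, hw⟩ := hcon E ε hε
    have hnn : 0 ≤ ∑ g ∈ E, ‖(rep K Y g : EllTwo Y →L[ℂ] EllTwo Y) w - w‖ :=
      Finset.sum_nonneg fun _ _ => norm_nonneg _
    have hw0 : 0 < ‖w‖ := by
      by_contra h
      have h0 : ‖w‖ = 0 := le_antisymm (not_lt.1 h) (norm_nonneg _)
      rw [h0, mul_zero] at hw
      linarith
    refine ⟨((‖w‖⁻¹ : ℝ) : ℂ) • w, ?_, ?_⟩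
    · rw [norm_smul, Complex.norm_real, norm_inv, norm_norm, inv_mul_cancel₀ hw0.ne']
    · intro g hg
      rw [map_smul, ← smul_sub, norm_smul, Complex.norm_real, norm_inv, norm_norm]
      have h1 : ‖(rep K Y g : EllTwo Y →L[ℂ] EllTwo Y) w - w‖ ≤
          ∑ g ∈ E, ‖(rep K Y g : EllTwo Y →L[ℂ] EllTwo Y) w - w‖ :=
        Finset.single_le_sum (f := fun g => ‖(rep K Y g : EllTwo Y →L[ℂ] EllTwo Y) w - w‖)
          (fun _ _ => norm_nonneg _) hg
      rw [inv_mul_lt_iff₀ hw0]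
      linarith)
  apply hv0
  have hc : ∀ (k : K) (y : Y), v (k • y) = v y := by
    intro k y
    have h := congrArg (fun f : EllTwo Y => f (k • y)) (hv k)
    have h2 : v (k⁻¹ • (k • y)) = v (k • y) := h
    rw [inv_smul_smul] at h2
    exact h2.symm
  ext y
  by_contra hy
  have hs := (norm_sq v).summable.tendsto_cofinite_zero
  have hy' : 0 < ‖v y‖ ^ 2 := by
    have : 0 < ‖v y‖ := norm_pos_iff.2 hy
    positivity
  have h3 := hs.eventually (gt_mem_nhds hy')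
  rw [Filter.eventually_cofinite] at h3
  refine hinf y (h3.subset ?_)
  rintro _ ⟨k, rfl⟩
  show ¬ (‖v (k • y)‖ ^ 2 < ‖v y‖ ^ 2)
  rw [hc]
  exact lt_irrefl _

/-- restriction of functions -/
def res {P : Type} (Y : Set P) (v : EllTwo P) : EllTwo Y := ⟨fun y => v y, by
  have h1 := (lp.memℓp v).summable (by norm_num)
  exact memℓp_gen (h1.comp_injective Subtype.val_injective)⟩

theorem res_apply {P : Type} (Y : Set P) (v : EllTwo P) (y : Y) : res Y v y = v y := rfl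

theorem res_sum {P : Type} (Y : Set P) (v : EllTwo P) :
    HasSum (Y.indicator fun g => ‖v g‖ ^ 2) (‖res Y v‖ ^ 2) := by
  rw [← hasSum_subtype_iff_indicator]
  exact norm_sq (res Y v)

theorem res_le {P : Type} (Y : Set P) (v : EllTwo P) : ‖res Y v‖ ≤ ‖v‖ := by
  have h := hasSum_le (fun g => Set.indicator_le_self' (s := Y) (f := fun g => ‖v g‖ ^ 2)
    (fun _ _ => by positivity) g) (res_sum Y v) (norm_sq v)
  exact le_of_sq_le_sq h (norm_nonneg _)

theorem res_cover {P : Type} (Y1 Y2 : Set P) (v : EllTwo P) (e : P) (he : v e = 0)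
    (h : ∀ x, x ≠ e → x ∈ Y1 ∨ x ∈ Y2) : ‖v‖ ^ 2 ≤ ‖res Y1 v‖ ^ 2 + ‖res Y2 v‖ ^ 2 := by
  refine hasSum_le ?_ (norm_sq v) ((res_sum Y1 v).add (res_sum Y2 v))
  intro x
  have n1 : 0 ≤ Y1.indicator (fun g => ‖v g‖ ^ 2) x := Set.indicator_nonneg (fun _ _ => by positivity) x
  have n2 : 0 ≤ Y2.indicator (fun g => ‖v g‖ ^ 2) x := Set.indicator_nonneg (fun _ _ => by positivity) x
  by_cases hx : x = e
  · rw [hx, he, norm_zero]
    rw [hx] at n1 n2
    have : (0 : ℝ) ^ 2 = 0 := by norm_num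
    rw [this]
    exact add_nonneg n1 n2
  · rcases h x hx with h1 | h2
    · have e1 : Y1.indicator (fun g => ‖v g‖ ^ 2) x = ‖v x‖ ^ 2 := Set.indicator_of_mem h1 _
      show ‖v x‖ ^ 2 ≤ Y1.indicator (fun g => ‖v g‖ ^ 2) x + Y2.indicator (fun g => ‖v g‖ ^ 2) x
      linarith
    · have e1 : Y2.indicator (fun g => ‖v g‖ ^ 2) x = ‖v x‖ ^ 2 := Set.indicator_of_mem h2 _
      show ‖v x‖ ^ 2 ≤ Y1.indicator (fun g => ‖v g‖ ^ 2) x + Y2.indicator (fun g => ‖v g‖ ^ 2) x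
      linarith

variable {P : Type} [Group P]

/-- the elements with infinitely many conjugates under `K` -/
def YY (K : Subgroup P) : Set P := {x | (Set.range fun a : K => (a : P) * x * (a : P)⁻¹).Infinite}

theorem YY_conj (K : Subgroup P) (k : K) {x : P} (hx : x ∈ YY K) :
    (k : P) * x * (k : P)⁻¹ ∈ YY K := by
  refine Set.Infinite.mono ?_ hx
  rintro _ ⟨a, rfl⟩
  refine ⟨a * k⁻¹, ?_⟩
  show ((a * k⁻¹ : K) : P) * (k * x * (k : P)⁻¹) * ((a * k⁻¹ : K) : P)⁻¹ = a * x * (a : P)⁻¹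
  rw [Subgroup.coe_mul, Subgroup.coe_inv]
  group

/-- the conjugation action -/
@[instance_reducible] def act (K : Subgroup P) : MulAction K (YY K) where
  smul k x := ⟨k * x * (k : P)⁻¹, YY_conj K k x.2⟩
  one_smul x := Subtype.ext (by
    show ((1 : K) : P) * x * ((1 : K) : P)⁻¹ = x
    rw [Subgroup.coe_one]
    group)
  mul_smul a c x := Subtype.ext (by
    show ((a * c : K) : P) * x * ((a * c : K) : P)⁻¹ = a * (c * x * (c : P)⁻¹) * (a : P)⁻¹
    rw [Subgroup.coe_mul]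
    group)

/-- the conjugation operator -/
def cj (g : P) (v : EllTwo P) : EllTwo P := permOp (MulAut.conj g⁻¹).toEquiv v

theorem cj_apply (g : P) (v : EllTwo P) (h : P) : cj g v h = v (g⁻¹ * h * g) := by
  show v (g⁻¹ * h * (g⁻¹)⁻¹) = _
  rw [inv_inv]

theorem gapP (K : Subgroup P) (hT : HasT K) :
    ∃ (E : Finset P) (ε : ℝ), 0 < ε ∧ ∀ v : EllTwo P,
      ε * ‖res (YY K) v‖ ≤ ∑ g ∈ E, ‖cj g v - v‖ := by
  classical
  let _ := act K
  obtain ⟨E, ε, hε, h⟩ := gap (K := K) (Y := YY K) hT (by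
    intro y
    refine Set.Infinite.of_image Subtype.val ?_
    refine Set.Infinite.mono ?_ y.2
    rintro _ ⟨a, rfl⟩
    exact ⟨a • y, ⟨a, rfl⟩, rfl⟩)
  refine ⟨E.image Subtype.val, ε, hε, fun v => ?_⟩
  refine (h (res (YY K) v)).trans ?_
  rw [Finset.sum_image (by intro a _ c _ hac; exact Subtype.ext hac)]
  refine Finset.sum_le_sum fun g _ => ?_
  have h1 : (rep K (YY K) g : EllTwo (YY K) →L[ℂ] EllTwo (YY K)) (res (YY K) v) - res (YY K) v =
      res (YY K) (cj (g : P) v - v) := by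
    ext y
    show v ((g⁻¹ • y : YY K) : P) - v y = (cj (g : P) v) y - v y
    rw [cj_apply]
    have e : ((g⁻¹ • y : YY K) : P) = (g : P)⁻¹ * y * g := by
      show ((g⁻¹ : K) : P) * y * ((g⁻¹ : K) : P)⁻¹ = _
      rw [Subgroup.coe_inv, inv_inv]
    rw [e]
  rw [h1]
  exact res_le _ _

theorem cj_norm (g : P) (v : EllTwo P) :
    ‖permOp (Equiv.mulRight g⁻¹) v - permOp (Equiv.mulLeft g⁻¹) v‖ = ‖cj g v - v‖ := by
  rw [← norm_permOp (Equiv.mulRight g)
    (permOp (Equiv.mulRight g⁻¹) v - permOp (Equiv.mulLeft g⁻¹) v), ← norm_neg]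
  congr 1
  ext h
  rw [lp.coeFn_sub, Pi.sub_apply, cj_apply]
  show -(v (h * g * g⁻¹) - v (g⁻¹ * (h * g))) = _
  rw [mul_inv_cancel_right, ← mul_assoc, neg_sub]

variable {H : Type} [NormedAddCommGroup H] [InnerProductSpace ℂ H] [CompleteSpace H]

omit [Group P] in
theorem repr_permK (b : HilbertBasis P ℂ H) (e : P ≃ P) (f : H) :
    b.repr (permK b e f) = permOp e (b.repr f) := by
  ext h
  rw [b.repr_apply_apply, coef_permK, permOp_apply, b.repr_apply_apply]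

theorem comm_norm (b : HilbertBasis P ℂ H) (u : Elt (LK b)) (g : P) :
    N2 b (u * La b g - La b g * u) =
      ‖cj g (b.repr ((u : H →L[ℂ] H) (b 1))) - b.repr ((u : H →L[ℂ] H) (b 1))‖ := by
  rw [← cj_norm]
  show ‖(u : H →L[ℂ] H) (lamK b g (b 1)) - lamK b g ((u : H →L[ℂ] H) (b 1))‖ = _
  have h1 : lamK b g (b 1) = rhoK b g⁻¹ (b 1) := by
    rw [lamK_basis]
    unfold rhoK
    rw [permK_basis]
    congr 1
    show g * 1 = 1 * (g⁻¹)⁻¹
    group
  have h2 : (u : H →L[ℂ] H) (rhoK b g⁻¹ (b 1)) = rhoK b g⁻¹ ((u : H →L[ℂ] H) (b 1)) :=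
    (congrArg (fun z : H →L[ℂ] H => z (b 1)) (comm_right b _ u.2 g⁻¹)).symm
  rw [h1, h2, ← b.repr.norm_map, map_sub]
  unfold rhoK lamK
  rw [repr_permK, repr_permK]

theorem norm2_eq (b : HilbertBasis P ℂ H) (x : Elt (LK b)) :
    Pool.Agent.Helper278.norm2 (fun x : Elt (LK b) => (TL b).τ x) x = N2 b x := by
  show Real.sqrt ((TL b).τ (star x * x)).re = N2 b x
  have h1 : (TL b).τ (star x * x) = ((N2 b x ^ 2 : ℝ) : ℂ) := trG_star_mul b x
  rw [h1, Complex.ofReal_re, Real.sqrt_sq (show 0 ≤ N2 b x from norm_nonneg _)]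

theorem notGamma (b : HilbertBasis P ℂ H) (K1 K2 : Subgroup P) (h1 : HasT K1) (h2 : HasT K2)
    (hc : ∀ x : P, x ≠ 1 → x ∈ YY K1 ∨ x ∈ YY K2) :
    ¬ HasGamma (fun x : Elt (LK b) => (TL b).τ x) := by
  rintro ⟨u, hu, htr, hlim⟩
  obtain ⟨ξ, hξ⟩ : ∃ ξ : ℕ → EllTwo P, ξ = fun n => b.repr ((u n : H →L[ℂ] H) (b 1)) := ⟨_, rfl⟩
  have hg : ∀ g : P, Tendsto (fun n => ‖cj g (ξ n) - ξ n‖) atTop (𝓝 0) := by
    intro g
    refine (hlim (La b g)).congr fun n => ?_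
    rw [norm2_eq, comm_norm, hξ]
  have hr : ∀ K : Subgroup P, HasT K →
      Tendsto (fun n => ‖res (YY K) (ξ n)‖) atTop (𝓝 0) := by
    intro K hK
    obtain ⟨E, ε, hε, hE⟩ := gapP K hK
    have h3 : Tendsto (fun n => ε⁻¹ * ∑ g ∈ E, ‖cj g (ξ n) - ξ n‖) atTop (𝓝 0) := by
      have h4 : Tendsto (fun n => ∑ g ∈ E, ‖cj g (ξ n) - ξ n‖) atTop (𝓝 (∑ g ∈ E, (0 : ℝ))) :=
        tendsto_finsetSum _ fun g _ => hg g
      rw [Finset.sum_const_zero] at h4
      have h5 := h4.const_mul ε⁻¹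
      rwa [mul_zero] at h5
    refine squeeze_zero (fun n => norm_nonneg _) (fun n => ?_) h3
    rw [← div_eq_inv_mul, le_div_iff₀ hε, mul_comm]
    exact hE (ξ n)
  have hone : ∀ n, ‖ξ n‖ = 1 := by
    intro n
    rw [hξ]
    show ‖b.repr ((u n : H →L[ℂ] H) (b 1))‖ = 1
    rw [b.repr.norm_map]
    show N2 b (u n) = 1
    have h3 := trG_star_mul b (u n)
    rw [(Unitary.mem_iff.1 (hu n)).1] at h3
    have h4 : trG b 1 = 1 := (Pool.Agent.Helper278.isTr_trG b).one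
    rw [h4] at h3
    have h5 : N2 b (u n) ^ 2 = 1 := by exact_mod_cast h3.symm
    have h6 : 0 ≤ N2 b (u n) := norm_nonneg _
    nlinarith
  have hzero : ∀ n, ξ n 1 = 0 := by
    intro n
    rw [hξ]
    show b.repr ((u n : H →L[ℂ] H) (b 1)) 1 = 0
    rw [b.repr_apply_apply]
    exact htr n
  have h3 : Tendsto (fun n => ‖res (YY K1) (ξ n)‖ ^ 2 + ‖res (YY K2) (ξ n)‖ ^ 2) atTop
      (𝓝 (0 ^ 2 + 0 ^ 2)) := ((hr K1 h1).pow 2).add ((hr K2 h2).pow 2)
  have h4 : (1 : ℝ) ≤ 0 ^ 2 + 0 ^ 2 := by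
    refine ge_of_tendsto' h3 fun n => ?_
    have h5 := res_cover (YY K1) (YY K2) (ξ n) 1 (hzero n) hc
    rw [hone n, one_pow] at h5
    exact h5
  norm_num at h4

theorem main : S_NG := by
  intro P _ K1 K2 hinf h1 h2 hc
  refine ⟨⟨hinf, fun g hg => ?_⟩, ?_⟩
  · rcases hc g hg with h | h
    · refine h.mono ?_
      rintro _ ⟨a, rfl⟩
      exact ⟨a, rfl⟩
    · refine h.mono ?_
      rintro _ ⟨a, rfl⟩
      exact ⟨a, rfl⟩
  · refine transport P (fun N τ => ¬ HasGamma τ) ?_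
    exact notGamma (sb P) K1 K2 h1 h2 hc

end

end Pool.Agent.N829.OM.NG_
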