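import Pool.Agent.N829.OM.StmG
import Pool.Agent.N44.HL.G

/-!
# Extensions of a hyperlinear group by an automorphism are hyperlinear
-/

set_option autoImplicit false

namespace Pool.Agent.N829.OM.NZ_

open Finset Matrix Filter Topology Pool.Agent.H21R2 Pool.Agent.H80R2.HG Pool.Agent.W626
open Pool.Agent.N44.HL
open scoped Matrix.Norms.Frobenius Kronecker

section curry

variable {J : Type} {F : Filter J}

theorem curry_tendsto {f : ℕ × J → ℝ} (h : ∀ M, Tendsto (fun i => f (M, i)) F (𝓝 0)) :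
    Tendsto f (Filter.curry atTop F) (𝓝 0) := by
  rw [Metric.tendsto_nhds]
  intro ε hε
  rw [Filter.eventually_curry_iff]
  refine Eventually.of_forall fun M => ?_
  exact (Metric.tendsto_nhds.1 (h M)) ε hε

theorem curry_squeeze {f : ℕ × J → ℝ} {g : ℕ → ℝ} (h0 : ∀ p, 0 ≤ f p)
    (h : ∀ p, f p ≤ g p.1) (hg : Tendsto g atTop (𝓝 0)) :
    Tendsto f (Filter.curry atTop F) (𝓝 0) := by
  rw [Metric.tendsto_nhds]
  intro ε hε
  rw [Filter.eventually_curry_iff]
  filter_upwards [(Metric.tendsto_nhds.1 hg) ε hε] with M hM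
  refine Eventually.of_forall fun i => ?_
  rw [dist_zero_right, Real.norm_eq_abs] at hM ⊢
  rw [abs_of_nonneg (h0 _)]
  exact (h (M, i)).trans_lt ((le_abs_self _).trans_lt hM)

theorem curry_neBot [F.NeBot] : (Filter.curry (atTop : Filter ℕ) F).NeBot := by
  constructor
  intro h
  have h1 : ∀ᶠ _ in Filter.curry (atTop : Filter ℕ) F, False := by
    rw [h]
    exact Filter.eventually_bot
  rw [Filter.eventually_curry_iff] at h1
  obtain ⟨_, h2⟩ := h1.exists
  obtain ⟨_, h3⟩ := h2.exists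
  exact h3

end curry

section blocks

variable {X I : Type} [Fintype X] [DecidableEq X] [Fintype I] [DecidableEq I]

theorem tU_dU (f : unitaryGroup I ℂ) (U V : I → unitaryGroup X ℂ)
    (h : ∀ k l, f.1 k l ≠ 0 → V k = U l) : tU f * dU U = dU V * tU f := by
  apply Subtype.ext
  change ((1 : Matrix X X ℂ) ⊗ₖ f.1) * blockDiagonal (fun k => (U k).1) =
    blockDiagonal (fun k => (V k).1) * ((1 : Matrix X X ℂ) ⊗ₖ f.1)
  ext ⟨x, k⟩ ⟨y, l⟩
  rw [mul_apply, mul_apply, Fintype.sum_prod_type, Fintype.sum_prod_type]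
  have e1 : ∀ z, ∑ m, ((1 : Matrix X X ℂ) ⊗ₖ f.1) (x, k) (z, m) *
      blockDiagonal (fun k => (U k).1) (z, m) (y, l) =
        if x = z then f.1 k l * (U l).1 z y else 0 := by
    intro z
    rw [sum_eq_single l]
    · simp only [kroneckerMap_apply, blockDiagonal_apply, if_true, one_apply]
      split_ifs <;> simp
    · intro m _ hm
      simp [blockDiagonal_apply, hm]
    · simp
  have e2 : ∀ z, ∑ m, blockDiagonal (fun k => (V k).1) (x, k) (z, m) *
      ((1 : Matrix X X ℂ) ⊗ₖ f.1) (z, m) (y, l) =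
        if z = y then (V k).1 x z * f.1 k l else 0 := by
    intro z
    rw [sum_eq_single k]
    · simp only [kroneckerMap_apply, blockDiagonal_apply, if_true, one_apply]
      split_ifs <;> simp
    · intro m _ hm
      simp [blockDiagonal_apply, Ne.symm hm]
    · simp
  simp_rw [e1, e2]
  rw [sum_ite_eq, sum_ite_eq']
  simp only [mem_univ, if_true]
  by_cases hf : f.1 k l = 0
  · rw [hf, zero_mul, mul_zero]
  · rw [h k l hf, mul_comm]

theorem dU_sub_norm_le (U V : I → unitaryGroup X ℂ) :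
    ‖(dU U).1 - (dU V).1‖ ≤ ∑ k, ‖(U k).1 - (V k).1‖ := by
  have e : (dU U).1 - (dU V).1 = blockDiagonal fun k => (U k).1 - (V k).1 := by
    change blockDiagonal (fun k => (U k).1) - blockDiagonal (fun k => (V k).1) = _
    rw [← blockDiagonal_sub]
    rfl
  rw [e]
  exact norm_blockDiagonal_le _

theorem dU_sub_one_norm (U : I → unitaryGroup X ℂ) :
    ‖(dU U).1 - 1‖ ^ 2 = ∑ k, ‖(U k).1 - 1‖ ^ 2 := by
  have e : (dU U).1 - 1 = blockDiagonal fun k => (U k).1 - 1 := by
    change blockDiagonal (fun k => (U k).1) - 1 = _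
    rw [← blockDiagonal_one, ← blockDiagonal_sub]
    rfl
  rw [e, norm_sq_eq, fro2_blockDiagonal]
  exact sum_congr rfl fun k _ => (norm_sq_eq _).symm

end blocks

section ext

variable {N : Type} [Group N] (τ : MulAut N) (S : Sys N)

/-- the blocks -/
def bl (n : N) (i : S.J) (M : ℕ) : Fin (M + 1) → unitaryGroup (S.X i) ℂ :=
  fun r => S.φ i ((τ ^ (-(r.1 : ℤ))) n)

/-- the sequence of block matrices -/
def as (n : N) : ∀ p : ℕ × S.J, unitaryGroup (S.X p.2 × Fin (p.1 + 1)) ℂ :=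
  fun p => dU (bl τ S n p.2 p.1)

/-- the shift -/
def ts : ∀ p : ℕ × S.J, unitaryGroup (S.X p.2 × Fin (p.1 + 1)) ℂ :=
  fun p => tU (pm (finRotate (p.1 + 1)))

/-- the scale -/
noncomputable def cs (p : ℕ × S.J) : ℝ := S.c p.2 * Real.sqrt ((p.1 : ℝ) + 1)

theorem cs_pos (p : ℕ × S.J) : 0 < cs S p :=
  mul_pos (S.cpos _) (Real.sqrt_pos.2 (by positivity))

theorem c_le_cs (p : ℕ × S.J) : S.c p.2 ≤ cs S p := by
  have h1 : (1 : ℝ) ≤ Real.sqrt ((p.1 : ℝ) + 1) := by
    rw [Real.one_le_sqrt]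
    have : (0 : ℝ) ≤ p.1 := Nat.cast_nonneg _
    linarith
  have h2 := S.cpos p.2
  unfold cs
  nlinarith

/-- the limit group -/
abbrev QQ : Type :=
  (∀ p : ℕ × S.J, unitaryGroup (S.X p.2 × Fin (p.1 + 1)) ℂ) ⧸
    Nl (Filter.curry atTop S.F) (fun p : ℕ × S.J => S.X p.2 × Fin (p.1 + 1)) (cs S)

theorem QQeq {U V : ∀ p : ℕ × S.J, unitaryGroup (S.X p.2 × Fin (p.1 + 1)) ℂ} :
    (U : QQ S) = V ↔
      Tendsto (fun p => ‖(U p).1 - (V p).1‖ / cs S p) (Filter.curry atTop S.F) (𝓝 0) := by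
  rw [eq_iff (Filter.curry atTop S.F) (fun p : ℕ × S.J => S.X p.2 × Fin (p.1 + 1)) (cs S)]
  have : ∀ p, |cs S p| = cs S p := fun p => abs_of_pos (cs_pos S p)
  simp_rw [this]

theorem as_mul (m n : N) : ((as τ S (m * n) : ∀ p : ℕ × S.J,
    unitaryGroup (S.X p.2 × Fin (p.1 + 1)) ℂ) : QQ S) =
      (as τ S m : QQ S) * (as τ S n : QQ S) := by
  rw [← QuotientGroup.mk_mul, QQeq]
  apply curry_tendsto
  intro M
  have h : Tendsto (fun i => ∑ r : Fin (M + 1),
      ‖(S.φ i (((τ ^ (-(r.1 : ℤ))) m) * ((τ ^ (-(r.1 : ℤ))) n))).1 -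
        (S.φ i ((τ ^ (-(r.1 : ℤ))) m)).1 * (S.φ i ((τ ^ (-(r.1 : ℤ))) n)).1‖ /
      S.c i) S.F (𝓝 0) := by
    have := tendsto_finsetSum (univ : Finset (Fin (M + 1))) fun r _ =>
      S.mul ((τ ^ (-(r.1 : ℤ))) m) ((τ ^ (-(r.1 : ℤ))) n)
    simpa using this
  refine squeeze_zero (fun i => div_nonneg (norm_nonneg _) (cs_pos S (M, i)).le) (fun i => ?_) h
  rw [← sum_div]
  have e : ‖(as τ S (m * n) (M, i)).1 - ((as τ S m * as τ S n) (M, i)).1‖ ≤
      ∑ r : Fin (M + 1), ‖(S.φ i (((τ ^ (-(r.1 : ℤ))) m) * ((τ ^ (-(r.1 : ℤ))) n))).1 -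
        (S.φ i ((τ ^ (-(r.1 : ℤ))) m)).1 * (S.φ i ((τ ^ (-(r.1 : ℤ))) n)).1‖ := by
    have e1 : (as τ S m * as τ S n) (M, i) = dU (bl τ S m i M * bl τ S n i M) := by
      rw [dU_mul]
      rfl
    rw [e1]
    refine (dU_sub_norm_le _ _).trans (le_of_eq ?_)
    refine sum_congr rfl fun r _ => ?_
    change ‖(S.φ i ((τ ^ (-(r.1 : ℤ))) (m * n))).1 - _‖ = _
    rw [map_mul]
    rfl
  exact div_le_div₀ (sum_nonneg fun _ _ => norm_nonneg _) e (S.cpos i) (c_le_cs S (M, i))

/-- the representation of `N` -/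
noncomputable def fa : N →* QQ S :=
  MonoidHom.mk' (fun n => (as τ S n : QQ S)) (as_mul τ S)

/-- the generator of the cyclic group -/
noncomputable def ft : QQ S := (ts S : QQ S)

theorem norm_phi (i : S.J) (n : N) : ‖(S.φ i n).1‖ = S.c i := by
  rw [norm_unitary, ← S.cc, Real.sqrt_sq (S.cpos i).le]

theorem conj_fa (n : N) : ft S * fa τ S n = fa τ S (τ n) * ft S := by
  change ((ts S : ∀ p : ℕ × S.J, unitaryGroup (S.X p.2 × Fin (p.1 + 1)) ℂ) : QQ S) *
    (as τ S n : QQ S) = (as τ S (τ n) : QQ S) * (ts S : QQ S)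
  rw [← QuotientGroup.mk_mul, ← QuotientGroup.mk_mul, QQeq]
  have hlim : Tendsto (fun M : ℕ => 2 / Real.sqrt ((M : ℝ) + 1)) atTop (𝓝 0) := by
    have h1 : Tendsto (fun M : ℕ => Real.sqrt ((M : ℝ) + 1)) atTop atTop :=
      Real.tendsto_sqrt_atTop.comp (tendsto_atTop_add_const_right _ _ tendsto_natCast_atTop_atTop)
    exact h1.const_div_atTop 2
  refine curry_squeeze (fun p => div_nonneg (norm_nonneg _) (cs_pos S p).le) (fun p => ?_) hlim
  obtain ⟨M, i⟩ := p
  -- the shifted blocks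
  let V : Fin (M + 1) → unitaryGroup (S.X i) ℂ := fun r =>
    bl τ S n i M ((finRotate (M + 1)).symm r)
  have h1 : tU (pm (finRotate (M + 1))) * dU (bl τ S n i M) =
      dU V * tU (pm (finRotate (M + 1))) := by
    apply tU_dU
    intro k l hkl
    have hk : k = finRotate (M + 1) l := by
      by_contra hne
      apply hkl
      change (Matrix.of fun i j => if i = (finRotate (M + 1)) j then (1 : ℂ) else 0) k l = 0
      rw [of_apply, if_neg hne]
    simp only [V]
    rw [hk, Equiv.symm_apply_apply]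
  have h2 : ‖((ts S * as τ S n) (M, i)).1 - ((as τ S (τ n) * ts S) (M, i)).1‖ =
      ‖(dU V).1 - (dU (bl τ S (τ n) i M)).1‖ := by
    have e1 : (ts S * as τ S n) (M, i) = dU V * tU (pm (finRotate (M + 1))) := h1
    have e2 : (as τ S (τ n) * ts S) (M, i) =
      dU (bl τ S (τ n) i M) * tU (pm (finRotate (M + 1))) := rfl
    rw [e1, e2]
    change ‖(dU V).1 * (tU (pm (finRotate (M + 1)))).1 -
      (dU (bl τ S (τ n) i M)).1 * (tU (pm (finRotate (M + 1)))).1‖ = _
    rw [← Matrix.sub_mul, norm_mul_unitary]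
  rw [h2]
  have h3 : ‖(dU V).1 - (dU (bl τ S (τ n) i M)).1‖ ≤ 2 * S.c i := by
    refine (dU_sub_norm_le _ _).trans ?_
    rw [Fin.sum_univ_succ, Finset.sum_eq_zero, add_zero]
    · refine (norm_sub_le _ _).trans ?_
      simp only [V, bl, norm_phi]
      linarith
    · intro r _
      have e : V r.succ = bl τ S (τ n) i M r.succ := by
        have e0 : (finRotate (M + 1)).symm r.succ = r.castSucc := by
          rw [Equiv.symm_apply_eq, finRotate_apply, Fin.coeSucc_eq_succ]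
        simp only [V, bl]
        rw [e0]
        congr 1
        have e3 : (τ ^ (-((r.castSucc : Fin (M + 1)).1 : ℤ))) n =
            (τ ^ (-((r.succ : Fin (M + 1)).1 : ℤ)) * τ) n := by
          rw [← _root_.zpow_add_one]
          congr 2
          rw [Fin.val_castSucc, Fin.val_succ]
          push_cast
          ring
        exact e3
      rw [e, sub_self, norm_zero]
  have h4 := S.cpos i
  have h5 : 0 < Real.sqrt ((M : ℝ) + 1) := Real.sqrt_pos.2 (by positivity)
  change _ / (S.c i * Real.sqrt ((M : ℝ) + 1)) ≤ 2 / Real.sqrt ((M : ℝ) + 1)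
  rw [div_le_div_iff₀ (by positivity) h5]
  nlinarith

theorem fa_ne_one {n : N} (hn : n ≠ 1) : fa τ S n ≠ 1 := by
  intro h
  have h1 : (as τ S n : QQ S) =
      ((1 : ∀ p : ℕ × S.J, unitaryGroup (S.X p.2 × Fin (p.1 + 1)) ℂ) : QQ S) := h
  rw [QQeq] at h1
  have hF := S.ne
  have hev : ∀ᶠ p in Filter.curry atTop S.F,
      ‖(as τ S n p).1 - ((1 : ∀ p : ℕ × S.J, unitaryGroup (S.X p.2 × Fin (p.1 + 1)) ℂ) p).1‖ /
        cs S p < 1 / 2 := h1.eventually (gt_mem_nhds (by norm_num))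
  rw [Filter.eventually_curry_iff] at hev
  obtain ⟨M, hM⟩ := hev.exists
  have hs : ∀ r : Fin (M + 1), ∀ᶠ i in S.F, 1 / 2 * S.c i ≤ ‖(bl τ S n i M r).1 - 1‖ := by
    intro r
    have hne : (τ ^ (-(r.1 : ℤ))) n ≠ 1 := by
      intro h0
      exact hn ((map_eq_one_iff _ (MulEquiv.injective _)).1 h0)
    filter_upwards [(S.tr _ hne).eventually (gt_mem_nhds (show (0 : ℝ) < 1 / 2 by norm_num))]
      with i hi
    have hc := S.cpos i
    rw [div_lt_iff₀ (by positivity)] at hi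
    have h2 := norm_trace_mul_le (1 : Matrix (S.X i) (S.X i) ℂ) ((bl τ S n i M r).1 - 1)
    have h3 : ‖(1 : Matrix (S.X i) (S.X i) ℂ)‖ = S.c i := by
      have := norm_phi S i 1
      rw [S.one] at this
      exact this
    rw [h3, Matrix.one_mul, trace_sub, trace_one, ← Complex.ofReal_natCast, ← S.cc] at h2
    have h4 : S.c i ^ 2 - ‖trace (bl τ S n i M r).1‖ ≤
        ‖trace (bl τ S n i M r).1 - ((S.c i ^ 2 : ℝ) : ℂ)‖ := by
      have := norm_sub_norm_le ((S.c i ^ 2 : ℝ) : ℂ) (trace (bl τ S n i M r).1)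
      rw [norm_sub_rev, Complex.norm_real, Real.norm_eq_abs, abs_of_pos (by positivity)] at this
      exact this
    have h5 : ‖trace (bl τ S n i M r).1‖ < 1 / 2 * S.c i ^ 2 := hi
    have h6 : S.c i * (1 / 2 * S.c i) ≤ S.c i * ‖(bl τ S n i M r).1 - 1‖ := by nlinarith
    exact le_of_mul_le_mul_left h6 hc
  rw [← Filter.eventually_all] at hs
  obtain ⟨i, hi, hi2⟩ := (hs.and hM).exists
  have hc := S.cpos i
  rw [div_lt_iff₀ (cs_pos S (M, i))] at hi2
  change ‖(dU (bl τ S n i M)).1 - 1‖ < _ at hi2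
  have h3 := dU_sub_one_norm (bl τ S n i M)
  have h4 : ((M : ℝ) + 1) * (1 / 2 * S.c i) ^ 2 ≤ ∑ r, ‖(bl τ S n i M r).1 - 1‖ ^ 2 := by
    have := Finset.sum_le_sum (s := (univ : Finset (Fin (M + 1))))
      (f := fun _ => (1 / 2 * S.c i) ^ 2)
      (fun r _ => pow_le_pow_left₀ (by positivity) (hi r) 2)
    rw [sum_const, card_univ, Fintype.card_fin, nsmul_eq_mul] at this
    push_cast at this
    exact this
  have h5 : cs S (M, i) ^ 2 = S.c i ^ 2 * ((M : ℝ) + 1) := by
    unfold cs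
    rw [mul_pow, Real.sq_sqrt (by positivity)]
  have h6 : ‖(dU (bl τ S n i M)).1 - 1‖ ^ 2 < (1 / 2 * cs S (M, i)) ^ 2 :=
    pow_lt_pow_left₀ hi2 (norm_nonneg _) (by norm_num)
  rw [h3, mul_pow, h5] at h6
  nlinarith

/-- the homomorphism of the extension -/
noncomputable def fe : ExtZ N τ →* QQ S :=
  SemidirectProduct.lift (fa τ S) (zpowersHom _ (ft S)) (by
    intro g
    ext n
    simp only [MonoidHom.comp_apply, MulEquiv.coe_toMonoidHom, MulAut.conj_apply,
      zpowersHom_apply]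
    generalize Multiplicative.toAdd g = k
    rw [eq_mul_inv_iff_mul_eq]
    have key : ∀ n : N, ft S * fa τ S n = fa τ S (τ n) * ft S := conj_fa τ S
    have key2 : ∀ n : N, (ft S)⁻¹ * fa τ S n = fa τ S (τ⁻¹ n) * (ft S)⁻¹ := by
      intro n
      rw [inv_mul_eq_iff_eq_mul, ← mul_assoc, key, mul_inv_cancel_right]
      congr 1
      exact (MulEquiv.apply_symm_apply τ n).symm
    induction k using Int.induction_on generalizing n with
    | zero => simp
    | succ k ih =>
      rw [_root_.zpow_add_one, _root_.zpow_add_one, mul_assoc (ft S ^ (k : ℤ)), key, ← mul_assoc,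
        ← mul_assoc, ← ih]
      rfl
    | pred k ih =>
      rw [_root_.zpow_sub_one, _root_.zpow_sub_one, mul_assoc (ft S ^ (-(k : ℤ))), key2,
        ← mul_assoc, ← mul_assoc, ← ih]
      rfl)

end ext

end Pool.Agent.N829.OM.NZ_

namespace Pool.Agent.N829.OM

open Pool.Agent.N44.HL Pool.Agent.H21R2 Filter NZ_

theorem NZ_.hyperlinear_int0 : IsHyperlinear (Multiplicative ℤ) :=
  hyperlinear_of_injective hyperlinear_int.{0}
    (MulEquiv.ulift.symm : Multiplicative ℤ ≃* ULift.{0} (Multiplicative ℤ)).toMonoidHom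
    (MulEquiv.ulift.symm : Multiplicative ℤ ≃* ULift.{0} (Multiplicative ℤ)).injective

end Pool.Agent.N829.OM

open Pool.Agent.N44.HL Pool.Agent.H21R2 Filter Pool.Agent.N829.OM Pool.Agent.N829.OM.NZ_ in
/-- **NZ**: extensions of a hyperlinear group by an automorphism are hyperlinear. -/
theorem Pool.Agent.N829.OM.NZ_.main : S_NZ := by
  intro N _ τ hN
  apply hyperlinear_of_sep
  intro g hg
  by_cases h : g.right = 1
  · obtain ⟨S⟩ := exists_sys hN
    have hl : g.left ≠ 1 := fun hl => hg (SemidirectProduct.ext hl h)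
    have hF := S.ne
    refine ⟨ℕ × S.J, Filter.curry atTop S.F, curry_neBot,
      fun p => S.X p.2 × Fin (p.1 + 1), inferInstance, inferInstance, cs S, fe τ S, fun h1 => ?_⟩
    apply fa_ne_one τ S hl
    have h2 : g = SemidirectProduct.inl g.left := SemidirectProduct.ext rfl h
    rw [h2] at h1
    unfold fe at h1
    rw [SemidirectProduct.lift_inl] at h1
    exact h1
  · exact (sep_of_hyperlinear hyperlinear_int0 g.right h).comap SemidirectProduct.rightHom
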