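import Pool.Agent.N829.OM.StmG
import Pool.Agent.N44.HL.D

/-!
# Project OM, part PFC: centralisers in the amalgam `B *_H (H × L)` (helper170)
-/

set_option autoImplicit false

namespace Pool.Agent.N829.OM

namespace PFC_

open Monoid
open Pool.Agent.N44.HL (extMap extFam exists_word)

section general

variable {ι : Type} {G : ι → Type} {H : Type} [∀ i, Group (G i)] [Group H] {φ : ∀ i, H →* G i}

/-- the product of a word -/
def P (φ : ∀ i, H →* G i) (w : List (Σ i, G i)) : PushoutI φ :=
  (w.map fun l => PushoutI.of l.1 l.2).prod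

/-- the indices of a reduced word are determined by its product -/
theorem idx (hφ : ∀ i, Function.Injective (φ i)) (u v : List (Σ i, G i))
    (hu : u.IsChain (fun l l' => l.1 ≠ l'.1)) (hur : ∀ l ∈ u, l.2 ∉ (φ l.1).range)
    (hv : v.IsChain (fun l l' => l.1 ≠ l'.1)) (hvr : ∀ l ∈ v, l.2 ∉ (φ l.1).range) (h h' : H)
    (e : PushoutI.base φ h * P φ u = PushoutI.base φ h' * P φ v) :
    u.map Sigma.fst = v.map Sigma.fst := by
  classical
  obtain ⟨d⟩ := PushoutI.NormalWord.transversal_nonempty φ hφ
  let U : CoprodI.Word G := ⟨u, fun l hl h1 => hur l hl (h1 ▸ one_mem _), hu⟩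
  let V : CoprodI.Word G := ⟨v, fun l hl h1 => hvr l hl (h1 ▸ one_mem _), hv⟩
  have hU : PushoutI.Reduced φ U := hur
  have hV : PushoutI.Reduced φ V := hvr
  have hUp : PushoutI.ofCoprodI U.prod = P φ u := by
    rw [CoprodI.Word.prod, map_list_prod, List.map_map]
    unfold P
    congr 1
  have hVp : PushoutI.ofCoprodI V.prod = P φ v := by
    rw [CoprodI.Word.prod, map_list_prod, List.map_map]
    unfold P
    congr 1
  obtain ⟨u', hu1, hu2⟩ := hU.exists_normalWord_prod_eq d
  obtain ⟨v', hv1, hv2⟩ := hV.exists_normalWord_prod_eq d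
  have h1 : (h • u').prod = (h' • v').prod := by
    rw [PushoutI.NormalWord.prod_base_smul, PushoutI.NormalWord.prod_base_smul, hu1, hv1, hUp,
      hVp, e]
  have h2 : h • u' = h' • v' := PushoutI.NormalWord.prod_injective h1
  have h3 : u'.toList = v'.toList := congrArg (fun w => w.toList) h2
  have h4 : u'.toList.map Sigma.fst = u.map Sigma.fst := hu2
  have h5 : v'.toList.map Sigma.fst = v.map Sigma.fst := hv2
  rw [← h4, ← h5, h3]

end general

variable {B L : Type} [Group B] [Group L] (H : Subgroup B)

theorem inj : ∀ b, Function.Injective (extMap H L b) := by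
  intro b
  cases b with
  | true => exact H.subtype_injective
  | false => exact fun x y hxy => congrArg (fun p : ↥H × L => p.1) hxy

/-- a letter of `H × L` -/
def fl (x : ↥H × L) : Σ b, extFam H L b := ⟨false, x⟩

/-- a letter of `B` -/
def tr (x : extFam H L true) : Σ b, extFam H L b := ⟨true, x⟩

/-- the map from `H × L` -/
def ofF : ↥H × L →* PushoutI (extMap H L) := PushoutI.of (φ := extMap H L) false

theorem ofF_base (k : ↥H) : ofF (L := L) H (k, 1) = PushoutI.base (extMap H L) k :=
  PushoutI.of_apply_eq_base (extMap H L) false k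

theorem inL_eq (l : L) : inL H L l = ofF H (1, l) := rfl

theorem fl_notMem (k : ↥H) (a : L) (ha : a ≠ 1) :
    (fl H (k, a)).2 ∉ (extMap H L (fl H (k, a)).1).range := by
  rintro ⟨h, hh⟩
  have h1 : ((h, 1) : ↥H × L) = (k, a) := hh
  exact ha (congrArg Prod.snd h1).symm

theorem inL_base (h : ↥H) (l : L) :
    inL H L l * PushoutI.base (extMap H L) h = PushoutI.base (extMap H L) h * inL H L l := by
  rw [inL_eq, ← ofF_base, ← map_mul, ← map_mul]
  congr 1
  ext <;> simp

theorem P_cons (x : ↥H × L) (s : List (Σ b, extFam H L b)) :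
    P (extMap H L) (fl H x :: s) = ofF H x * P (extMap H L) s := by
  unfold P
  rw [List.map_cons, List.prod_cons]
  rfl

theorem P_concat (s : List (Σ b, extFam H L b)) (x : ↥H × L) :
    P (extMap H L) (s ++ [fl H x]) = P (extMap H L) s * ofF H x := by
  unfold P
  rw [List.map_append, List.prod_append]
  simp only [List.map_cons, List.map_nil, List.prod_cons, List.prod_nil, mul_one]
  rfl

/-- the key: words which end in `B` -/
theorem keyL (t : List (Σ b, extFam H L b)) (x : extFam H L true)
    (hch : (t ++ [tr H x]).IsChain (fun l l' => l.1 ≠ l'.1))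
    (hred : ∀ l ∈ t ++ [tr H x], l.2 ∉ (extMap H L l.1).range) (h : ↥H) (l l' : L)
    (hl : l ≠ 1) (hl' : l' ≠ 1)
    (e : PushoutI.base (extMap H L) h * P (extMap H L) (t ++ [tr H x]) * inL H L l' =
      inL H L l * (PushoutI.base (extMap H L) h * P (extMap H L) (t ++ [tr H x]))) : False := by
  obtain ⟨w, hw⟩ : ∃ w, w = t ++ [tr H x] := ⟨_, rfl⟩
  rw [← hw] at hch hred e
  have hch1 : (w ++ [fl H (1, l')]).IsChain (fun l l' => l.1 ≠ l'.1) := by
    rw [List.isChain_append]
    refine ⟨hch, List.isChain_singleton _, ?_⟩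
    intro a ha b hb
    rw [hw] at ha
    simp only [List.getLast?_concat, Option.mem_def, Option.some.injEq, List.head?_cons] at ha hb
    rw [← ha, ← hb]
    simp [fl, tr]
  have hred1 : ∀ l ∈ w ++ [fl H (1, l')], l.2 ∉ (extMap H L l.1).range := by
    intro y hy
    rw [List.mem_append, List.mem_singleton] at hy
    rcases hy with hy | rfl
    · exact hred y hy
    · exact fl_notMem H 1 l' hl'
  rw [mul_assoc, inL_eq H l', ← P_concat, ← mul_assoc, inL_base, mul_assoc] at e
  match w, hw, hch, hred, hch1, hred1, e with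
  | [], hw, _, _, _, _, _ => simp at hw
  | ⟨true, b⟩ :: s, hw, hch, hred, hch1, hred1, e =>
    rw [inL_eq, ← P_cons] at e
    have hch2 : (fl H (1, l) :: ⟨true, b⟩ :: s).IsChain (fun l l' => l.1 ≠ l'.1) := by
      rw [List.isChain_cons_cons]
      exact ⟨by simp [fl], hch⟩
    have hred2 : ∀ y ∈ fl H (1, l) :: ⟨true, b⟩ :: s, y.2 ∉ (extMap H L y.1).range := by
      intro y hy
      rw [List.mem_cons] at hy
      rcases hy with rfl | hy
      · exact fl_notMem H 1 l hl
      · exact hred y hy
    have h1 := idx (inj H) _ _ hch1 hred1 hch2 hred2 _ _ e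
    simp [fl] at h1
  | ⟨false, (k, a)⟩ :: s, hw, hch, hred, hch1, hred1, e =>
    have h0 : P (extMap H L) (⟨false, ((k, a) : ↥H × L)⟩ :: s) = ofF H (k, a) * P (extMap H L) s :=
      P_cons H (k, a) s
    rw [h0, inL_eq, ← mul_assoc (ofF H (1, l)), ← map_mul] at e
    have h2 : ((1, l) : ↥H × L) * (k, a) = (k, l * a) := by simp
    rw [h2] at e
    by_cases hla : l * a = 1
    · rw [hla, ofF_base, ← mul_assoc, ← map_mul] at e
      have h1 := idx (inj H) _ _ hch1 hred1 (List.IsChain.tail hch)
        (fun y hy => hred y (List.mem_cons_of_mem _ hy)) _ _ e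
      have h3 := congrArg List.length h1
      simp at h3
      omega
    · rw [← P_cons] at e
      have hch2 : (fl H (k, l * a) :: s).IsChain (fun l l' => l.1 ≠ l'.1) := by
        rw [List.isChain_cons] at hch ⊢
        exact hch
      have hred2 : ∀ y ∈ fl H (k, l * a) :: s, y.2 ∉ (extMap H L y.1).range := by
        intro y hy
        rw [List.mem_cons] at hy
        rcases hy with rfl | hy
        · exact fl_notMem H k _ hla
        · exact hred y (List.mem_cons_of_mem _ hy)
      have h1 := idx (inj H) _ _ hch1 hred1 hch2 hred2 _ _ e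
      have h3 := congrArg List.length h1
      simp at h3

/-- step 1 -/
theorem step1 (g : PushoutI (extMap H L)) (l : L) (hl : l ≠ 1)
    (hg : g * inL H L l = inL H L l * g) : ∃ x : ↥H × L, g = ofF H x := by
  obtain ⟨h, w, hch, hred, hgw⟩ := exists_word (inj (L := L) H) g
  have hgw' : g = PushoutI.base (extMap H L) h * P (extMap H L) w := hgw
  rcases List.eq_nil_or_concat w with rfl | ⟨t, y, rfl⟩
  · refine ⟨(h, 1), ?_⟩
    rw [ofF_base, hgw']
    simp [P]
  · rw [List.concat_eq_append] at hch hred hgw'
    obtain ⟨b, y⟩ := y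
    cases b with
    | true =>
      exfalso
      rw [hgw'] at hg
      exact keyL H t y hch hred h l l hl hl hg
    | false =>
      obtain ⟨k, a⟩ := y
      have h0 : P (extMap H L) (t ++ [⟨false, ((k, a) : ↥H × L)⟩]) =
          P (extMap H L) t * ofF H (k, a) := P_concat H t (k, a)
      rw [h0, ← mul_assoc] at hgw'
      have hconj : PushoutI.base (extMap H L) h * P (extMap H L) t * inL H L (a * l * a⁻¹) =
          inL H L l * (PushoutI.base (extMap H L) h * P (extMap H L) t) := by
        have h1 : ofF H ((k, a) : ↥H × L) * inL H L l = inL H L (a * l * a⁻¹) * ofF H (k, a) := by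
          rw [inL_eq, inL_eq, ← map_mul, ← map_mul]
          congr 1
          ext <;> simp
        rw [hgw'] at hg
        have h2 : PushoutI.base (extMap H L) h * P (extMap H L) t * inL H L (a * l * a⁻¹) *
            ofF H (k, a) = inL H L l * (PushoutI.base (extMap H L) h * P (extMap H L) t) *
            ofF H (k, a) := by
          rw [mul_assoc _ (inL H L (a * l * a⁻¹)), ← h1, ← mul_assoc, hg]
          simp only [mul_assoc]
        exact mul_right_cancel h2
      have hl' : a * l * a⁻¹ ≠ 1 := by
        intro h1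
        apply hl
        have h2 : l = a⁻¹ * (a * l * a⁻¹) * a := by group
        rw [h2, h1]
        simp
      rcases List.eq_nil_or_concat t with rfl | ⟨s, z, rfl⟩
      · refine ⟨(h * k, a), ?_⟩
        rw [hgw', ← ofF_base]
        simp only [P, List.map_nil, List.prod_nil, mul_one]
        rw [← map_mul]
        congr 1
        ext <;> simp
      · exfalso
        rw [List.concat_eq_append] at hch hred hconj
        obtain ⟨b, z⟩ := z
        cases b with
        | true =>
          exact keyL H s z (List.IsChain.left_of_append hch)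
            (fun y hy => hred y (List.mem_append_left _ hy)) h l _ hl hl' hconj
        | false =>
          rw [List.isChain_append] at hch
          exact hch.2.2 ⟨false, z⟩ (by simp) ⟨false, (k, a)⟩ (by simp) rfl

theorem main : S_PFC := by
  intro B L _ _ H hinf hicc g hfin
  -- an element of `L` which commutes with `g`
  have h1 : ¬ Function.Injective (fun m : L => inL H L m * g * (inL H L m)⁻¹) := fun hinj =>
    Set.infinite_range_of_injective hinj hfin
  obtain ⟨l, hl, hg⟩ : ∃ l : L, l ≠ 1 ∧ g * inL H L l = inL H L l * g := by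
    unfold Function.Injective at h1
    push Not at h1
    obtain ⟨m, m', hmm, hne⟩ := h1
    refine ⟨m⁻¹ * m', ?_, ?_⟩
    · intro h
      exact hne (inv_mul_eq_one.1 h)
    · have h2 : inL H L m * g * (inL H L m)⁻¹ = inL H L m' * g * (inL H L m')⁻¹ := hmm
      rw [map_mul, map_inv]
      have h3 : g * (inL H L m)⁻¹ * inL H L m' = (inL H L m)⁻¹ * inL H L m' * g := by
        have h4 : (inL H L m)⁻¹ * (inL H L m * g * (inL H L m)⁻¹) * inL H L m' =
            (inL H L m)⁻¹ * (inL H L m' * g * (inL H L m')⁻¹) * inL H L m' := by rw [h2]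
        have h5 : (inL H L m)⁻¹ * (inL H L m * g * (inL H L m)⁻¹) * inL H L m' =
            g * (inL H L m)⁻¹ * inL H L m' := by group
        have h6 : (inL H L m)⁻¹ * (inL H L m' * g * (inL H L m')⁻¹) * inL H L m' =
            (inL H L m)⁻¹ * inL H L m' * g := by group
        rw [← h5, h4, h6]
      rw [← mul_assoc]
      exact h3
  obtain ⟨⟨h, a⟩, rfl⟩ := step1 H g l hl hg
  -- the second coordinate is trivial
  have ha : a = 1 := by
    by_contra ha
    apply hicc a ha
    have hsub : (fun y : L => ofF H ((h, y) : ↥H × L)) '' (Set.range fun m : L => m * a * m⁻¹) ⊆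
        Set.range fun m : L => inL H L m * ofF H (h, a) * (inL H L m)⁻¹ := by
      rintro _ ⟨_, ⟨m, rfl⟩, rfl⟩
      refine ⟨m, ?_⟩
      simp only
      rw [inL_eq, ← map_inv, ← map_mul, ← map_mul]
      congr 1
      ext <;> simp
    have hinj : Function.Injective (fun y : L => ofF H ((h, y) : ↥H × L)) := by
      intro y y' hy
      have h2 : ((h, y) : ↥H × L) = (h, y') :=
        Monoid.PushoutI.of_injective (inj (L := L) H) false hy
      exact congrArg Prod.snd h2
    exact Set.Finite.of_finite_image (hfin.subset hsub) hinj.injOn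
  refine ⟨h, h.2, ?_⟩
  rw [ha, ofF_base]
  exact (Monoid.PushoutI.of_apply_eq_base (Pool.Agent.N44.HL.extMap H L) true h).symm

end PFC_

end Pool.Agent.N829.OM
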