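import Pool.Agent.N829.OM.StmG

/-!
# OM/PNC: noncommuting elements of the amalgam (helper163)
-/

set_option autoImplicit false

namespace Pool.Agent.N829.OM.PNC_

open Matrix Monoid
open Pool.Agent.N44.HL (extMap extFam)
open Pool.Agent.N829.OM

noncomputable section

variable {B L : Type} [Group B] [Group L] (H : Subgroup B)

theorem inj : ∀ i, Function.Injective (extMap H L i)
  | true => Subtype.coe_injective
  | false => fun _ _ h => congrArg Prod.fst h

theorem true_not (b : B) (hb : b ∉ H) : (b : extFam H L true) ∉ (extMap H L true).range := by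
  rintro ⟨x, hx⟩
  have h1 : (x : B) = b := hx
  exact hb (h1 ▸ x.2)

theorem false_not (l : L) (hl : l ≠ 1) :
    (((1 : H), l) : extFam H L false) ∉ (extMap H L false).range := by
  rintro ⟨x, hx⟩
  have h1 : ((x, (1 : L)) : H × L) = ((1 : H), l) := hx
  exact hl (congrArg Prod.snd h1).symm

/-- the word `b, (1, l), b⁻¹, (1, l⁻¹)` -/
def wd (b : B) (l : L) (hb : b ∉ H) (hl : l ≠ 1) : CoprodI.Word (extFam H L) where
  toList := [⟨true, (b : extFam H L true)⟩, ⟨false, (((1 : H), l) : extFam H L false)⟩,
    ⟨true, (b⁻¹ : B)⟩, ⟨false, (((1 : H), l⁻¹) : extFam H L false)⟩]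
  ne_one := by
    have hb1 : b ≠ 1 := fun h => hb (h ▸ H.one_mem)
    have e1 : (b : extFam H L true) ≠ 1 := hb1
    have e2 : (((1 : H), l) : extFam H L false) ≠ 1 := fun h => hl (congrArg Prod.snd (show ((1 : H), l) = ((1 : H), (1 : L)) from h))
    have e3 : ((b⁻¹ : B) : extFam H L true) ≠ 1 := fun h => hb1 (inv_eq_one.1 (show b⁻¹ = 1 from h))
    have e4 : (((1 : H), l⁻¹) : extFam H L false) ≠ 1 := fun h =>
      hl (inv_eq_one.1 (congrArg Prod.snd (show ((1 : H), l⁻¹) = ((1 : H), (1 : L)) from h)))
    intro x hx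
    simp only [List.mem_cons, List.not_mem_nil, or_false] at hx
    rcases hx with rfl | rfl | rfl | rfl
    · exact e1
    · exact e2
    · exact e3
    · exact e4
  chain_ne := by simp

theorem main : S_PNC := by
  intro B L _ _ H
  refine ⟨PushoutI.of_injective (inj H) true, ?_, ?_, ?_⟩
  · intro x y h
    have h1 : PushoutI.of (φ := extMap H L) false (((1 : H), x) : extFam H L false) =
        PushoutI.of (φ := extMap H L) false (((1 : H), y) : extFam H L false) := h
    have h2 := PushoutI.of_injective (inj H) false h1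
    exact congrArg Prod.snd (show ((1 : H), x) = ((1 : H), y) from h2)
  · intro h hh l
    have h1 : inB H L h = PushoutI.of (φ := extMap H L) false (((⟨h, hh⟩ : H), (1 : L)) : extFam H L false) := by
      have e1 := PushoutI.of_apply_eq_base (extMap H L) true ⟨h, hh⟩
      have e2 := PushoutI.of_apply_eq_base (extMap H L) false ⟨h, hh⟩
      exact e1.trans e2.symm
    let X : extFam H L false := ((⟨h, hh⟩ : H), (1 : L))
    let Y : extFam H L false := ((1 : H), l)
    have e : X * Y = Y * X := by
      show (((⟨h, hh⟩ : H), (1 : L)) : H × L) * ((1 : H), l) =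
        ((1 : H), l) * ((⟨h, hh⟩ : H), (1 : L))
      rw [Prod.mk_mul_mk, Prod.mk_mul_mk, mul_one, one_mul, one_mul, mul_one]
    rw [h1]
    have e1 := map_mul (PushoutI.of (φ := extMap H L) false) X Y
    have e2 := map_mul (PushoutI.of (φ := extMap H L) false) Y X
    rw [e] at e1
    exact e1.symm.trans e2
  · intro b l hb hl hcomm
    have hR : PushoutI.Reduced (extMap H L) (wd H b l hb hl) := by
      intro x hx
      simp only [wd, List.mem_cons, List.not_mem_nil, or_false] at hx
      rcases hx with rfl | rfl | rfl | rfl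
      · exact true_not H b hb
      · exact false_not H l hl
      · exact true_not H b⁻¹ (fun h => hb (inv_inv b ▸ H.inv_mem h))
      · exact false_not H l⁻¹ (fun h => hl (inv_eq_one.1 h))
    have hP : PushoutI.ofCoprodI (φ := extMap H L) (wd H b l hb hl).prod =
        inB H L b * (inL H L l * (inB H L b⁻¹ * inL H L l⁻¹)) := by
      simp only [wd, CoprodI.Word.prod, List.map_cons, List.prod_cons, List.prod_nil,
        List.map_nil, map_mul, mul_one]
      rfl
    have h1 : inB H L b * (inL H L l * (inB H L b⁻¹ * inL H L l⁻¹)) = 1 := by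
      rw [map_inv, map_inv, ← mul_assoc, hcomm, mul_assoc, ← mul_assoc (inB H L b), mul_inv_cancel,
        one_mul, mul_inv_cancel]
    have h2 := hR.eq_empty_of_mem_range (inj H) (by rw [hP, h1]; exact one_mem _)
    have h3 := congrArg CoprodI.Word.toList h2
    simp [wd, CoprodI.Word.empty] at h3

end

end Pool.Agent.N829.OM.PNC_
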