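import Pool.Agent.N829.OM.StmG
import Pool.Agent.N169.NS.TT
import Pool.Agent.N303.KQ.FG

/-!
# Project OM: property (T) and finite generation of `E_3(F[ℤ])`
-/

set_option autoImplicit false

namespace Pool.Agent.N829.OM.TTZ_

open Pool.Agent.N44.NS (E3 el)
open Pool.Agent.W661.RC (HasT)

instance : Fact (Nat.Prime 257) := ⟨by norm_num⟩

/-- the generators -/
noncomputable def gg : Fin 4 → A ℤ :=
  ![AddMonoidAlgebra.single 1 1, AddMonoidAlgebra.single (-1) 1, 0, 0]

theorem single_mem (n : ℤ) :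
    (AddMonoidAlgebra.single n (1 : ZMod 257) : A ℤ) ∈ Algebra.adjoin (ZMod 257) (Set.range gg) := by
  have h1 : (AddMonoidAlgebra.single 1 (1 : ZMod 257) : A ℤ) ∈
      Algebra.adjoin (ZMod 257) (Set.range gg) := Algebra.subset_adjoin ⟨0, rfl⟩
  have h2 : (AddMonoidAlgebra.single (-1) (1 : ZMod 257) : A ℤ) ∈
      Algebra.adjoin (ZMod 257) (Set.range gg) := Algebra.subset_adjoin ⟨1, rfl⟩
  obtain ⟨m, rfl | rfl⟩ := n.eq_nat_or_neg
  · have h := pow_mem h1 m
    rwa [AddMonoidAlgebra.single_pow, one_pow, nsmul_eq_mul, mul_one] at h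
  · have h := pow_mem h2 m
    rw [AddMonoidAlgebra.single_pow, one_pow, nsmul_eq_mul] at h
    simpa using h

theorem adj : Algebra.adjoin (ZMod 257) (Set.range gg) = ⊤ := by
  rw [eq_top_iff]
  intro x _
  induction x using AddMonoidAlgebra.induction_on with
  | of n => exact single_mem n
  | add x y hx hy => exact add_mem (hx trivial) (hy trivial)
  | smul c x hx => exact Subalgebra.smul_mem _ (hx trivial) c

theorem hT : HasT LZ :=
  Pool.Agent.N169.NS.t_TT (ZMod 257) (by rw [ZMod.card]; norm_num) (A ℤ) gg adj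

theorem main : S_TTZ := ⟨hT, Pool.Agent.N303.KQ.exists_free hT⟩

end Pool.Agent.N829.OM.TTZ_
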