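import Pool.Agent.N829.OM.StmU
import Pool.Agent.H21R2.HFro

/-!
# Project OM, part ULIFT (helper543): unitaries of the matrix ultraproduct lift to sequences of
unitary matrices
-/

set_option autoImplicit false

namespace Pool.Agent.N829.OM.ULIFT_

open Matrix Finset Filter
open scoped ComplexOrder Topology
open Pool.Agent.Helper278 (Mat OpBound NormBounded IsMatrixUltraproduct nrm2 ntr)
open Pool.Agent.H21R2 (fro2 fro2_nonneg fro2_eq_trace fro2_unitary_mul fro2_mul_unitary
  exists_unitary_columns fro2_isometry_mul)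

section

variable {α : Type*} [Fintype α] [DecidableEq α]

lemma fro2_diagonal (d : α → ℂ) : fro2 (diagonal d) = ∑ i, ‖d i‖ ^ 2 := by
  rw [fro2]
  refine sum_congr rfl fun i _ => ?_
  rw [sum_eq_single i]
  · rw [diagonal_apply_eq]
  · intro j _ hj
    rw [diagonal_apply_ne _ hj.symm, norm_zero]; simp
  · intro h
    exact absurd (mem_univ i) h

/-- Every matrix `C` is close to a unitary matrix if `C* C` is close to `1`. -/
theorem near (C : Matrix α α ℂ) :
    ∃ U : unitaryGroup α ℂ, fro2 ((U : Matrix α α ℂ) - C) ≤ fro2 (Cᴴ * C - 1) := by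
  set H : Matrix α α ℂ := Cᴴ * C with hH
  have hHpsd : H.PosSemidef := posSemidef_conjTranspose_mul_self C
  have hHh : H.IsHermitian := hHpsd.1
  set V : unitaryGroup α ℂ := hHh.eigenvectorUnitary with hV
  set lam : α → ℝ := hHh.eigenvalues with hlam
  have hlam0 : ∀ i, 0 ≤ lam i := fun i => hHpsd.eigenvalues_nonneg i
  set D : Matrix α α ℂ := C * (V : Matrix α α ℂ) with hD
  have hDD : Dᴴ * D = diagonal (fun i => (lam i : ℂ)) := by
    have h1 := hHh.conjStarAlgAut_star_eigenvectorUnitary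
    rw [Unitary.conjStarAlgAut_star_apply] at h1
    rw [hD, conjTranspose_mul, Matrix.mul_assoc, ← Matrix.mul_assoc Cᴴ, ← Matrix.mul_assoc]
    exact h1
  have hcol : ∀ i j, ∑ k, star (D k i) * D k j = if i = j then (lam i : ℂ) else 0 := by
    intro i j
    have := congrFun (congrFun hDD i) j
    rw [mul_apply, diagonal_apply] at this
    exact this
  have hnorm : ∀ i, ∑ k, ‖D k i‖ ^ 2 = lam i := by
    intro i
    have h1 := hcol i i
    simp only [if_true, Complex.star_def, Complex.conj_mul'] at h1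
    exact_mod_cast h1
  have hVV : (V : Matrix α α ℂ)ᴴ * (V : Matrix α α ℂ) = 1 := UnitaryGroup.star_mul_self V
  -- the right side
  have hright : fro2 (H - 1) = ∑ i, (lam i - 1) ^ 2 := by
    have h3 : ((V⁻¹ : unitaryGroup α ℂ) : Matrix α α ℂ) * (H - 1) * (V : Matrix α α ℂ) =
        diagonal (fun i => ((lam i : ℂ) - 1)) := by
      have h5 : ((V⁻¹ : unitaryGroup α ℂ) : Matrix α α ℂ) = (V : Matrix α α ℂ)ᴴ := rfl
      have h6 : (diagonal (fun i => ((lam i : ℂ) - 1)) : Matrix α α ℂ) =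
          diagonal (fun i => (lam i : ℂ)) - 1 := by
        rw [← diagonal_one, diagonal_sub]
      rw [h5, Matrix.mul_sub, Matrix.sub_mul, Matrix.mul_one, hVV, h6, ← hDD, hD, conjTranspose_mul,
        hH]
      simp only [Matrix.mul_assoc]
    rw [← fro2_unitary_mul V⁻¹ (H - 1), ← fro2_mul_unitary V, h3, fro2_diagonal]
    refine sum_congr rfl fun i _ => ?_
    have : ((lam i : ℂ) - 1) = ((lam i - 1 : ℝ) : ℂ) := by push_cast; rfl
    rw [this, Complex.norm_real, Real.norm_eq_abs, sq_abs]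
  -- orthonormal columns
  obtain ⟨Q, hQ⟩ := exists_unitary_columns (fun i k => D k i / (Real.sqrt (lam i) : ℂ))
    {i | lam i ≠ 0} (by
      intro i hi j hj
      have hi' : (Real.sqrt (lam i) : ℂ) ≠ 0 := by
        have : 0 < lam i := lt_of_le_of_ne (hlam0 i) (Ne.symm hi)
        exact_mod_cast (Real.sqrt_pos.mpr this).ne'
      have hj' : (Real.sqrt (lam j) : ℂ) ≠ 0 := by
        have : 0 < lam j := lt_of_le_of_ne (hlam0 j) (Ne.symm hj)
        exact_mod_cast (Real.sqrt_pos.mpr this).ne'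
      have h1 : ∀ k, star (D k i / (Real.sqrt (lam i) : ℂ)) * (D k j / (Real.sqrt (lam j) : ℂ)) =
          (star (D k i) * D k j) / ((Real.sqrt (lam i) : ℂ) * (Real.sqrt (lam j) : ℂ)) := by
        intro k
        have h0 : star ((Real.sqrt (lam i) : ℂ)) = (Real.sqrt (lam i) : ℂ) := Complex.conj_ofReal _
        rw [star_div₀, h0]
        field_simp
      simp_rw [h1]
      rw [← sum_div, hcol]
      split_ifs with h
      · subst h
        rw [div_eq_one_iff_eq (mul_ne_zero hi' hj')]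
        rw [← Complex.ofReal_mul, Real.mul_self_sqrt (hlam0 i)]
      · simp)
  refine ⟨Q * V⁻¹, ?_⟩
  have h1 : (((Q * V⁻¹ : unitaryGroup α ℂ)) : Matrix α α ℂ) - C =
      ((Q : Matrix α α ℂ) - D) * ((V⁻¹ : unitaryGroup α ℂ) : Matrix α α ℂ) := by
    rw [Matrix.sub_mul, hD, Matrix.mul_assoc]
    have : (V : Matrix α α ℂ) * ((V⁻¹ : unitaryGroup α ℂ) : Matrix α α ℂ) = 1 := by
      rw [← UnitaryGroup.mul_val, mul_inv_cancel]; rfl
    rw [this, Matrix.mul_one]
    rfl
  rw [h1, fro2_mul_unitary, hright, fro2, sum_comm]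
  refine sum_le_sum fun i _ => ?_
  by_cases hi : lam i = 0
  · have hD0 : ∀ k, D k i = 0 := by
      intro k
      have h3 := hnorm i
      rw [hi] at h3
      have := (sum_eq_zero_iff_of_nonneg (fun k _ => sq_nonneg ‖D k i‖)).mp h3 k (mem_univ k)
      simpa using this
    have h4 : ∑ k, ‖(Q : Matrix α α ℂ) k i‖ ^ 2 = 1 := by
      have h5 := UnitaryGroup.star_mul_self Q
      have h6 := congrFun (congrFun h5 i) i
      rw [mul_apply] at h6
      simp only [star_eq_conjTranspose, conjTranspose_apply, Complex.star_def, Complex.conj_mul',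
        one_apply_eq] at h6
      exact_mod_cast h6
    simp only [Matrix.sub_apply, hD0, sub_zero, h4, hi]
    norm_num
  · have hpos : 0 < lam i := lt_of_le_of_ne (hlam0 i) (Ne.symm hi)
    set r := Real.sqrt (lam i) with hr
    have hrpos : 0 < r := Real.sqrt_pos.mpr hpos
    have hr2 : r ^ 2 = lam i := Real.sq_sqrt (hlam0 i)
    have h3 : ∀ k, ‖((Q : Matrix α α ℂ) - D) k i‖ ^ 2 = ((1 - r) / r) ^ 2 * ‖D k i‖ ^ 2 := by
      intro k
      rw [Matrix.sub_apply, hQ i hi k]
      have hrc : (r : ℂ) ≠ 0 := by exact_mod_cast hrpos.ne'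
      have h4 : D k i / (r : ℂ) - D k i = (((1 - r) / r : ℝ) : ℂ) * D k i := by
        push_cast
        field_simp
      rw [h4, norm_mul, mul_pow, Complex.norm_real, Real.norm_eq_abs, sq_abs]
    simp_rw [h3]
    rw [← mul_sum, hnorm, ← hr2]
    have h5 : ((1 - r) / r) ^ 2 * r ^ 2 = (1 - r) ^ 2 := by
      field_simp
    rw [h5]
    have h6 : (r ^ 2 - 1) ^ 2 = (1 - r) ^ 2 * (1 + r) ^ 2 := by ring
    rw [h6]
    have h7 : 1 ≤ (1 + r) ^ 2 := by nlinarith
    nlinarith [sq_nonneg (1 - r)]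

end

lemma opBound_unitary {n : ℕ} (V : unitaryGroup (Fin n) ℂ) : OpBound (V : Mat n) 1 := by
  intro v
  have h := fro2_unitary_mul V (Matrix.of fun i (_ : Unit) => v i)
  have e1 : fro2 (Matrix.of fun i (_ : Unit) => v i) = ∑ i, ‖v i‖ ^ 2 := by
    rw [fro2]
    refine sum_congr rfl fun i _ => ?_
    simp
  have e2 : fro2 ((V : Matrix (Fin n) (Fin n) ℂ) * (Matrix.of fun i (_ : Unit) => v i)) =
      ∑ i, ‖(V : Mat n).mulVec v i‖ ^ 2 := by
    rw [fro2]
    refine sum_congr rfl fun i _ => ?_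
    simp [mul_apply, mulVec, dotProduct]
  rw [e1, e2] at h
  rw [h]; simp

lemma ntr_eq {n : ℕ} (x : Mat n) : ntr n (star x * x) = (((n : ℝ)⁻¹ * fro2 x : ℝ) : ℂ) := by
  unfold ntr
  rw [star_eq_conjTranspose, ← fro2_eq_trace]
  push_cast
  rfl

theorem main : S_ULIFT := by
  intro U Q _ _ _ _ π τ hπ u hu
  obtain ⟨x, hx, rfl⟩ := hπ.surj u
  choose V hV using fun n => near (x n)
  refine ⟨V, ?_⟩
  have hVb : NormBounded fun n => (V n : Mat n) := ⟨1, fun n => opBound_unitary (V n)⟩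
  have h1b : NormBounded fun n => (1 : Mat n) := ⟨1, fun n => by
    have := opBound_unitary (1 : unitaryGroup (Fin n) ℂ)
    exact this⟩
  have hsb : NormBounded fun n => star (x n) := by
    obtain ⟨C, hC⟩ := hx
    exact ⟨|C|, fun n => (hC n).star'⟩
  have hm : ∀ y : ∀ n, Mat n, NormBounded y → NormBounded fun n => (-1 : ℂ) • y n := by
    rintro y ⟨C, hC⟩
    refine ⟨C, fun n v => ?_⟩
    have := hC n v
    simpa [neg_smul, Matrix.neg_mulVec] using this
  have hmul : ∀ y z : ∀ n, Mat n, NormBounded y → NormBounded z → NormBounded fun n => y n * z n := by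
    rintro y z ⟨C, hC⟩ ⟨D, hD⟩
    exact ⟨C * D, fun n => (hC n).mul (hD n)⟩
  have hadd : ∀ y z : ∀ n, Mat n, NormBounded y → NormBounded z → NormBounded fun n => y n + z n := by
    rintro y z ⟨C, hC⟩ ⟨D, hD⟩
    exact ⟨_, fun n => (hC n).add (hD n)⟩
  -- `x* x - 1` is zero in the ultraproduct
  have hw0 : π (fun n => star (x n) * x n + (-1 : ℂ) • (1 : Mat n)) = 0 := by
    rw [hπ.add _ _ (hmul _ _ hsb hx) (hm _ h1b), hπ.mul _ _ hsb hx, hπ.star _ hx,
      hπ.smul _ (fun n => (1 : Mat n)) h1b, hπ.one, hu]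
    simp
  have hwt := (hπ.ker _ (hadd _ _ (hmul _ _ hsb hx) (hm _ h1b))).1 hw0
  -- `x - V` is zero in the ultraproduct
  have hyb : NormBounded fun n => x n + (-1 : ℂ) • (V n : Mat n) := hadd _ _ hx (hm _ hVb)
  have hy0 : π (fun n => x n + (-1 : ℂ) • (V n : Mat n)) = 0 := by
    rw [hπ.ker _ hyb]
    have e1 : ∀ n, ntr n (star (x n + (-1 : ℂ) • (V n : Mat n)) * (x n + (-1 : ℂ) • (V n : Mat n))) =
        (((n : ℝ)⁻¹ * fro2 ((V n : Mat n) - x n) : ℝ) : ℂ) := by
      intro n
      rw [ntr_eq]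
      have : x n + (-1 : ℂ) • (V n : Mat n) = x n - (V n : Mat n) := by
        rw [neg_smul, one_smul, sub_eq_add_neg]
      rw [this, Pool.Agent.H21R2.fro2_sub_comm]
    have e2 : ∀ n, ntr n (star (star (x n) * x n + (-1 : ℂ) • (1 : Mat n)) *
        (star (x n) * x n + (-1 : ℂ) • (1 : Mat n))) =
        (((n : ℝ)⁻¹ * fro2 ((x n)ᴴ * x n - 1) : ℝ) : ℂ) := by
      intro n
      rw [ntr_eq]
      have : star (x n) * x n + (-1 : ℂ) • (1 : Mat n) = (x n)ᴴ * x n - 1 := by
        rw [neg_smul, one_smul, sub_eq_add_neg]; rfl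
      rw [this]
    simp only [e2] at hwt
    simp only [e1]
    have hwt' : Tendsto (fun n : ℕ => (n : ℝ)⁻¹ * fro2 ((x n)ᴴ * x n - 1)) U (𝓝 0) := by
      have := (Complex.continuous_re.tendsto 0).comp hwt
      rw [Complex.zero_re] at this
      exact this.congr fun n => Complex.ofReal_re _
    have hyt' : Tendsto (fun n : ℕ => (n : ℝ)⁻¹ * fro2 ((V n : Mat n) - x n)) U (𝓝 0) := by
      refine squeeze_zero (fun n => ?_) (fun n => ?_) hwt'
      · have := fro2_nonneg ((V n : Mat n) - x n)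
        positivity
      · exact mul_le_mul_of_nonneg_left (hV n) (by positivity)
    have := (Complex.continuous_ofReal.tendsto 0).comp hyt'
    rw [Complex.ofReal_zero] at this
    exact this
  rw [hπ.add _ _ hx (hm _ hVb), hπ.smul _ (fun n => (V n : Mat n)) hVb] at hy0
  have h3 : π x - π (fun n => (V n : Mat n)) = 0 := by
    rw [sub_eq_add_neg]
    rw [neg_smul, one_smul] at hy0
    exact hy0
  exact (sub_eq_zero.1 h3).symm

end Pool.Agent.N829.OM.ULIFT_
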