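import Pool.Agent.N52.ST.Stm

/-!
# Project OM: the finite-dimensional part

`ZG O t`, `ZL O t` (file `N52/ST/Stm.lean`) are the central projections of the classes of the block
algebra `O` with Casimir value `> t` and `≤ t`.
-/

set_option autoImplicit false

namespace Pool.Agent.N829.OM

open Matrix Finset
open scoped ComplexOrder
open Pool.Agent.W661.RC Pool.Agent.W683.RC Pool.Agent.N303.KQ Pool.Agent.N52.NH
open Pool.Agent.N52.ST

noncomputable section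

/-- The level projections of the Casimir operator of `O` which nearly commute with the `u s` are
nearly scalar. -/
def LevIrr {k d : ℕ} (O : Out d) (u : Fin k → Mt d) (δ κ : ℝ) : Prop :=
  ∀ t : ℝ, 0 < t → en u (ZG O t) ≤ δ * d → ∃ c : ℂ, hs (ZG O t - c • (1 : Mt d)) ≤ κ * d

/-- CSW: if the almost invariant level projections are almost scalar then the Casimir values are
concentrated. Note that `κ` does not depend on `k` and `δ`. -/
def S_CSW : Prop :=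
  ∀ (ρ q : ℝ), 0 < ρ → 1 < q → ∃ κ : ℝ, 0 < κ ∧ ∀ (k : ℕ) (δ : ℝ), 0 < δ → ∃ ε : ℝ, 0 < ε ∧
    ∀ (d : ℕ) (O : Out d) (u : Fin k → Mt d), 0 < d → (∀ s, (u s)ᴴ * u s = 1) →
      (∀ s, NearInv O (u s) ε) → (d : ℝ) - D0 O ≤ ε * d → LevIrr O u δ κ →
      ∃ m : ℝ, 0 < m ∧ tr (ZG O (q * m)) + tr (ZL O (m / q)) ≤ ρ * d

/-- CMS: the Casimir values are almost preserved. -/
def S_CMS : Prop :=
  ∀ (d : ℕ) (O : Out d) (u : Mt d) (ρ q m : ℝ), uᴴ * u = 1 → 1 < q → 0 < m →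
    tr (ZG O (q * m)) + tr (ZL O (m / q)) ≤ ρ * d →
    ms O u (fun κ' κ => q ^ 2 * cc O κ < cc O κ') ≤ ρ * d

/-- CORW: the finite-dimensional theorem with weak irreducibility. -/
def S_CORW : Prop :=
  ∀ (ε0 : ℝ), 0 < ε0 → ∃ κ : ℝ, 0 < κ ∧ ∀ (k : ℕ) (δ : ℝ), 0 < δ → ∃ ε : ℝ, 0 < ε ∧
    ∀ (d : ℕ) (O : Out d) (u : Fin k → Mt d), 0 < d → (∀ s, (u s)ᴴ * u s = 1) →
      (∀ s, NearInv O (u s) ε) → (d : ℝ) - D0 O ≤ ε * d → LevIrr O u δ κ →
      ∀ s, NearC O (u s)ᴴ ε0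

/-- FMW: the finite form for groups. Either the matrices which almost commute with `K` almost
commute with the element `x` of `g K g⁻¹`, or there is an almost invariant projection `Z` far from
the scalars, which almost commutes with all matrices which almost commute with `K`. -/
def S_FMW : Prop :=
  ∀ (G : Type) [Group G] (K : Subgroup G), HasT K →
    Subgroup.closure {g : G | ∀ k ∈ K, g⁻¹ * k * g ∈ K} = ⊤ →
    ∀ (n : ℕ) (γ : FreeGroup (Fin n) →* G), Function.Surjective γ →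
    ∀ (g : G), (∀ k ∈ K, g⁻¹ * k * g ∈ K) → ∀ (x : FreeGroup (Fin n)), g⁻¹ * γ x * g ∈ K →
    ∀ ε : ℝ, 0 < ε → ∃ (κ C : ℝ) (S : Finset (FreeGroup (Fin n))), 0 < κ ∧ (∀ w ∈ S, γ w ∈ K) ∧
      ∀ η : ℝ, 0 < η → ∃ (δ : ℝ) (R : Finset (FreeGroup (Fin n))), 0 < δ ∧ (∀ w ∈ R, γ w = 1) ∧
      ∀ (d : ℕ) (U : Fin n → unitaryGroup (Fin d) ℂ), 0 < d →
        (∀ w ∈ R, hs ((FreeGroup.lift U w : Mt d) - 1) ≤ δ * d) →
        (∀ V : Mt d, Le (Vᴴ * V) 1 →
          (∀ w ∈ S, hs ((FreeGroup.lift U w : Mt d) * V - V * (FreeGroup.lift U w : Mt d)) ≤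
            δ * d) →
          hs ((FreeGroup.lift U x : Mt d) * V - V * (FreeGroup.lift U x : Mt d)) ≤ ε * d) ∨
        ∃ Z : Mt d, IsPr Z ∧ (∀ s, hs ((U s : Mt d) * Z - Z * (U s : Mt d)) ≤ η * d) ∧
          (∀ V : Mt d, Le (Vᴴ * V) 1 → hs (Z * V - V * Z) ≤
            C * ∑ w ∈ S, hs ((FreeGroup.lift U w : Mt d) * V - V * (FreeGroup.lift U w : Mt d)) +
              η * d) ∧
          ∀ c : ℂ, κ * d < hs (Z - c • (1 : Mt d))

end

end Pool.Agent.N829.OM
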