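import Pool.Agent.N829.OM.StmU
import Pool.Agent.N829.OM.StmF
import Pool.Agent.Helper278.MUDefs

/-!
# Project OM/ULT (helper415): from the finite form to the matrix ultraproduct
-/

set_option autoImplicit false

namespace Pool.Agent.N829.OM.ULT_

open Matrix Finset Filter
open scoped ComplexOrder Topology
open Pool.Agent.Helper278 (Mat OpBound NormBounded IsMatrixUltraproduct ntr BddSeq)
open Pool.Agent.W661.RC
open Pool.Agent.W683.RC (hs_eq hs_sub_comm pr_sq_le_one)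

noncomputable section

universe v

theorem le_atTop' {U : Ultrafilter ℕ} (hU : ∀ n, {n} ∉ U) : (U : Filter ℕ) ≤ atTop := by
  rcases Ultrafilter.le_cofinite_or_eq_pure U with h1 | ⟨n, hn⟩
  · rwa [Nat.cofinite_eq_atTop] at h1
  · exfalso
    apply hU n
    rw [hn]
    exact Ultrafilter.mem_pure.2 rfl

theorem hs0 {m n : Type} [Fintype m] [Fintype n] (x : Matrix m n ℂ) : 0 ≤ hs x := by
  unfold hs
  positivity

/-- contractions -/
theorem le_iff {d : ℕ} (x : Mat d) : Le (xᴴ * x) 1 ↔ OpBound x 1 := by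
  unfold Le OpBound
  rw [posSemidef_iff_dotProduct_mulVec]
  have hn : ∀ w : Fin d → ℂ, star w ⬝ᵥ w = ((∑ i, ‖w i‖ ^ 2 : ℝ) : ℂ) := by
    intro w
    rw [dotProduct]
    push_cast
    refine Finset.sum_congr rfl fun i _ => ?_
    rw [Pi.star_apply]
    exact Complex.conj_mul' (w i)
  have key : ∀ v : Fin d → ℂ, star v ⬝ᵥ ((1 - xᴴ * x) *ᵥ v) =
      ((∑ i, ‖v i‖ ^ 2 - ∑ i, ‖(x *ᵥ v) i‖ ^ 2 : ℝ) : ℂ) := by
    intro v
    rw [sub_mulVec, one_mulVec, dotProduct_sub, ← mulVec_mulVec, dotProduct_mulVec,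
      vecMul_conjTranspose, star_star, hn, hn]
    push_cast
    rfl
  constructor
  · rintro ⟨-, h⟩ v
    have h1 := h v
    rw [key, Complex.zero_le_real] at h1
    linarith
  · intro h
    refine ⟨?_, fun v => ?_⟩
    · exact Matrix.isHermitian_one.sub (Matrix.isHermitian_conjTranspose_mul_self x)
    · rw [key, Complex.zero_le_real]
      have := h v
      linarith

theorem ntr_hs (N : ℕ) (y : Mat N) : ntr N (star y * y) = ((hs y / N : ℝ) : ℂ) := by
  have h : Matrix.trace (star y * y) = ((hs y : ℝ) : ℂ) := by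
    apply Complex.ext
    · rw [Complex.ofReal_re, hs_eq]
      rfl
    · rw [Complex.ofReal_im, ← Complex.conj_eq_iff_im]
      have h1 : (starRingEnd ℂ) (Matrix.trace (star y * y)) = Matrix.trace (star (star y * y)) :=
        (Matrix.trace_conjTranspose (star y * y)).symm
      rw [h1, star_mul, star_star]
  unfold ntr
  rw [h]
  push_cast
  rw [div_eq_inv_mul]

section

variable {Q : Type v} [Ring Q] [StarRing Q] [Algebra ℂ Q]

/-- the star homomorphism on bounded sequences -/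
def hom' {U : Ultrafilter ℕ} {π : (∀ n, Mat n) → Q} {τ : Q → ℂ}
    (h : IsMatrixUltraproduct U π τ) : BddSeq →⋆ₐ[ℂ] Q where
  toFun x := π x.1
  map_one' := h.one
  map_mul' x y := h.mul x.1 y.1 x.2 y.2
  map_zero' := by
    have h1 := h.smul 0 (fun n => (0 : BddSeq).1 n) (0 : BddSeq).2
    rw [zero_smul] at h1
    rw [← h1]
    congr 1
    funext n
    rw [zero_smul]
    rfl
  map_add' x y := h.add x.1 y.1 x.2 y.2
  commutes' r := by
    have h1 := h.smul r (fun n => (1 : BddSeq).1 n) (1 : BddSeq).2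
    have h2 : π (fun n => (1 : BddSeq).1 n) = 1 := h.one
    rw [h2] at h1
    have h3 : (algebraMap ℂ Q) r = r • 1 := Algebra.algebraMap_eq_smul_one r
    rw [h3, ← h1]
    congr 1
    funext n
    show (algebraMap ℂ (∀ n, Mat n) r) n = r • (1 : Mat n)
    rw [Pi.algebraMap_apply, Algebra.algebraMap_eq_smul_one]
  map_star' x := h.star x.1 x.2

variable {U : Ultrafilter ℕ} {π : (∀ n, Mat n) → Q} {τ : Q → ℂ} (h : IsMatrixUltraproduct U π τ)

theorem eq_iff (a b : BddSeq) :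
    hom' h a = hom' h b ↔ Tendsto (fun N : ℕ => hs (a.1 N - b.1 N) / N) U (𝓝 0) := by
  rw [← sub_eq_zero, ← map_sub]
  have h1 := h.ker (a - b).1 (a - b).2
  have h2 : hom' h (a - b) = π (a - b).1 := rfl
  rw [h2, h1]
  have h3 : (fun N => ntr N (star ((a - b).1 N) * (a - b).1 N)) =
      fun N => (((hs (a.1 N - b.1 N) / N : ℝ)) : ℂ) := by
    funext N
    rw [ntr_hs]
    rfl
  rw [h3, ← Complex.ofReal_zero]
  exact Filter.tendsto_ofReal_iff

theorem comm_iff (a b : BddSeq) : hom' h a * hom' h b = hom' h b * hom' h a ↔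
    Tendsto (fun N : ℕ => hs (a.1 N * b.1 N - b.1 N * a.1 N) / N) U (𝓝 0) := by
  rw [← map_mul, ← map_mul]
  exact eq_iff h (a * b) (b * a)

theorem tendsto_zero {U : Ultrafilter ℕ} {g : ℕ → ℝ} (h0 : ∀ N, 0 ≤ g N)
    (h : ∀ ε : ℝ, 0 < ε → ∀ᶠ N in (U : Filter ℕ), g N ≤ ε) : Tendsto g U (𝓝 0) := by
  rw [Metric.tendsto_nhds]
  intro ε hε
  filter_upwards [h (ε / 2) (by linarith)] with N hN
  rw [Real.dist_eq, sub_zero, abs_of_nonneg (h0 N)]
  linarith

/-- sequences of unitary matrices -/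
def uB (V : ∀ N, unitaryGroup (Fin N) ℂ) : BddSeq :=
  ⟨fun N => (V N : Mat N), 1, fun N => (le_iff _).1 (by
    have h1 : (V N : Mat N)ᴴ * (V N : Mat N) = 1 := Unitary.coe_star_mul_self (V N)
    rw [h1]
    unfold Le
    rw [sub_self]
    exact PosSemidef.zero)⟩

theorem uB_mul (V W : ∀ N, unitaryGroup (Fin N) ℂ) : uB (V * W) = uB V * uB W := rfl

theorem uB_one : uB (1 : ∀ N, unitaryGroup (Fin N) ℂ) = 1 := rfl

theorem uB_inv (V : ∀ N, unitaryGroup (Fin N) ℂ) : uB V⁻¹ = star (uB V) := rfl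

variable {P : Type} [Group P] {f : P → Q} (hf : TRep P τ f)

include hf in
theorem uB_inv_eq {V : ∀ N, unitaryGroup (Fin N) ℂ} {a : P} (hV : hom' h (uB V) = f a) :
    hom' h (uB V⁻¹) = f a⁻¹ := by
  rw [uB_inv, map_star, hV, hf.star]

include hf in
theorem uB_mul_eq {V W : ∀ N, unitaryGroup (Fin N) ℂ} {a b : P} (hV : hom' h (uB V) = f a)
    (hW : hom' h (uB W) = f b) : hom' h (uB (V * W)) = f (a * b) := by
  rw [uB_mul, map_mul, hV, hW, hf.mul]

/-- the values of a word -/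
def wS {n : ℕ} (V : Fin n → ∀ N, unitaryGroup (Fin N) ℂ) (w : FreeGroup (Fin n)) :
    ∀ N, unitaryGroup (Fin N) ℂ := fun N => FreeGroup.lift (fun s => V s N) w

include hf in
theorem word_eq {n : ℕ} {V : Fin n → ∀ N, unitaryGroup (Fin N) ℂ} {γ : FreeGroup (Fin n) →* P}
    (hV : ∀ s, hom' h (uB (V s)) = f (γ (FreeGroup.of s))) (w : FreeGroup (Fin n)) :
    hom' h (uB (wS V w)) = f (γ w) := by
  induction w using FreeGroup.induction_on with
  | C1 =>
    have h1 : wS V 1 = 1 := by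
      funext N
      unfold wS
      rw [map_one]
      rfl
    rw [h1, uB_one, map_one, map_one, hf.one]
  | of s =>
    have h1 : wS V (FreeGroup.of s) = V s := by
      funext N
      unfold wS
      rw [FreeGroup.lift_apply_of]
    show hom' h (uB (wS V (FreeGroup.of s))) = f (γ (FreeGroup.of s))
    rw [h1, hV]
  | inv_of s ih =>
    have h1 : wS V (FreeGroup.of s)⁻¹ = (wS V (FreeGroup.of s))⁻¹ := by
      funext N
      unfold wS
      rw [map_inv]
      rfl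
    show hom' h (uB (wS V (FreeGroup.of s)⁻¹)) = f (γ (FreeGroup.of s)⁻¹)
    rw [h1, map_inv]
    exact uB_inv_eq h hf ih
  | mul x y hx hy =>
    have h1 : wS V (x * y) = wS V x * wS V y := by
      funext N
      unfold wS
      rw [map_mul]
      rfl
    rw [h1, map_mul]
    exact uB_mul_eq h hf hx hy

/-- the properties of the projections -/
def GoodZ {n : ℕ} (κ C : ℝ) (S : Finset (FreeGroup (Fin n)))
    (V : Fin n → ∀ N, unitaryGroup (Fin N) ℂ) (η : ℝ) (N : ℕ) (Z : Mt N) : Prop :=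
  IsPr Z ∧ (∀ s, hs ((V s N : Mt N) * Z - Z * (V s N : Mt N)) ≤ η * N) ∧
    (∀ X : Mt N, Le (Xᴴ * X) 1 → hs (Z * X - X * Z) ≤
      C * ∑ w ∈ S, hs ((wS V w N : Mt N) * X - X * (wS V w N : Mt N)) + η * N) ∧
    ∀ c : ℂ, κ * N < hs (Z - c • (1 : Mt N))

theorem GoodZ.mono {n : ℕ} {κ C : ℝ} {S : Finset (FreeGroup (Fin n))}
    {V : Fin n → ∀ N, unitaryGroup (Fin N) ℂ} {η η' : ℝ} {N : ℕ} {Z : Mt N} (hη : η ≤ η')
    (h : GoodZ κ C S V η N Z) : GoodZ κ C S V η' N Z := by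
  obtain ⟨h1, h2, h3, h4⟩ := h
  have h5 : η * N ≤ η' * N := mul_le_mul_of_nonneg_right hη (Nat.cast_nonneg N)
  exact ⟨h1, fun s => (h2 s).trans h5, fun X hX => (h3 X hX).trans (by linarith), h4⟩

/-- choice of a sequence -/
theorem select {α : ℕ → Type} {U : Ultrafilter ℕ} (hU : ∀ n, {n} ∉ U)
    (Pr : ℕ → ∀ N, α N → Prop) (hmono : ∀ m m' N Z, m ≤ m' → Pr m' N Z → Pr m N Z)
    (h : ∀ m, ∀ᶠ N in (U : Filter ℕ), ∃ Z, Pr m N Z) (Z0 : ∀ N, α N) (I : ∀ N, α N → Prop)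
    (hI0 : ∀ N, I N (Z0 N)) (hI : ∀ m N Z, Pr m N Z → I N Z) :
    ∃ Z : ∀ N, α N, (∀ N, I N (Z N)) ∧ ∀ m, ∀ᶠ N in (U : Filter ℕ), Pr m N (Z N) := by
  classical
  let mN : ℕ → ℕ := fun N => Nat.findGreatest (fun m => ∃ Z, Pr m N Z) N
  refine ⟨fun N => if h : ∃ Z, Pr (mN N) N Z then h.choose else Z0 N, fun N => ?_, fun m => ?_⟩
  · by_cases h1 : ∃ Z, Pr (mN N) N Z
    · simp only [dif_pos h1]
      exact hI _ _ _ h1.choose_spec
    · simp only [dif_neg h1]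
      exact hI0 N
  · filter_upwards [h m, (le_atTop' hU) (eventually_ge_atTop m)] with N h1 h2
    have h3 : ∃ Z, Pr (mN N) N Z :=
      Nat.findGreatest_spec (P := fun m => ∃ Z, Pr m N Z) h2 h1
    have h4 : m ≤ mN N := Nat.le_findGreatest h2 h1
    simp only [dif_pos h3]
    exact hmono _ _ _ _ h4 h3.choose_spec

theorem ntr_one {N : ℕ} (hN : 0 < N) : ntr N (1 : Mat N) = 1 := by
  unfold ntr
  rw [Matrix.trace_one, Fintype.card_fin]
  exact inv_mul_cancel₀ (by exact_mod_cast hN.ne')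

theorem ntr_sub (N : ℕ) (x y : Mat N) : ntr N (x - y) = ntr N x - ntr N y := by
  unfold ntr
  rw [Matrix.trace_sub, mul_sub]

theorem ntr_add (N : ℕ) (x y : Mat N) : ntr N (x + y) = ntr N x + ntr N y := by
  unfold ntr
  rw [Matrix.trace_add, mul_add]

theorem comm_id {N : ℕ} (W V : unitaryGroup (Fin N) ℂ) :
    star ((W : Mat N) * (V : Mat N) - (V : Mat N) * (W : Mat N)) *
      ((W : Mat N) * (V : Mat N) - (V : Mat N) * (W : Mat N)) =
    1 + 1 - ((V⁻¹ * W⁻¹ * V * W : unitaryGroup (Fin N) ℂ) : Mat N) -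
      ((W⁻¹ * V⁻¹ * W * V : unitaryGroup (Fin N) ℂ) : Mat N) := by
  have h1 : star (W : Mat N) * (W : Mat N) = 1 := Unitary.coe_star_mul_self W
  have h2 : star (V : Mat N) * (V : Mat N) = 1 := Unitary.coe_star_mul_self V
  have h3 : ((V⁻¹ * W⁻¹ * V * W : unitaryGroup (Fin N) ℂ) : Mat N) =
      star (V : Mat N) * star (W : Mat N) * (V : Mat N) * (W : Mat N) := rfl
  have h4 : ((W⁻¹ * V⁻¹ * W * V : unitaryGroup (Fin N) ℂ) : Mat N) =
      star (W : Mat N) * star (V : Mat N) * (W : Mat N) * (V : Mat N) := rfl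
  rw [h3, h4, star_sub, star_mul, star_mul]
  have e1 : star (V : Mat N) * star (W : Mat N) * ((W : Mat N) * (V : Mat N)) = 1 := by
    rw [mul_assoc, ← mul_assoc (star (W : Mat N)), h1, one_mul, h2]
  have e2 : star (W : Mat N) * star (V : Mat N) * ((V : Mat N) * (W : Mat N)) = 1 := by
    rw [mul_assoc, ← mul_assoc (star (V : Mat N)), h2, one_mul, h1]
  rw [sub_mul, mul_sub, mul_sub, e1, e2]
  simp only [mul_assoc]
  abel

include hf in
/-- elements which do not commute are far from commuting -/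
theorem far (hU : ∀ n, {n} ∉ U) {W V : ∀ N, unitaryGroup (Fin N) ℂ} {a b : P}
    (hW : hom' h (uB W) = f a) (hV : hom' h (uB V) = f b) (hab : b * a ≠ a * b) :
    ∀ᶠ N in (U : Filter ℕ), (1 : ℝ) * N <
      hs ((W N : Mt N) * (V N : Mt N) - (V N : Mt N) * (W N : Mt N)) := by
  have hA : hom' h (uB (V⁻¹ * W⁻¹ * V * W)) = f (b⁻¹ * a⁻¹ * b * a) :=
    uB_mul_eq h hf (uB_mul_eq h hf (uB_mul_eq h hf (uB_inv_eq h hf hV) (uB_inv_eq h hf hW)) hV) hW
  have hB : hom' h (uB (W⁻¹ * V⁻¹ * W * V)) = f (a⁻¹ * b⁻¹ * a * b) :=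
    uB_mul_eq h hf (uB_mul_eq h hf (uB_mul_eq h hf (uB_inv_eq h hf hW) (uB_inv_eq h hf hV)) hW) hV
  have hA0 : τ (hom' h (uB (V⁻¹ * W⁻¹ * V * W))) = 0 := by
    rw [hA]
    refine hf.tr _ fun h1 => hab ?_
    have h2 : b⁻¹ * a⁻¹ * b * a = (a * b)⁻¹ * (b * a) := by group
    rw [h2] at h1
    exact (inv_mul_eq_one.1 h1).symm
  have hB0 : τ (hom' h (uB (W⁻¹ * V⁻¹ * W * V))) = 0 := by
    rw [hB]
    refine hf.tr _ fun h1 => hab ?_
    have h2 : a⁻¹ * b⁻¹ * a * b = (b * a)⁻¹ * (a * b) := by group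
    rw [h2] at h1
    exact inv_mul_eq_one.1 h1
  have tA := h.trace _ (uB (V⁻¹ * W⁻¹ * V * W)).2
  have tB := h.trace _ (uB (W⁻¹ * V⁻¹ * W * V)).2
  have tA' : Tendsto (fun N => ntr N ((uB (V⁻¹ * W⁻¹ * V * W)).1 N)) U (𝓝 0) := by
    rw [← hA0]
    exact tA
  have tB' : Tendsto (fun N => ntr N ((uB (W⁻¹ * V⁻¹ * W * V)).1 N)) U (𝓝 0) := by
    rw [← hB0]
    exact tB
  have t1 : Tendsto (fun N => (1 : ℂ) + 1 - ntr N ((uB (V⁻¹ * W⁻¹ * V * W)).1 N) -
      ntr N ((uB (W⁻¹ * V⁻¹ * W * V)).1 N)) U (𝓝 (1 + 1 - 0 - 0)) :=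
    (tendsto_const_nhds.sub tA').sub tB'
  have t2 : Tendsto (fun N : ℕ => hs ((W N : Mt N) * (V N : Mt N) - (V N : Mt N) * (W N : Mt N)) /
      (N : ℝ)) U (𝓝 2) := by
    have t3 := (Complex.continuous_re.tendsto _).comp t1
    have e1 : ((1 : ℂ) + 1 - 0 - 0).re = 2 := by norm_num
    rw [e1] at t3
    refine t3.congr' ?_
    filter_upwards [(le_atTop' hU) (eventually_gt_atTop 0)] with N hN
    have e2 : ((1 : ℂ) + 1 - ntr N ((uB (V⁻¹ * W⁻¹ * V * W)).1 N) -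
        ntr N ((uB (W⁻¹ * V⁻¹ * W * V)).1 N)) = ((hs ((W N : Mt N) * (V N : Mt N) -
          (V N : Mt N) * (W N : Mt N)) / N : ℝ) : ℂ) := by
      rw [← ntr_hs, comm_id, ntr_sub, ntr_sub, ntr_add, ntr_one hN]
      rfl
    show ((1 : ℂ) + 1 - ntr N ((uB (V⁻¹ * W⁻¹ * V * W)).1 N) -
        ntr N ((uB (W⁻¹ * V⁻¹ * W * V)).1 N)).re = _
    rw [e2, Complex.ofReal_re]
  have t4 := t2.eventually (lt_mem_nhds (show (1 : ℝ) < 2 by norm_num))
  filter_upwards [t4, (le_atTop' hU) (eventually_gt_atTop 0)] with N h1 h2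
  have h3 : (0 : ℝ) < N := by exact_mod_cast h2
  rw [lt_div_iff₀ h3] at h1
  exact h1

/-- matrices which almost commute with `S` almost commute with the projections -/
theorem comm_all {U : Ultrafilter ℕ} (hU : ∀ n, {n} ∉ U) {n : ℕ} {κ C : ℝ}
    {S : Finset (FreeGroup (Fin n))} {V : Fin n → ∀ N, unitaryGroup (Fin N) ℂ} {Z X : ∀ N, Mt N}
    (hZ : ∀ m : ℕ, ∀ᶠ N in (U : Filter ℕ), GoodZ κ C S V (1 / ((m : ℝ) + 1)) N (Z N))
    (hX : ∀ N, Le ((X N)ᴴ * X N) 1)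
    (hc : ∀ w ∈ S, Tendsto (fun N : ℕ => hs ((wS V w N : Mt N) * X N - X N * (wS V w N : Mt N)) /
      (N : ℝ)) U (𝓝 0)) :
    Tendsto (fun N : ℕ => hs (Z N * X N - X N * Z N) / (N : ℝ)) U (𝓝 0) := by
  have t1 : Tendsto (fun N : ℕ => ∑ w ∈ S, hs ((wS V w N : Mt N) * X N -
      X N * (wS V w N : Mt N)) / (N : ℝ)) U (𝓝 (∑ w ∈ S, (0 : ℝ))) :=
    tendsto_finsetSum _ hc
  rw [Finset.sum_const_zero] at t1
  have hsum := t1.const_mul C
  rw [mul_zero] at hsum
  refine tendsto_zero (fun N => div_nonneg (hs0 _) (Nat.cast_nonneg N)) fun ε hε => ?_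
  obtain ⟨m, hm'⟩ := exists_nat_one_div_lt (show (0 : ℝ) < ε / 2 by linarith)
  filter_upwards [hZ m, (le_atTop' hU) (eventually_gt_atTop 0),
    hsum.eventually (gt_mem_nhds (show (0 : ℝ) < ε / 2 by linarith))] with N k1 k2 k3
  have h4 : (0 : ℝ) < N := by exact_mod_cast k2
  have h5 := k1.2.2.1 (X N) (hX N)
  have h6 : C * ∑ w ∈ S, hs ((wS V w N : Mt N) * X N - X N * (wS V w N : Mt N)) / (N : ℝ) =
      (C * ∑ w ∈ S, hs ((wS V w N : Mt N) * X N - X N * (wS V w N : Mt N))) / N := by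
    rw [← Finset.sum_div, mul_div_assoc]
  rw [h6, div_lt_iff₀ h4] at k3
  rw [div_le_iff₀ h4]
  have h7 : 1 / ((m : ℝ) + 1) * N ≤ ε / 2 * N := mul_le_mul_of_nonneg_right hm'.le h4.le
  linarith

/-- equal classes -/
theorem near (hU : ∀ n, {n} ∉ U) {a b : BddSeq} (hab : hom' h a = hom' h b) {δ : ℝ} (hδ : 0 < δ) :
    ∀ᶠ N in (U : Filter ℕ), hs (a.1 N - b.1 N) ≤ δ * N := by
  have h1 := ((eq_iff h a b).1 hab).eventually (gt_mem_nhds hδ)
  filter_upwards [h1, (le_atTop' hU) (eventually_gt_atTop 0)] with N h2 h3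
  have h4 : (0 : ℝ) < N := by exact_mod_cast h3
  rw [div_lt_iff₀ h4] at h2
  exact h2.le

end

end

end Pool.Agent.N829.OM.ULT_

namespace Pool.Agent.N829.OM.ULT_

open Matrix Finset Filter
open scoped ComplexOrder Topology
open Pool.Agent.Helper278 (Mat OpBound NormBounded IsMatrixUltraproduct ntr BddSeq)
open Pool.Agent.W661.RC
open Pool.Agent.W683.RC (hs_eq hs_sub_comm pr_sq_le_one)

universe v

theorem main (h1 : S_FMW) (h2 : S_ULIFT.{v}) : S_ULT.{v} := by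
  classical
  intro P _ K hT hcl n γ hγ g hg k hk l hl hne U hU Q _ _ _ _ π τ h f hf
  -- lifts
  have hun : ∀ a : P, star (f a) * f a = 1 := by
    intro a
    rw [hf.star, ← hf.mul, inv_mul_cancel, hf.one]
  choose V hV using fun s : Fin n => h2 U Q π τ h (f (γ (FreeGroup.of s))) (hun _)
  obtain ⟨L, hL⟩ := h2 U Q π τ h (f l) (hun _)
  have hV' : ∀ s, hom' h (uB (V s)) = f (γ (FreeGroup.of s)) := hV
  have hL' : hom' h (uB L) = f l := hL
  have hW : ∀ w, hom' h (uB (wS V w)) = f (γ w) := word_eq h hf hV'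
  obtain ⟨x, hx⟩ := hγ (g * k * g⁻¹)
  have hxK : g⁻¹ * γ x * g ∈ K := by
    have : g⁻¹ * γ x * g = k := by
      rw [hx]
      group
    rw [this]
    exact hk
  obtain ⟨κ, C, S, hκ, hS, hmain⟩ := h1 P K hT hcl n γ hγ g hg x hxK 1 one_pos
  have hfar := far h hf hU (hW x) hL' (by rw [hx]; exact hne)
  have hgood : ∀ m : ℕ, ∀ᶠ N in (U : Filter ℕ), ∃ Z, GoodZ κ C S V (1 / ((m : ℝ) + 1)) N Z := by
    intro m
    obtain ⟨δ, R, hδ, hR, hall⟩ := hmain (1 / ((m : ℝ) + 1)) (by positivity)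
    have e1 : ∀ᶠ N in (U : Filter ℕ), ∀ w ∈ R, hs ((wS V w N : Mt N) - 1) ≤ δ * N := by
      rw [Filter.eventually_all_finset]
      intro w hw
      have : hom' h (uB (wS V w)) = hom' h 1 := by
        rw [hW, hR w hw, hf.one, map_one]
      exact near h hU this hδ
    have e2 : ∀ᶠ N in (U : Filter ℕ), ∀ w ∈ S,
        hs ((wS V w N : Mt N) * (L N : Mt N) - (L N : Mt N) * (wS V w N : Mt N)) ≤ δ * N := by
      rw [Filter.eventually_all_finset]
      intro w hw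
      have : hom' h (uB (wS V w) * uB L) = hom' h (uB L * uB (wS V w)) := by
        rw [map_mul, map_mul, hW, hL', ← hf.mul, ← hf.mul, hl _ (hS w hw)]
      exact near h hU this hδ
    filter_upwards [e1, e2, hfar, (le_atTop' hU) (eventually_gt_atTop 0)] with N k1 k2 k3 k4
    rcases hall N (fun s => V s N) k4 k1 with h3 | h3
    · exfalso
      have hLe : Le ((L N : Mt N)ᴴ * (L N : Mt N)) 1 := by
        have h5 : (L N : Mt N)ᴴ * (L N : Mt N) = 1 := Unitary.coe_star_mul_self (L N)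
        rw [h5]
        unfold Le
        rw [sub_self]
        exact PosSemidef.zero
      have h4 := h3 (L N : Mt N) hLe k2
      exact absurd h4 (not_le.2 k3)
    · exact h3
  obtain ⟨Z, hZpr, hZ⟩ := select hU (fun m N Z => GoodZ κ C S V (1 / ((m : ℝ) + 1)) N Z)
    (fun m m' N Z hm hZ => hZ.mono (by
      apply one_div_le_one_div_of_le
      · positivity
      · have : (m : ℝ) ≤ m' := by exact_mod_cast hm
        linarith)) hgood (fun N => (0 : Mt N)) (fun N Z => IsPr Z)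
    (fun N => ⟨conjTranspose_zero, mul_zero _⟩) (fun m N Z hZ => hZ.1)
  have hZb : ∀ N, OpBound (Z N) 1 := fun N => (le_iff _).1 (pr_sq_le_one (hZpr N))
  let ZB : BddSeq := ⟨Z, 1, hZb⟩
  -- the constants tend to zero
  have hm : ∀ ε : ℝ, 0 < ε → ∃ m : ℕ, 1 / ((m : ℝ) + 1) ≤ ε := by
    intro ε hε
    obtain ⟨m, hm⟩ := exists_nat_one_div_lt hε
    exact ⟨m, hm.le⟩
  have hgen : ∀ s, hom' h ZB * f (γ (FreeGroup.of s)) = f (γ (FreeGroup.of s)) * hom' h ZB := by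
    intro s
    rw [← hV', ← map_mul, ← map_mul, eq_iff]
    refine tendsto_zero (fun N => div_nonneg (hs0 _) (Nat.cast_nonneg N)) fun ε hε => ?_
    obtain ⟨m, hm'⟩ := hm ε hε
    filter_upwards [hZ m, (le_atTop' hU) (eventually_gt_atTop 0)] with N k1 k2
    have h4 : (0 : ℝ) < N := by exact_mod_cast k2
    rw [div_le_iff₀ h4]
    have h5 := k1.2.1 s
    have h6 : 1 / ((m : ℝ) + 1) * N ≤ ε * N := mul_le_mul_of_nonneg_right hm' h4.le
    rw [hs_sub_comm] at h5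
    exact h5.trans h6
  have hword : ∀ w, hom' h ZB * f (γ w) = f (γ w) * hom' h ZB := by
    intro w
    induction w using FreeGroup.induction_on with
    | C1 => rw [map_one, hf.one, mul_one, one_mul]
    | of s => exact hgen s
    | inv_of s ih =>
      have ih' : hom' h ZB * f (γ (FreeGroup.of s)) = f (γ (FreeGroup.of s)) * hom' h ZB := ih
      show hom' h ZB * f (γ (FreeGroup.of s)⁻¹) = f (γ (FreeGroup.of s)⁻¹) * hom' h ZB
      rw [map_inv]
      set b := γ (FreeGroup.of s) with hb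
      have h3 : f b⁻¹ * f b = 1 := by rw [← hf.mul, inv_mul_cancel, hf.one]
      have h4 : f b * f b⁻¹ = 1 := by rw [← hf.mul, mul_inv_cancel, hf.one]
      calc hom' h ZB * f b⁻¹ = f b⁻¹ * (f b * hom' h ZB) * f b⁻¹ := by
            rw [← mul_assoc, h3, one_mul]
        _ = f b⁻¹ * (hom' h ZB * f b) * f b⁻¹ := by rw [ih']
        _ = f b⁻¹ * hom' h ZB * (f b * f b⁻¹) := by simp only [mul_assoc]
        _ = f b⁻¹ * hom' h ZB := by rw [h4, mul_one]
    | mul x y hx hy =>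
      rw [map_mul, hf.mul, ← mul_assoc, hx, mul_assoc, hy, mul_assoc]
  refine ⟨hom' h ZB, fun a => ?_, fun a ha => ?_, fun c hc => ?_⟩
  · obtain ⟨w, rfl⟩ := hγ a
    exact hword w
  · obtain ⟨y, ⟨Cy, hy⟩, rfl⟩ := h.surj a
    set D : ℝ := |Cy| + 1 with hD
    have hD0 : 0 < D := by positivity
    have hXb : ∀ N, OpBound (((D⁻¹ : ℝ) : ℂ) • y N) 1 := by
      intro N v
      have e1 : ∑ i, ‖(((D⁻¹ : ℝ) : ℂ) • y N).mulVec v i‖ ^ 2 =
          (D⁻¹) ^ 2 * ∑ i, ‖(y N).mulVec v i‖ ^ 2 := by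
        rw [Finset.mul_sum]
        refine Finset.sum_congr rfl fun i _ => ?_
        rw [smul_mulVec, Pi.smul_apply, norm_smul, mul_pow, Complex.norm_real, Real.norm_eq_abs,
          sq_abs]
      have e2 := hy N v
      have e3 : (0 : ℝ) ≤ ∑ i, ‖v i‖ ^ 2 := by positivity
      have e4 : Cy ^ 2 ≤ D ^ 2 := by
        rw [← sq_abs Cy, hD]
        nlinarith [abs_nonneg Cy]
      rw [e1, one_pow, one_mul]
      calc (D⁻¹) ^ 2 * ∑ i, ‖(y N).mulVec v i‖ ^ 2
          ≤ (D⁻¹) ^ 2 * (Cy ^ 2 * ∑ i, ‖v i‖ ^ 2) := mul_le_mul_of_nonneg_left e2 (by positivity)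
        _ ≤ (D⁻¹) ^ 2 * (D ^ 2 * ∑ i, ‖v i‖ ^ 2) := by
            refine mul_le_mul_of_nonneg_left (mul_le_mul_of_nonneg_right e4 e3) (by positivity)
        _ = ∑ i, ‖v i‖ ^ 2 := by
            rw [← mul_assoc, ← mul_pow, inv_mul_cancel₀ hD0.ne', one_pow, one_mul]
    let YB : BddSeq := ⟨y, Cy, hy⟩
    let XB : BddSeq := ⟨fun N => ((D⁻¹ : ℝ) : ℂ) • y N, 1, hXb⟩
    have hX : hom' h XB = ((D⁻¹ : ℝ) : ℂ) • π y := h.smul _ y ⟨Cy, hy⟩
    have hcomm : ∀ w ∈ S, Tendsto (fun N : ℕ => hs ((wS V w N : Mt N) * XB.1 N -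
        XB.1 N * (wS V w N : Mt N)) / (N : ℝ)) U (𝓝 0) := by
      intro w hw
      have h10 : hom' h (uB (wS V w)) * hom' h XB = hom' h XB * hom' h (uB (wS V w)) := by
        rw [hW, hX, mul_smul_comm, smul_mul_assoc, ha _ (hS w hw)]
      exact (comm_iff h (uB (wS V w)) XB).1 h10
    have hfin : hom' h ZB * hom' h XB = hom' h XB * hom' h ZB :=
      (comm_iff h ZB XB).2 (comm_all hU hZ (fun N => (le_iff _).2 (hXb N)) hcomm)
    rw [hX, mul_smul_comm, smul_mul_assoc] at hfin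
    have hc0 : ((D⁻¹ : ℝ) : ℂ) ≠ 0 := by
      rw [Ne, Complex.ofReal_eq_zero]
      exact (inv_pos.2 hD0).ne'
    have h9 := congrArg (fun q => ((D⁻¹ : ℝ) : ℂ)⁻¹ • q) hfin
    simp only [smul_smul, inv_mul_cancel₀ hc0, one_smul] at h9
    exact h9
  · have h3 : hom' h ZB = hom' h (c • 1) := by
      rw [map_smul, map_one, hc]
    have h4 := near h hU h3 hκ
    obtain ⟨N, k1, k2⟩ := (h4.and (hZ 0)).exists
    have k3 := k2.2.2.2 c
    exact absurd k1 (not_le.2 k3)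

end Pool.Agent.N829.OM.ULT_
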