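import Pool.Agent.N829.OM.Fin
import Pool.Agent.N829.OM.GLH
import Pool.Agent.N829.OM.NZ
import Pool.Agent.N829.OM.CLZ
import Pool.Agent.N829.OM.PFC
import Pool.Agent.N829.OM.PNC
import Pool.Agent.N829.OM.FCM
import Pool.Agent.N829.OM.JM
import Pool.Agent.N829.OM.TTZ
import Pool.Agent.N829.OM.GRP
import Pool.Agent.N829.OM.CSW
import Pool.Agent.N829.OM.CMS
import Pool.Agent.N829.OM.CORW
import Pool.Agent.N829.OM.FMW
import Pool.Agent.N829.OM.ULT
import Pool.Agent.N829.OM.ULIFT
import Pool.Agent.N829.OM.BLIFT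
import Pool.Agent.N829.OM.CPL
import Pool.Agent.N829.OM.APR
import Pool.Agent.N829.OM.EXT
import Pool.Agent.N829.OM.COMM
import Pool.Agent.N829.OM.NG

/-!
# Project OM: the final theorem
-/

set_option autoImplicit false

namespace Pool.Agent.N829.OM

universe v

theorem grp : S_GRP :=
  GRP_.main GLH_.main NZ_.main (CLZ_.main NZ_.main) PFC_.main PNC_.main FCM_.main JM_.main
    TTZ_.main

theorem fmw : S_FMW := FMW_.main (CORW_.main Pool.Agent.N829.OM.main CMS_.main)

theorem final : S_FINAL.{v} :=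
  final_of grp (ULT_.main fmw ULIFT_.main) APR_.main (EXT_.main BLIFT_.main CPL_.main)
    COMM_.main NG_.main

end Pool.Agent.N829.OM
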