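import Pool.Agent.N829.OM.StmU

/-!
# OM/BLIFT: elements with bounded moments have bounded lifts (helper558 for helper829)
-/

set_option autoImplicit false

namespace Pool.Agent.N829.OM.BLIFT_

open Matrix Finset Filter
open scoped ComplexOrder Topology
open Pool.Agent.Helper278 (Mat OpBound NormBounded IsMatrixUltraproduct nrm2 ntr)

section

open scoped Matrix.Norms.L2Operator

variable {n : ℕ}

theorem tr_conj (V : unitaryGroup (Fin n) ℂ) (X : Mat n) :
    (Unitary.conjStarAlgAut ℂ (Mat n) V X).trace = X.trace := by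
  rw [Unitary.conjStarAlgAut_apply, Matrix.trace_mul_cycle]
  have h : (star V : Mat n) * (V : Mat n) = 1 := Unitary.coe_star_mul_self V
  rw [h, one_mul]

theorem norm_conj (V : unitaryGroup (Fin n) ℂ) (X : Mat n) :
    ‖Unitary.conjStarAlgAut ℂ (Mat n) V X‖ = ‖X‖ := by
  rw [Unitary.conjStarAlgAut_apply]
  have h : ((V : Mat n) * X * (star V : Mat n)) = (V : Mat n) * X * ((star V : unitary (Mat n)) : Mat n) := by
    rfl
  rw [h, CStarRing.norm_mul_coe_unitary, CStarRing.norm_coe_unitary_mul]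

theorem key (x : Mat n) (K D : ℝ) (hK : 0 ≤ K) (hx : OpBound x D) :
    ∃ (y : Mat n) (δ : ℝ), OpBound y K ∧ 0 ≤ δ ∧
      (∀ m : ℕ, (K ^ 2) ^ m * δ ≤ (ntr n ((star x * x) ^ m)).re) ∧
      ‖ntr n (star (x - y) * (x - y))‖ ≤ D ^ 2 * δ := by
  classical
  have hA : (xᴴ * x).IsHermitian := Matrix.isHermitian_conjTranspose_mul_self x
  have hP : (xᴴ * x).PosSemidef := Matrix.posSemidef_conjTranspose_mul_self x
  obtain ⟨φ, hφ⟩ : ∃ φ : Mat n ≃⋆ₐ[ℂ] Mat n,
      φ = Unitary.conjStarAlgAut ℂ (Mat n) hA.eigenvectorUnitary := ⟨_, rfl⟩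
  obtain ⟨lam, hlam⟩ : ∃ lam : Fin n → ℝ, lam = hA.eigenvalues := ⟨_, rfl⟩
  have hsp : star x * x = φ (diagonal fun i => (lam i : ℂ)) := by
    rw [hφ, hlam]
    exact hA.spectral_theorem
  have hlam0 : ∀ i, 0 ≤ lam i := by
    intro i
    rw [hlam]
    exact hP.eigenvalues_nonneg i
  have htr : ∀ X, (φ X).trace = X.trace := fun X => by rw [hφ, tr_conj]
  have hnm : ∀ X, ‖φ X‖ = ‖X‖ := fun X => by rw [hφ, norm_conj]
  have hlamD : ∀ i, lam i ≤ D ^ 2 := by
    intro i
    have h1 : ‖star x * x‖ = ‖(fun i => (lam i : ℂ))‖ := by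
      rw [hsp, hnm, Matrix.l2_opNorm_diagonal]
    have h2 : ‖(lam i : ℂ)‖ ≤ ‖(fun i => (lam i : ℂ))‖ := norm_le_pi_norm (fun i => (lam i : ℂ)) i
    rw [← h1, CStarRing.norm_star_mul_self, Complex.norm_real, Real.norm_eq_abs] at h2
    have h3 := hx.norm_le
    have h4 : ‖x‖ * ‖x‖ ≤ |D| * |D| := mul_self_le_mul_self (norm_nonneg _) h3
    rw [abs_mul_abs_self] at h4
    calc lam i ≤ |lam i| := le_abs_self _
      _ ≤ ‖x‖ * ‖x‖ := h2
      _ ≤ D ^ 2 := by rw [pow_two]; exact h4
  let χ : Fin n → ℂ := fun i => if K ^ 2 < lam i then 0 else 1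
  let χ' : Fin n → ℂ := fun i => if K ^ 2 < lam i then 1 else 0
  have hsχ : star (φ (diagonal χ)) = φ (diagonal χ) := by
    rw [← map_star, Matrix.star_eq_conjTranspose, Matrix.diagonal_conjTranspose]
    congr 2
    funext i
    show star (χ i) = χ i
    simp only [χ]
    split_ifs <;> simp
  have hsχ' : star (φ (diagonal χ')) = φ (diagonal χ') := by
    rw [← map_star, Matrix.star_eq_conjTranspose, Matrix.diagonal_conjTranspose]
    congr 2
    funext i
    show star (χ' i) = χ' i
    simp only [χ']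
    split_ifs <;> simp
  refine ⟨x * φ (diagonal χ), ((univ.filter fun i => K ^ 2 < lam i).card : ℝ) / n, ?_,
    by positivity, ?_, ?_⟩
  · refine Pool.Agent.Helper278.opBound_of_norm ?_
    rw [← pow_le_pow_iff_left₀ (norm_nonneg _) hK two_ne_zero, pow_two,
      ← CStarRing.norm_star_mul_self]
    have h1 : star (x * φ (diagonal χ)) * (x * φ (diagonal χ)) =
        φ (diagonal fun i => χ i * lam i * χ i) := by
      rw [star_mul, hsχ, mul_assoc, ← mul_assoc (star x), hsp, ← map_mul, ← map_mul,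
        Matrix.diagonal_mul_diagonal, Matrix.diagonal_mul_diagonal]
      congr 2
      funext i
      ring
    rw [h1, hnm, Matrix.l2_opNorm_diagonal, pi_norm_le_iff_of_nonneg (by positivity)]
    intro i
    simp only [χ]
    split_ifs with h
    · simp only [zero_mul, mul_zero, norm_zero]; positivity
    · rw [one_mul, mul_one, Complex.norm_real, Real.norm_eq_abs, abs_of_nonneg (hlam0 i)]
      exact not_lt.1 h
  · intro m
    have h1 : (ntr n ((star x * x) ^ m)).re = (∑ i, lam i ^ m) / n := by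
      unfold ntr
      rw [hsp, ← map_pow, htr, Matrix.diagonal_pow, Matrix.trace_diagonal]
      have : (∑ i, ((fun i => (lam i : ℂ)) ^ m) i) = ((∑ i, lam i ^ m : ℝ) : ℂ) := by
        push_cast
        rfl
      rw [this, ← Complex.ofReal_natCast, ← Complex.ofReal_inv, ← Complex.ofReal_mul,
        Complex.ofReal_re]
      ring
    rw [h1, ← mul_div_assoc]
    refine div_le_div_of_nonneg_right ?_ (Nat.cast_nonneg _)
    calc (K ^ 2) ^ m * ((univ.filter fun i => K ^ 2 < lam i).card : ℝ)
        = ∑ i ∈ univ.filter (fun i => K ^ 2 < lam i), (K ^ 2) ^ m := by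
          rw [sum_const, nsmul_eq_mul, mul_comm]
      _ ≤ ∑ i ∈ univ.filter (fun i => K ^ 2 < lam i), lam i ^ m :=
          sum_le_sum fun i hi => pow_le_pow_left₀ (sq_nonneg K) (mem_filter.1 hi).2.le m
      _ ≤ ∑ i, lam i ^ m :=
          sum_le_sum_of_subset_of_nonneg (filter_subset _ _)
            fun i _ _ => pow_nonneg (hlam0 i) m
  · have h0 : x - x * φ (diagonal χ) = x * φ (diagonal χ') := by
      have h2 : (1 : Mat n) = φ (diagonal χ) + φ (diagonal χ') := by
        rw [← map_add, Matrix.diagonal_add]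
        have : (diagonal fun i => χ i + χ' i) = (1 : Mat n) := by
          rw [← Matrix.diagonal_one]
          congr 1
          funext i
          simp only [χ, χ']
          split_ifs <;> simp
        rw [this, map_one]
      calc x - x * φ (diagonal χ) = x * (1 - φ (diagonal χ)) := by rw [mul_sub, mul_one]
        _ = x * φ (diagonal χ') := by rw [h2, add_sub_cancel_left]
    have h1 : star (x * φ (diagonal χ')) * (x * φ (diagonal χ')) =
        φ (diagonal fun i => χ' i * lam i * χ' i) := by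
      rw [star_mul, hsχ', mul_assoc, ← mul_assoc (star x), hsp, ← map_mul, ← map_mul,
        Matrix.diagonal_mul_diagonal, Matrix.diagonal_mul_diagonal]
      congr 2
      funext i
      ring
    rw [h0, h1]
    unfold ntr
    rw [htr, Matrix.trace_diagonal, norm_mul, norm_inv, Complex.norm_natCast, ← mul_div_assoc,
      ← div_eq_inv_mul]
    refine div_le_div_of_nonneg_right ?_ (Nat.cast_nonneg _)
    calc ‖∑ i, χ' i * lam i * χ' i‖ ≤ ∑ i, ‖χ' i * lam i * χ' i‖ := norm_sum_le _ _
      _ ≤ ∑ i, if K ^ 2 < lam i then D ^ 2 else 0 := by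
          refine sum_le_sum fun i _ => ?_
          simp only [χ']
          split_ifs with h
          · rw [one_mul, mul_one, Complex.norm_real, Real.norm_eq_abs, abs_of_nonneg (hlam0 i)]
            exact hlamD i
          · simp
      _ = D ^ 2 * ((univ.filter fun i => K ^ 2 < lam i).card : ℝ) := by
          rw [← sum_filter, sum_const, nsmul_eq_mul, mul_comm]

end

theorem nb_star {x : ∀ n, Mat n} (hx : NormBounded x) : NormBounded (fun n => star (x n)) := by
  obtain ⟨C, hC⟩ := hx
  exact ⟨|C|, fun n => (hC n).star'⟩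

theorem nb_mul {x y : ∀ n, Mat n} (hx : NormBounded x) (hy : NormBounded y) :
    NormBounded (fun n => x n * y n) := by
  obtain ⟨C, hC⟩ := hx
  obtain ⟨D, hD⟩ := hy
  exact ⟨C * D, fun n => (hC n).mul (hD n)⟩

theorem nb_one : NormBounded (fun n => (1 : Mat n)) := by
  refine ⟨1, fun n v => ?_⟩
  rw [Matrix.one_mulVec, one_pow, one_mul]

theorem nb_neg {x : ∀ n, Mat n} (hx : NormBounded x) : NormBounded (fun n => - x n) := by
  obtain ⟨C, hC⟩ := hx
  refine ⟨C, fun n v => ?_⟩
  have := hC n v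
  simpa [Matrix.neg_mulVec] using this

theorem nb_add {x y : ∀ n, Mat n} (hx : NormBounded x) (hy : NormBounded y) :
    NormBounded (fun n => x n + y n) := by
  obtain ⟨C, hC⟩ := hx
  obtain ⟨D, hD⟩ := hy
  exact ⟨_, fun n => (hC n).add (hD n)⟩

theorem nb_pow {x : ∀ n, Mat n} (hx : NormBounded x) (m : ℕ) :
    NormBounded (fun n => x n ^ m) := by
  induction m with
  | zero => simpa using nb_one
  | succ m ih =>
    simp only [pow_succ]
    exact nb_mul ih hx

theorem main : Pool.Agent.N829.OM.S_BLIFT := by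
  intro U Q _ _ _ _ π τ H q C hC hmom
  obtain ⟨x, hxb, hxq⟩ := H.surj q
  obtain ⟨D, hD⟩ := hxb
  have hxb : NormBounded x := ⟨D, hD⟩
  choose y δ hy hδ hmo htr using fun n => key (x n) (2 * C) D (by positivity) (hD n)
  refine ⟨y, hy, ?_⟩
  have hyb : NormBounded y := ⟨2 * C, hy⟩
  -- powers
  have hpow : ∀ m : ℕ, π (fun n => (star (x n) * x n) ^ m) = (star q * q) ^ m := by
    intro m
    induction m with
    | zero =>
      simp only [pow_zero]
      exact H.one
    | succ m ih =>
      simp only [pow_succ]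
      rw [H.mul _ _ (nb_pow (nb_mul (nb_star hxb) hxb) m) (nb_mul (nb_star hxb) hxb), ih,
        H.mul _ _ (nb_star hxb) hxb, H.star _ hxb, hxq]
  have hδ0 : Tendsto δ U (𝓝 0) := by
    rw [Metric.tendsto_nhds]
    intro ε hε
    obtain ⟨m, hm⟩ : ∃ m : ℕ, 2 * (1 / 4 : ℝ) ^ m < ε := by
      obtain ⟨m, hm⟩ := exists_pow_lt_of_lt_one (show 0 < ε / 2 by linarith)
        (show (1 / 4 : ℝ) < 1 by norm_num)
      exact ⟨m, by linarith⟩
    have h1 := H.trace _ (nb_pow (nb_mul (nb_star hxb) hxb) m)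
    rw [hpow m] at h1
    have h2 : Tendsto (fun n => (ntr n ((star (x n) * x n) ^ m)).re) U
        (𝓝 (τ ((star q * q) ^ m)).re) := (Complex.continuous_re.tendsto _).comp h1
    have hCp : 0 < (C ^ 2) ^ m := by positivity
    have h3 : (τ ((star q * q) ^ m)).re < 2 * (C ^ 2) ^ m := by linarith [hmom m]
    filter_upwards [h2.eventually (gt_mem_nhds h3)] with n hn
    have h4 := (hmo n m).trans_lt hn
    rw [Real.dist_eq, sub_zero, abs_of_nonneg (hδ n)]
    have h5 : ((2 * C) ^ 2) ^ m = 4 ^ m * (C ^ 2) ^ m := by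
      rw [← mul_pow]; congr 1; ring
    rw [h5, mul_assoc, mul_left_comm] at h4
    have h6 : 4 ^ m * δ n < 2 := by
      have : (C ^ 2) ^ m * (4 ^ m * δ n) < (C ^ 2) ^ m * 2 := by linarith
      exact lt_of_mul_lt_mul_left this hCp.le
    have h7 : (1 / 4 : ℝ) ^ m * 4 ^ m = 1 := by
      rw [← mul_pow]; norm_num
    calc δ n = (1 / 4 : ℝ) ^ m * (4 ^ m * δ n) := by rw [← mul_assoc, h7, one_mul]
      _ ≤ (1 / 4 : ℝ) ^ m * 2 := mul_le_mul_of_nonneg_left h6.le (by positivity)
      _ = 2 * (1 / 4 : ℝ) ^ m := mul_comm _ _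
      _ < ε := hm
  have hz : Tendsto (fun n => ntr n (star (x n - y n) * (x n - y n))) U (𝓝 0) := by
    refine squeeze_zero_norm htr ?_
    simpa using hδ0.const_mul (D ^ 2)
  have hzb : NormBounded (fun n => x n - y n) := by
    have := nb_add hxb (nb_neg hyb)
    simpa only [sub_eq_add_neg] using this
  have h0 : π (fun n => x n - y n) = 0 := (H.ker _ hzb).2 hz
  have h1 := H.add _ _ hzb hyb
  simp only [sub_add_cancel] at h1
  rw [h0, zero_add] at h1
  rw [← h1]
  exact hxq

end Pool.Agent.N829.OM.BLIFT_
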