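import Pool.Agent.N44.HL.Defs
import Pool.Agent.N44.NS.Defs
import Mathlib.GroupTheory.SemidirectProduct
import Mathlib.Algebra.MonoidAlgebra.MapDomain
import Mathlib.Algebra.Module.ZMod
import Mathlib.GroupTheory.QuotientGroup.Basic

/-!
# Project OM: the groups

`A E` is the group algebra of the abelian group `E` over the field with 257 elements,
`e3a u : E3 (A E) →* E3 (A E')` the homomorphism induced by an additive homomorphism `u : E →+ E'`.
-/

set_option autoImplicit false

namespace Pool.Agent.N829.OM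

open Matrix Monoid
open Pool.Agent.N44.NS (E3 el)
open Pool.Agent.N44.HL (extMap extFam)

noncomputable section

section functor

variable {R S T : Type} [Ring R] [Ring S] [Ring T]

/-- the map on units of matrix rings -/
def um (φ : R →+* S) : (Matrix (Fin 3) (Fin 3) R)ˣ →* (Matrix (Fin 3) (Fin 3) S)ˣ :=
  Units.map (φ.mapMatrix : Matrix (Fin 3) (Fin 3) R →+* Matrix (Fin 3) (Fin 3) S).toMonoidHom

theorem um_val (φ : R →+* S) (g : (Matrix (Fin 3) (Fin 3) R)ˣ) :
    (um φ g : Matrix (Fin 3) (Fin 3) S) = (g : Matrix (Fin 3) (Fin 3) R).map φ := rfl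

theorem um_el (φ : R →+* S) (i j : Fin 3) (h : i ≠ j) (a : R) :
    um φ (el i j h a) = el i j h (φ a) := by
  apply Units.ext
  rw [um_val]
  show (1 + Matrix.single i j a).map φ = 1 + Matrix.single i j (φ a)
  ext p q
  simp only [Matrix.map_apply, Matrix.add_apply, map_add, Matrix.one_apply, Matrix.single_apply]
  congr 1
  · split_ifs <;> simp
  · split_ifs <;> simp

theorem um_mem (φ : R →+* S) {g : (Matrix (Fin 3) (Fin 3) R)ˣ} (hg : g ∈ E3 R) :
    um φ g ∈ E3 S := by
  have h : E3 R ≤ (E3 S).comap (um φ) := by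
    refine (Subgroup.closure_le _).2 ?_
    rintro _ ⟨i, j, h, a, rfl⟩
    show um φ (el i j h a) ∈ E3 S
    rw [um_el]
    exact Subgroup.subset_closure ⟨i, j, h, _, rfl⟩
  exact h hg

/-- a ring homomorphism induces a homomorphism of the elementary groups -/
def e3map (φ : R →+* S) : E3 R →* E3 S :=
  ((um φ).comp (E3 R).subtype).codRestrict (E3 S) fun g => um_mem φ g.2

theorem e3map_val (φ : R →+* S) (g : E3 R) :
    ((e3map φ g : (Matrix (Fin 3) (Fin 3) S)ˣ) : Matrix (Fin 3) (Fin 3) S) =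
      ((g : (Matrix (Fin 3) (Fin 3) R)ˣ) : Matrix (Fin 3) (Fin 3) R).map φ := rfl

theorem e3map_comp (ψ : S →+* T) (φ : R →+* S) (g : E3 R) :
    e3map ψ (e3map φ g) = e3map (ψ.comp φ) g := by
  apply Subtype.ext
  apply Units.ext
  rw [e3map_val, e3map_val, e3map_val, Matrix.map_map]
  rfl

theorem e3map_id (g : E3 R) : e3map (RingHom.id R) g = g := by
  apply Subtype.ext
  apply Units.ext
  rw [e3map_val]
  ext p q
  rfl

end functor

/-- the group algebra of `E` over the field with 257 elements -/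
abbrev A (E : Type) [AddCommGroup E] : Type := AddMonoidAlgebra (ZMod 257) E

section add

variable {E E' E'' : Type} [AddCommGroup E] [AddCommGroup E'] [AddCommGroup E'']

/-- the homomorphism of elementary groups induced by an additive homomorphism -/
def e3a (u : E →+ E') : E3 (A E) →* E3 (A E') :=
  e3map (AddMonoidAlgebra.mapDomainRingHom (ZMod 257) u)

theorem e3a_comp (v : E' →+ E'') (u : E →+ E') (g : E3 (A E)) :
    e3a v (e3a u g) = e3a (v.comp u) g := by
  have h : (AddMonoidAlgebra.mapDomainRingHom (ZMod 257) v).comp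
      (AddMonoidAlgebra.mapDomainRingHom (ZMod 257) u) =
      AddMonoidAlgebra.mapDomainRingHom (ZMod 257) (v.comp u) := by
    ext x
    · simp
    · simp
  unfold e3a
  rw [e3map_comp, h]

theorem e3a_id (g : E3 (A E)) : e3a (AddMonoidHom.id E) g = g := by
  have h : AddMonoidAlgebra.mapDomainRingHom (ZMod 257) (AddMonoidHom.id E) =
      RingHom.id (A E) := by
    ext x
    · simp
    · simp
  unfold e3a
  rw [h, e3map_id]

end add

/-- the group `E_3(F[ℚ])` -/
abbrev NQ : Type := E3 (A ℚ)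

/-- the group `E_3(F[ℤ])` -/
abbrev LZ : Type := E3 (A ℤ)

/-- the automorphism of `E_3(F[ℚ])` which divides all exponents by 2 -/
def half : MulAut NQ where
  toFun := e3a (AddMonoidHom.mulLeft (1 / 2 : ℚ))
  invFun := e3a (AddMonoidHom.mulLeft (2 : ℚ))
  left_inv := by
    intro g
    rw [e3a_comp]
    have : (AddMonoidHom.mulLeft (2 : ℚ)).comp (AddMonoidHom.mulLeft (1 / 2 : ℚ)) =
        AddMonoidHom.id ℚ := by
      ext
      simp
    rw [this, e3a_id]
  right_inv := by
    intro g
    rw [e3a_comp]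
    have : (AddMonoidHom.mulLeft (1 / 2 : ℚ)).comp (AddMonoidHom.mulLeft (2 : ℚ)) =
        AddMonoidHom.id ℚ := by
      ext
      simp
    rw [this, e3a_id]
  map_mul' := map_mul _

/-- the extension of a group by an automorphism -/
abbrev ExtZ (N : Type) [Group N] (τ : MulAut N) : Type :=
  N ⋊[zpowersHom (MulAut N) τ] Multiplicative ℤ

/-- the group `E_3(F[ℚ]) ⋊ ℤ` -/
abbrev BQ : Type := ExtZ NQ half

/-- the abelian group `ℚ × ℚ/2ℤ` -/
abbrev EQ : Type := ℚ × (ℚ ⧸ AddSubgroup.zmultiples (2 : ℚ))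

/-- `a ↦ (a, 0)` -/
def ea : ℚ →+ EQ := AddMonoidHom.inl ℚ _

/-- `a ↦ (a, a mod 2)` -/
def eb : ℚ →+ EQ := (AddMonoidHom.id ℚ).prod (QuotientAddGroup.mk' _)

/-- the subgroup `K'` of `E_3(F[ℚ])`: the matrices with exponents in `2ℤ` -/
def HQ : Subgroup NQ := (e3a ea).eqLocus (e3a eb)

/-- the subgroup `K'` of `E_3(F[ℚ]) ⋊ ℤ` -/
def HB : Subgroup BQ := HQ.map SemidirectProduct.inl

/-- the amalgam `B *_{K'} (K' × Λ)` with `Λ = E_3(F[ℤ])` -/
abbrev PB : Type := PushoutI (extMap HB LZ)

/-- the map `B → B *_H (H × L)` -/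
def inB {B : Type} [Group B] (H : Subgroup B) (L : Type) [Group L] :
    B →* PushoutI (extMap H L) := PushoutI.of (φ := extMap H L) true

/-- the map `L → B *_H (H × L)` -/
def inL {B : Type} [Group B] (H : Subgroup B) (L : Type) [Group L] :
    L →* PushoutI (extMap H L) :=
  (PushoutI.of (φ := extMap H L) false).comp (MonoidHom.inr H L)

/-- `E_3(F[ℤ]) → E_3(F[ℚ])`, exponents multiplied by `m` -/
def jm (m : ℤ) : LZ →* NQ := e3a ((AddMonoidHom.mulLeft (m : ℚ)).comp (Int.castAddHom ℚ))

end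

end Pool.Agent.N829.OM
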