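import Pool.Agent.N829.OM.StmU
import Pool.Agent.Helper436.SN.StmtG

/-!
# Project OM: von Neumann algebras
-/

set_option autoImplicit false

namespace Pool.Agent.N829.OM

open Filter
open scoped Topology
open Pool.Agent.Helper278 (Mat IsMatrixUltraproduct Elt IsIIOneFactor)
open Pool.Agent.Helper436.SN (IsICC LG trL HasGamma leftReg)
open Pool.Agent.H21R2 (IsHyperlinear)
open Pool.Agent.W661.RC (HasT)

noncomputable section

universe v

/-- EXT: a trace preserving representation in the matrix ultraproduct extends to the group von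
Neumann algebra. -/
def S_EXT : Prop :=
  ∀ (P : Type) [Group P] (U : Ultrafilter ℕ), (∀ n, {n} ∉ U) → ∀ (Q : Type v) [Ring Q]
    [StarRing Q] [Algebra ℂ Q] [StarModule ℂ Q] (π : (∀ n, Mat n) → Q) (τ : Q → ℂ),
    IsMatrixUltraproduct U π τ → ∀ f : P → Q, TRep P τ f →
    ∃ ι : Elt (LG P) →⋆ₐ[ℂ] Q, ∀ x, τ (ι x) = trL P x

/-- COMM: the restriction of an embedding of `L(P)` to `P`; its commutant. -/
def S_COMM : Prop :=
  ∀ (P : Type) [Group P] (U : Ultrafilter ℕ) (Q : Type v) [Ring Q]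
    [StarRing Q] [Algebra ℂ Q] [StarModule ℂ Q] (π : (∀ n, Mat n) → Q) (τ : Q → ℂ),
    IsMatrixUltraproduct U π τ → ∀ ι : Elt (LG P) →⋆ₐ[ℂ] Q, (∀ x, τ (ι x) = trL P x) →
    ∃ f : P → Q, TRep P τ f ∧ (∀ g, ∃ x, f g = ι x) ∧
      ∀ a : Q, (∀ g, a * f g = f g * a) → ∀ x, a * ι x = ι x * a

/-- NG: groups with two Kazhdan subgroups such that every nontrivial element has infinitely many
conjugates by one of them. -/
def S_NG : Prop :=
  ∀ (P : Type) [Group P] (K1 K2 : Subgroup P), Infinite P → HasT K1 → HasT K2 →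
    (∀ x : P, x ≠ 1 → (Set.range fun a : K1 => (a : P) * x * (a : P)⁻¹).Infinite ∨
      (Set.range fun a : K2 => (a : P) * x * (a : P)⁻¹).Infinite) →
    IsICC P ∧ ¬ HasGamma (trL P)

/-- the final theorem -/
def S_FINAL : Prop :=
  ∃ (P : Type) (_ : Group P), Countable P ∧ IsIIOneFactor (LG P) (trL P) ∧ ¬ HasGamma (trL P) ∧
    ∀ (U : Ultrafilter ℕ), (∀ n, {n} ∉ U) → ∀ (Q : Type v) [Ring Q] [StarRing Q] [Algebra ℂ Q]
      [StarModule ℂ Q] (π : (∀ n, Mat n) → Q) (τ : Q → ℂ), IsMatrixUltraproduct U π τ →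
      (∃ ι : Elt (LG P) →⋆ₐ[ℂ] Q, ∀ x, τ (ι x) = trL P x) ∧
      ∀ ι : Elt (LG P) →⋆ₐ[ℂ] Q, (∀ x, τ (ι x) = trL P x) →
        ∃ z : Q, (∀ x, z * ι x = ι x * z) ∧
          (∀ a : Q, (∀ x, a * ι x = ι x * a) → z * a = a * z) ∧ ∀ c : ℂ, z ≠ c • (1 : Q)

end

end Pool.Agent.N829.OM
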