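import Pool.Agent.N829.OM.StmG
import Pool.Agent.N829.OM.StmV
import Pool.Agent.Helper436.SN.CEG

/-!
# Project OM: final assembly
-/

set_option autoImplicit false

namespace Pool.Agent.N829.OM

open Filter
open scoped Topology
open Pool.Agent.Helper278 (Mat IsMatrixUltraproduct Elt IsIIOneFactor)
open Pool.Agent.Helper436.SN (IsICC LG trL HasGamma leftReg iiOne_LG)
open Pool.Agent.H21R2 (IsHyperlinear)
open Pool.Agent.W661.RC (HasT)

universe v

theorem final_of (hG : S_GRP) (hU : S_ULT.{v}) (hA : S_APR.{v}) (hE : S_EXT.{v})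
    (hC : S_COMM.{v}) (hN : S_NG) : S_FINAL.{v} := by
  obtain ⟨P, _, K, K1, K2, n, γ, g, k, l, hP, hinf, hγ, hK, hK1, hK2, hcl, hg, hk, hl, hne, hx⟩ := hG
  have hcount : Countable P := by
    have : Countable (FreeGroup (Fin n)) := inferInstance
    exact hγ.countable
  obtain ⟨hicc, hgam⟩ := hN P K1 K2 hinf hK1 hK2 hx
  refine ⟨P, inferInstance, hcount, iiOne_LG P hicc, hgam, ?_⟩
  intro U hU1 Q _ _ _ _ π τ hπ
  constructor
  · obtain ⟨f, hf⟩ := hA P hP U hU1 Q π τ hπ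
    exact hE P U hU1 Q π τ hπ f hf
  · intro ι hι
    obtain ⟨f, hf, hf1, hf2⟩ := hC P U Q π τ hπ ι hι
    obtain ⟨z, hz1, hz2, hz3⟩ := hU P K hK hcl n γ hγ g hg k hk l hl hne U hU1 Q π τ hπ f hf
    refine ⟨z, hf2 z hz1, fun a ha => hz2 a fun k _ => ?_, hz3⟩
    obtain ⟨x, hx⟩ := hf1 k
    rw [hx]
    exact ha x

end Pool.Agent.N829.OM
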