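import Pool.Agent.Helper436.SN.StmtG
import Pool.Agent.Helper278.MUStmt

/-!
# Definitions for the final statement of the file NonfactorialCommutants
-/

set_option autoImplicit false

namespace Pool.Agent.N829.OM

open Pool.Agent.Helper278 Pool.Agent.Helper436.SN

universe v

noncomputable section

/-- The relative commutant `{y ∈ Q | y ι(x) = ι(x) y for all x}` of the image of `ι` has a central
element which is not a scalar. -/
def NonfactorialCommutant {A : Type} {Q : Type v} [Ring Q] [Algebra ℂ Q] (ι : A → Q) : Prop :=
  ∃ z : Q, (∀ x, z * ι x = ι x * z) ∧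
    (∀ a : Q, (∀ x, a * ι x = ι x * a) → z * a = a * z) ∧ ∀ c : ℂ, z ≠ c • (1 : Q)

section

variable {A : Type} [Ring A] [StarRing A] [Algebra ℂ A]

/-- In every model `(Q, φ)` of the matrix ultraproduct `M^U`: there is an injective trace
preserving unital star homomorphism from `(A, τ)` to `Q`, and every trace preserving unital star
homomorphism from `(A, τ)` to `Q` has a relative commutant with a nonscalar central element. -/
def OnlyNonfactorial (U : Ultrafilter ℕ) (τ : A → ℂ) : Prop :=
  ∀ (Q : Type v) [Ring Q] [StarRing Q] [Algebra ℂ Q] [StarModule ℂ Q] (π : (∀ n, Mat n) → Q)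
    (φ : Q → ℂ), IsMatrixUltraproduct U π φ →
    (∃ ι : A →⋆ₐ[ℂ] Q, Function.Injective ι ∧ ∀ x, φ (ι x) = τ x) ∧
    ∀ ι : A →⋆ₐ[ℂ] Q, (∀ x, φ (ι x) = τ x) → NonfactorialCommutant ι

/-- `(A, τ)` does not have property Gamma, and for every nonprincipal ultrafilter `U` on `ℕ`: the
matrix ultraproduct `M^U` exists, `(A, τ)` embeds in it, and every embedding has a relative
commutant with a nonscalar central element. -/
def NonGammaOnlyNonfactorial (τ : A → ℂ) : Prop :=
  ¬ HasGamma τ ∧
    ∀ U : Ultrafilter ℕ, (∀ n, {n} ∉ U) → MatUltraExists U ∧ OnlyNonfactorial.{v} U τ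

end

section

variable {H : Type} [NormedAddCommGroup H] [InnerProductSpace ℂ H] [CompleteSpace H]

/-- the ring structure of the von Neumann algebra `N` -/
@[reducible] def ringE (N : VonNeumannAlgebra H) : Ring (Elt N) := inferInstance

/-- the star operation of the von Neumann algebra `N` -/
@[reducible] def starE (N : VonNeumannAlgebra H) : StarRing (Elt N) := inferInstance

/-- the complex algebra structure of the von Neumann algebra `N` -/
@[reducible] def algE (N : VonNeumannAlgebra H) : Algebra ℂ (Elt N) := inferInstance

end

/-- The group von Neumann algebra `L(P)` with its canonical trace is a II₁ factor and has the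
property `NonGammaOnlyNonfactorial`. -/
def Counterexample (P : Type) [Group P] : Prop :=
  IsIIOneFactor (LG P) (trL P) ∧
    @NonGammaOnlyNonfactorial.{v} (Elt (LG P)) (ringE (LG P)) (starE (LG P)) (algE (LG P)) (trL P)

end

end Pool.Agent.N829.OM
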