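import Pool.Agent.N829.OM.DefG
import Pool.Agent.W661.RC.Stm2

/-!
# Project OM: statements about the groups
-/

set_option autoImplicit false

namespace Pool.Agent.N829.OM

open Matrix Monoid
open Pool.Agent.N44.NS (E3 el)
open Pool.Agent.N44.HL (extMap extFam IsClosedSubgroup)
open Pool.Agent.H21R2 (IsHyperlinear)
open Pool.Agent.W661.RC (HasT)

noncomputable section

/-- GLH: elementary groups over group algebras of abelian groups are hyperlinear. -/
def S_GLH : Prop := ∀ (E : Type) [AddCommGroup E], IsHyperlinear (E3 (A E))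

/-- NZ: extensions of a hyperlinear group by an automorphism are hyperlinear. -/
def S_NZ : Prop :=
  ∀ (N : Type) [Group N] (τ : MulAut N), IsHyperlinear N → IsHyperlinear (ExtZ N τ)

/-- CLZ: a closed subgroup of `N` is closed in the extension of `N` by an automorphism. -/
def S_CLZ : Prop :=
  ∀ (N : Type) [Group N] (τ : MulAut N) (H : Subgroup N), IsHyperlinear N → IsClosedSubgroup H →
    IsClosedSubgroup (H.map (SemidirectProduct.inl : N →* ExtZ N τ))

/-- PFC: elements of the amalgam `B *_H (H × L)` which commute with a subgroup of finite index of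
`L` belong to `H`, for icc groups `L`. -/
def S_PFC : Prop :=
  ∀ (B L : Type) [Group B] [Group L] (H : Subgroup B), Infinite L →
    (∀ l : L, l ≠ 1 → (Set.range fun m : L => m * l * m⁻¹).Infinite) →
    ∀ g : PushoutI (extMap H L),
      (Set.range fun m : L => inL H L m * g * (inL H L m)⁻¹).Finite → ∃ h ∈ H, g = inB H L h

/-- PNC: noncommuting elements of the amalgam; the inclusions are injective. -/
def S_PNC : Prop :=
  ∀ (B L : Type) [Group B] [Group L] (H : Subgroup B),
    Function.Injective (inB H L) ∧ Function.Injective (inL H L) ∧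
    (∀ h ∈ H, ∀ l : L, inB H L h * inL H L l = inL H L l * inB H L h) ∧
    ∀ (b : B) (l : L), b ∉ H → l ≠ 1 → inB H L b * inL H L l ≠ inL H L l * inB H L b

/-- FCM: an element of `E_3(F[ℚ])` which commutes with a subgroup of finite index of `E_3(F[ℤ])` is
trivial. -/
def S_FCM : Prop :=
  ∀ g : NQ, (Set.range fun m : LZ => jm 1 m * g * (jm 1 m)⁻¹).Finite → g = 1

/-- JM: the inclusions of `E_3(F[ℤ])`. -/
def S_JM : Prop :=
  (∀ m : ℤ, m ≠ 0 → Function.Injective (jm m)) ∧ (∀ g : LZ, half (jm 2 g) = jm 1 g) ∧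
    (∀ g : LZ, ∃ g', jm 2 g = jm 1 g') ∧ (∀ g : LZ, jm 2 g ∈ HQ) ∧ (∃ g : LZ, jm 1 g ∉ HQ) ∧
    Infinite LZ

/-- TTZ: property (T) and finite generation. -/
def S_TTZ : Prop := HasT LZ ∧ ∃ (n : ℕ) (γ : FreeGroup (Fin n) →* LZ), Function.Surjective γ

/-- GRP: the group. -/
def S_GRP : Prop :=
  ∃ (P : Type) (_ : Group P) (K K1 K2 : Subgroup P) (n : ℕ) (γ : FreeGroup (Fin n) →* P)
    (g k l : P), IsHyperlinear P ∧ Infinite P ∧ Function.Surjective γ ∧ HasT K ∧ HasT K1 ∧
    HasT K2 ∧ Subgroup.closure {g : P | ∀ k ∈ K, g⁻¹ * k * g ∈ K} = ⊤ ∧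
    (∀ k ∈ K, g⁻¹ * k * g ∈ K) ∧ k ∈ K ∧ (∀ a ∈ K, l * a = a * l) ∧
    l * (g * k * g⁻¹) ≠ g * k * g⁻¹ * l ∧
    ∀ x : P, x ≠ 1 → (Set.range fun a : K1 => (a : P) * x * (a : P)⁻¹).Infinite ∨
      (Set.range fun a : K2 => (a : P) * x * (a : P)⁻¹).Infinite

end

end Pool.Agent.N829.OM
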