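import Pool.Agent.W661.RC.Stm2
import Pool.Agent.Helper278.MUStmt
import Pool.Agent.H21R2.HDefs

/-!
# Project OM: matrix ultraproducts
-/

set_option autoImplicit false

namespace Pool.Agent.N829.OM

open Matrix Finset Filter
open scoped ComplexOrder Topology
open Pool.Agent.Helper278 (Mat OpBound NormBounded IsMatrixUltraproduct nrm2 ntr)
open Pool.Agent.H21R2 (IsHyperlinear)
open Pool.Agent.W661.RC (HasT)

noncomputable section

universe v

/-- `f` is a unitary representation of the group `P` in the algebra `Q` with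
`τ (f g) = 0` for `g ≠ 1`. -/
structure TRep (P : Type) [Group P] {Q : Type v} [Ring Q] [StarRing Q] (τ : Q → ℂ)
    (f : P → Q) : Prop where
  one : f 1 = 1
  mul : ∀ g h, f (g * h) = f g * f h
  star : ∀ g, Star.star (f g) = f g⁻¹
  tr : ∀ g, g ≠ 1 → τ (f g) = 0

/-- `q` has a lift of operator norm at most `C`. -/
def HasLift {Q : Type v} (π : (∀ n, Mat n) → Q) (q : Q) (C : ℝ) : Prop :=
  ∃ x : ∀ n, Mat n, (∀ n, OpBound (x n) C) ∧ π x = q

/-- ULIFT: unitaries of the matrix ultraproduct lift to sequences of unitaries. -/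
def S_ULIFT : Prop :=
  ∀ (U : Ultrafilter ℕ) (Q : Type v) [Ring Q] [StarRing Q] [Algebra ℂ Q] [StarModule ℂ Q]
    (π : (∀ n, Mat n) → Q) (τ : Q → ℂ), IsMatrixUltraproduct U π τ → ∀ u : Q,
    star u * u = 1 → ∃ V : ∀ n, unitaryGroup (Fin n) ℂ, π (fun n => (V n : Mat n)) = u

/-- BLIFT: elements with bounded moments have bounded lifts. -/
def S_BLIFT : Prop :=
  ∀ (U : Ultrafilter ℕ) (Q : Type v) [Ring Q] [StarRing Q] [Algebra ℂ Q] [StarModule ℂ Q]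
    (π : (∀ n, Mat n) → Q) (τ : Q → ℂ), IsMatrixUltraproduct U π τ → ∀ (q : Q) (C : ℝ), 0 < C →
    (∀ m : ℕ, (τ ((star q * q) ^ m)).re ≤ (C ^ 2) ^ m) → HasLift π q (2 * C)

/-- CPL: completeness of balls for the 2-norm. -/
def S_CPL : Prop :=
  ∀ (U : Ultrafilter ℕ), (∀ n, {n} ∉ U) → ∀ (Q : Type v) [Ring Q] [StarRing Q] [Algebra ℂ Q]
    [StarModule ℂ Q] (π : (∀ n, Mat n) → Q) (τ : Q → ℂ), IsMatrixUltraproduct U π τ →
    ∀ (q : ℕ → Q) (C : ℝ), (∀ j, HasLift π (q j) C) →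
    (∀ j, nrm2 τ (q (j + 1) - q j) ≤ (1 / 2) ^ j) →
    ∃ p : Q, HasLift π p C ∧ Tendsto (fun j => nrm2 τ (q j - p)) atTop (𝓝 0)

/-- APR: a countable hyperlinear group has a trace preserving unitary representation in the matrix
ultraproduct. -/
def S_APR : Prop :=
  ∀ (P : Type) [Group P] [Countable P], IsHyperlinear P → ∀ (U : Ultrafilter ℕ), (∀ n, {n} ∉ U) →
    ∀ (Q : Type v) [Ring Q] [StarRing Q] [Algebra ℂ Q] [StarModule ℂ Q]
    (π : (∀ n, Mat n) → Q) (τ : Q → ℂ), IsMatrixUltraproduct U π τ → ∃ f : P → Q, TRep P τ f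

/-- ULT: the theorem for representations. -/
def S_ULT : Prop :=
  ∀ (P : Type) [Group P] (K : Subgroup P), HasT K →
    Subgroup.closure {g : P | ∀ k ∈ K, g⁻¹ * k * g ∈ K} = ⊤ →
    ∀ (n : ℕ) (γ : FreeGroup (Fin n) →* P), Function.Surjective γ →
    ∀ (g : P), (∀ k ∈ K, g⁻¹ * k * g ∈ K) → ∀ k ∈ K, ∀ l : P, (∀ a ∈ K, l * a = a * l) →
    l * (g * k * g⁻¹) ≠ g * k * g⁻¹ * l →
    ∀ (U : Ultrafilter ℕ), (∀ n, {n} ∉ U) → ∀ (Q : Type v) [Ring Q] [StarRing Q] [Algebra ℂ Q]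
    [StarModule ℂ Q] (π : (∀ n, Mat n) → Q) (τ : Q → ℂ), IsMatrixUltraproduct U π τ →
    ∀ f : P → Q, TRep P τ f →
    ∃ z : Q, (∀ a, z * f a = f a * z) ∧
      (∀ a : Q, (∀ k ∈ K, a * f k = f k * a) → z * a = a * z) ∧ ∀ c : ℂ, z ≠ c • (1 : Q)

end

end Pool.Agent.N829.OM
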